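import Mathlib
import Pool.Agent.V11187.ProjSymDefs

/-!
Hyperplane projections of convex bodies in three-dimensional Euclidean space and complete
symmetry groups: definitions and general lemmas.
-/

open MeasureTheory Metric Module

namespace Pool.Agent.V11187.ProjSym

section Wulff

variable {V : Type*} [NormedAddCommGroup V] [InnerProductSpace ℝ V]

/-- The convex set with (intended) support function `h`. -/
def Wulff (h : V → ℝ) : Set V := {z | ∀ x, inner ℝ z x ≤ h x}

theorem wulff_convex (h : V → ℝ) : Convex ℝ (Wulff h) := by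
  intro z hz w hw a b ha hb hab x
  rw [inner_add_left, real_inner_smul_left, real_inner_smul_left]
  have h1 := mul_le_mul_of_nonneg_left (hz x) ha
  have h2 := mul_le_mul_of_nonneg_left (hw x) hb
  have h3 : h x = a * h x + b * h x := by rw [← add_mul, hab, one_mul]
  linarith

theorem wulff_closed (h : V → ℝ) : IsClosed (Wulff h) := by
  have : Wulff h = ⋂ x, {z | inner ℝ z x ≤ h x} := by
    ext z; simp [Wulff]
  rw [this]
  exact isClosed_iInter fun x => isClosed_le (by fun_prop) continuous_const

theorem wulff_bounded (h : V → ℝ) (M : ℝ) (hM0 : 0 ≤ M) (hM : ∀ x, h x ≤ M * ‖x‖) :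
    Wulff h ⊆ closedBall (0 : V) M := by
  intro z hz
  rw [mem_closedBall_zero_iff]
  have h1 : ‖z‖ ^ 2 ≤ M * ‖z‖ := by
    have := (hz z).trans (hM z)
    rwa [real_inner_self_eq_norm_sq] at this
  by_contra hlt
  push Not at hlt
  nlinarith

theorem wulff_compact [FiniteDimensional ℝ V] (h : V → ℝ) (M : ℝ) (hM0 : 0 ≤ M)
    (hM : ∀ x, h x ≤ M * ‖x‖) : IsCompact (Wulff h) :=
  (isCompact_closedBall (0 : V) M).of_isClosed_subset (wulff_closed h)
    (wulff_bounded h M hM0 hM)

theorem wulff_contains_ball (h : V → ℝ) (m : ℝ) (hm : ∀ x, m * ‖x‖ ≤ h x) :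
    closedBall (0 : V) m ⊆ Wulff h := by
  intro z hz x
  rw [mem_closedBall_zero_iff] at hz
  calc inner ℝ z x ≤ ‖z‖ * ‖x‖ := real_inner_le_norm z x
    _ ≤ m * ‖x‖ := by gcongr
    _ ≤ h x := hm x

theorem wulff_convexBody [FiniteDimensional ℝ V] (h : V → ℝ) (m M : ℝ) (hm0 : 0 < m)
    (hM0 : 0 ≤ M) (hm : ∀ x, m * ‖x‖ ≤ h x) (hM : ∀ x, h x ≤ M * ‖x‖) :
    IsConvexBody (Wulff h) := by
  refine ⟨wulff_compact h M hM0 hM, wulff_convex h, ?_⟩
  refine ⟨0, ?_⟩
  rw [mem_interior_iff_mem_nhds]
  exact Filter.mem_of_superset (closedBall_mem_nhds (0 : V) hm0) (wulff_contains_ball h m hm)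

/-- Hahn-Banach: a point of a subspace satisfying the constraints on that subspace is the
orthogonal projection of a point satisfying all constraints. -/
theorem proj_wulff [FiniteDimensional ℝ V] (h : V → ℝ)
    (hhom : ∀ c : ℝ, 0 < c → ∀ x, h (c • x) = c * h x)
    (hadd : ∀ x y, h (x + y) ≤ h x + h y) (W : Submodule ℝ V) :
    W.orthogonalProjectionOnto '' (Wulff h) = Wulff (fun y : W => h (y : V)) := by
  ext z
  constructor
  · rintro ⟨w, hw, rfl⟩ y
    have := hw (y : V)
    rwa [Submodule.inner_orthogonalProjectionOnto_eq_of_mem_right]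
  · intro hz
    let f : W →ₗ[ℝ] ℝ := (innerSL ℝ z).toLinearMap
    let F : V →ₗ.[ℝ] ℝ := ⟨W, f⟩
    obtain ⟨g, hg1, hg2⟩ := exists_extension_of_le_sublinear F h hhom hadd (fun x => hz x)
    let w : V := (InnerProductSpace.toDual ℝ V).symm (LinearMap.toContinuousLinearMap g)
    have hw : ∀ x, inner ℝ w x = g x := by
      intro x
      simp [w, InnerProductSpace.toDual_symm_apply]
    refine ⟨w, fun x => by rw [hw x]; exact hg2 x, ?_⟩
    refine ext_inner_right ℝ fun y => ?_
    rw [Submodule.inner_orthogonalProjectionOnto_eq_of_mem_right, hw]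
    exact hg1 y

/-- Support functions are attained. -/
theorem wulff_attained [FiniteDimensional ℝ V] (h : V → ℝ)
    (hhom : ∀ c : ℝ, 0 < c → ∀ x, h (c • x) = c * h x)
    (hadd : ∀ x y, h (x + y) ≤ h x + h y) (x : V) :
    ∃ z ∈ Wulff h, inner ℝ z x = h x := by
  have h0 : h 0 = 0 := by
    have := hhom 2 (by norm_num) 0
    rw [smul_zero] at this
    linarith
  have H : ∀ c : ℝ, c • x = 0 → c • h x = 0 := by
    intro c hc
    rcases smul_eq_zero.mp hc with h' | h'
    · rw [h', zero_smul]
    · rw [h', h0, smul_zero]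
  let F : V →ₗ.[ℝ] ℝ := LinearPMap.mkSpanSingleton' x (h x) H
  obtain ⟨g, hg1, hg2⟩ := exists_extension_of_le_sublinear F h hhom hadd (by
    rintro ⟨y, hy⟩
    obtain ⟨c, rfl⟩ := Submodule.mem_span_singleton.mp hy
    have hF : F ⟨c • x, hy⟩ = c * h x := by
      change LinearPMap.mkSpanSingleton' x (h x) H ⟨c • x, hy⟩ = _
      rw [LinearPMap.mkSpanSingleton'_apply]
      rfl
    rw [hF]
    change c * h x ≤ h (c • x)
    rcases lt_trichotomy c 0 with hc | hc | hc
    · have h1 : h ((-c) • x) = (-c) * h x := hhom (-c) (by linarith) x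
      have h2 := hadd (c • x) ((-c) • x)
      rw [← add_smul, add_neg_cancel, zero_smul, h0, h1] at h2
      linarith
    · rw [hc, zero_smul, h0, zero_mul]
    · rw [hhom c hc x])
  let w : V := (InnerProductSpace.toDual ℝ V).symm (LinearMap.toContinuousLinearMap g)
  have hw : ∀ x, inner ℝ w x = g x := by
    intro x
    simp [w, InnerProductSpace.toDual_symm_apply]
  refine ⟨w, fun x => by rw [hw x]; exact hg2 x, ?_⟩
  rw [hw]
  have hmem : x ∈ Submodule.span ℝ {x} := Submodule.mem_span_singleton_self x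
  have h1 := hg1 ⟨x, hmem⟩
  rw [h1]
  have hmem' : (1 : ℝ) • x ∈ F.domain := by
    rw [one_smul]; exact hmem
  have := LinearPMap.mkSpanSingleton'_apply x (h x) H 1 hmem'
  simp only [one_smul, RingHom.id_apply] at this
  exact this

/-- A linear isometry leaving `h` invariant leaves the Wulff set invariant. -/
theorem wulff_image_isometry (h : V → ℝ) (R : V ≃ₗᵢ[ℝ] V) (hR : ∀ x, h (R x) = h x) :
    R '' (Wulff h) = Wulff h := by
  ext z
  constructor
  · rintro ⟨w, hw, rfl⟩ x
    have h1 : x = R (R.symm x) := (R.apply_symm_apply x).symm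
    rw [h1, R.inner_map_map, hR]
    exact hw _
  · intro hz
    refine ⟨R.symm z, fun x => ?_, R.apply_symm_apply z⟩
    have h1 : z = R (R.symm z) := (R.apply_symm_apply z).symm
    have h2 := hz (R x)
    rw [hR] at h2
    conv at h2 => lhs; rw [h1]
    rwa [R.inner_map_map] at h2

end Wulff

section Rotation

variable {V : Type*} [NormedAddCommGroup V] [InnerProductSpace ℝ V]

theorem inner_comb (b : OrthonormalBasis (Fin 2) ℝ V) (p q r s : ℝ) :
    inner ℝ (p • b 0 + q • b 1) (r • b 0 + s • b 1) = p * r + q * s := by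
  have h00 : inner ℝ (b 0) (b 0) = (1 : ℝ) := by
    rw [real_inner_self_eq_norm_sq, b.orthonormal.1 0]; norm_num
  have h11 : inner ℝ (b 1) (b 1) = (1 : ℝ) := by
    rw [real_inner_self_eq_norm_sq, b.orthonormal.1 1]; norm_num
  have h01 : inner ℝ (b 0) (b 1) = (0 : ℝ) := b.orthonormal.2 (by decide)
  have h10 : inner ℝ (b 1) (b 0) = (0 : ℝ) := b.orthonormal.2 (by decide)
  simp only [inner_add_left, inner_add_right, real_inner_smul_left, real_inner_smul_right,
    h00, h11, h01, h10]
  ring

theorem norm_sq_comb (b : OrthonormalBasis (Fin 2) ℝ V) (p q : ℝ) :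
    ‖p • b 0 + q • b 1‖ ^ 2 = p ^ 2 + q ^ 2 := by
  rw [← real_inner_self_eq_norm_sq, inner_comb]; ring

theorem exists_comb (b : OrthonormalBasis (Fin 2) ℝ V) (y : V) :
    ∃ p q : ℝ, y = p • b 0 + q • b 1 := by
  refine ⟨inner ℝ (b 0) y, inner ℝ (b 1) y, ?_⟩
  have := b.sum_repr' y
  rw [Fin.sum_univ_two] at this
  exact this.symm

/-- Rotation data: `R` rotates the orthonormal pair `b 0, b 1`. -/
structure IsRot (b : OrthonormalBasis (Fin 2) ℝ V) (C S : ℝ) (R : V ≃ₗᵢ[ℝ] V) : Prop where
  cs : C ^ 2 + S ^ 2 = 1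
  hS : S ≠ 0
  r0 : R (b 0) = C • b 0 + S • b 1
  r1 : R (b 1) = (-S) • b 0 + C • b 1

/-- Existence of rotations. -/
theorem exists_isRot (b : OrthonormalBasis (Fin 2) ℝ V) (C S : ℝ) (cs : C ^ 2 + S ^ 2 = 1)
    (hS : S ≠ 0) : ∃ R : V ≃ₗᵢ[ℝ] V, IsRot b C S R := by
  have hb : Orthonormal ℝ b := b.orthonormal
  let v : Fin 2 → V := ![C • b 0 + S • b 1, (-S) • b 0 + C • b 1]
  have h00 : inner ℝ (b 0) (b 0) = (1 : ℝ) := by
    rw [real_inner_self_eq_norm_sq, hb.1 0]; norm_num
  have h11 : inner ℝ (b 1) (b 1) = (1 : ℝ) := by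
    rw [real_inner_self_eq_norm_sq, hb.1 1]; norm_num
  have h01 : inner ℝ (b 0) (b 1) = (0 : ℝ) := hb.2 (by decide)
  have h10 : inner ℝ (b 1) (b 0) = (0 : ℝ) := hb.2 (by decide)
  have e00 : inner ℝ (v 0) (v 0) = (1 : ℝ) := by
    change inner ℝ (C • b 0 + S • b 1) (C • b 0 + S • b 1) = (1 : ℝ)
    rw [inner_add_left, inner_add_right, inner_add_right, real_inner_smul_left,
      real_inner_smul_left, real_inner_smul_left, real_inner_smul_left, real_inner_smul_right,
      real_inner_smul_right, real_inner_smul_right, real_inner_smul_right, h00, h11, h01, h10]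
    linear_combination cs
  have e11 : inner ℝ (v 1) (v 1) = (1 : ℝ) := by
    change inner ℝ ((-S) • b 0 + C • b 1) ((-S) • b 0 + C • b 1) = (1 : ℝ)
    rw [inner_add_left, inner_add_right, inner_add_right, real_inner_smul_left,
      real_inner_smul_left, real_inner_smul_left, real_inner_smul_left, real_inner_smul_right,
      real_inner_smul_right, real_inner_smul_right, real_inner_smul_right, h00, h11, h01, h10]
    linear_combination cs
  have e01 : inner ℝ (v 0) (v 1) = (0 : ℝ) := by
    change inner ℝ (C • b 0 + S • b 1) ((-S) • b 0 + C • b 1) = (0 : ℝ)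
    rw [inner_add_left, inner_add_right, inner_add_right, real_inner_smul_left,
      real_inner_smul_left, real_inner_smul_left, real_inner_smul_left, real_inner_smul_right,
      real_inner_smul_right, real_inner_smul_right, real_inner_smul_right, h00, h11, h01, h10]
    ring
  have hv : Orthonormal ℝ v := by
    rw [orthonormal_iff_ite]
    intro i j
    fin_cases i <;> fin_cases j
    · exact e00
    · exact e01
    · change inner ℝ (v 1) (v 0) = (0 : ℝ)
      rw [real_inner_comm]; exact e01
    · exact e11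
  have : FiniteDimensional ℝ V := b.toBasis.finiteDimensional_of_finite
  have hcard : Fintype.card (Fin 2) = finrank ℝ V := by
    rw [finrank_eq_card_basis b.toBasis]
  let B : Basis (Fin 2) ℝ V :=
    basisOfLinearIndependentOfCardEqFinrank hv.linearIndependent hcard
  have hBv : ⇑B = v := coe_basisOfLinearIndependentOfCardEqFinrank _ _
  let b' : OrthonormalBasis (Fin 2) ℝ V := B.toOrthonormalBasis (by rw [hBv]; exact hv)
  have hb' : ⇑b' = v := by simp [b', hBv]
  let R : V ≃ₗᵢ[ℝ] V := b.equiv b' (Equiv.refl _)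
  refine ⟨R, cs, hS, ?_, ?_⟩
  · have : R (b 0) = b' 0 := by simp [R]
    rw [this, hb']; simp [v]
  · have : R (b 1) = b' 1 := by simp [R]
    rw [this, hb']; simp [v]

/-- A rotation with `S ≠ 0` fixes only the origin. -/
theorem IsRot.fixed {b : OrthonormalBasis (Fin 2) ℝ V} {C S : ℝ} {R : V ≃ₗᵢ[ℝ] V}
    (hR : IsRot b C S R) (x : V) (hx : R x = x) : x = 0 := by
  have h00 : inner ℝ (b 0) (b 0) = (1 : ℝ) := by
    rw [real_inner_self_eq_norm_sq, b.orthonormal.1 0]; norm_num
  have h11 : inner ℝ (b 1) (b 1) = (1 : ℝ) := by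
    rw [real_inner_self_eq_norm_sq, b.orthonormal.1 1]; norm_num
  have h01 : inner ℝ (b 0) (b 1) = (0 : ℝ) := b.orthonormal.2 (by decide)
  have h10 : inner ℝ (b 1) (b 0) = (0 : ℝ) := b.orthonormal.2 (by decide)
  obtain ⟨p, q, hpq⟩ : ∃ p q : ℝ, x = p • b 0 + q • b 1 := by
    refine ⟨inner ℝ (b 0) x, inner ℝ (b 1) x, ?_⟩
    have := b.sum_repr' x
    rw [Fin.sum_univ_two] at this
    exact this.symm
  have hRx : R x = (p * C - q * S) • b 0 + (p * S + q * C) • b 1 := by
    rw [hpq, map_add, map_smul, map_smul, hR.r0, hR.r1]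
    module
  rw [hRx, hpq] at hx
  have e0 := congrArg (fun y => inner ℝ y (b 0)) hx
  have e1 := congrArg (fun y => inner ℝ y (b 1)) hx
  simp only [inner_add_left, real_inner_smul_left, h00, h11, h01, h10] at e0 e1
  have hp : S * ((p ^ 2 + q ^ 2)) = 0 := by
    linear_combination (-q) * e0 + p * e1
  have hpq0 : p ^ 2 + q ^ 2 = 0 := by
    rcases mul_eq_zero.mp hp with h | h
    · exact absurd h hR.hS
    · exact h
  have hp0 : p = 0 := by nlinarith [sq_nonneg p, sq_nonneg q]
  have hq0 : q = 0 := by nlinarith [sq_nonneg p, sq_nonneg q]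
  rw [hpq, hp0, hq0]; simp

/-- An affine bijection preserving the closed unit ball fixes the origin. -/
theorem affine_fix_zero (g : V → V) (hadd : ∀ x, g x + g (-x) = (2 : ℝ) • g 0)
    (hg : g '' closedBall (0 : V) 1 = closedBall (0 : V) 1) : g 0 = 0 := by
  by_contra h0
  have hn : 0 < ‖g 0‖ := norm_pos_iff.mpr h0
  have hmem : (-(‖g 0‖)⁻¹) • g 0 ∈ closedBall (0 : V) 1 := by
    rw [mem_closedBall_zero_iff, norm_smul, norm_neg, norm_inv, norm_norm,
      inv_mul_cancel₀ hn.ne']
  rw [← hg] at hmem
  obtain ⟨x, hx, hgx⟩ := hmem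
  have hmx : -x ∈ closedBall (0 : V) 1 := by
    rw [mem_closedBall_zero_iff] at hx ⊢
    rwa [norm_neg]
  have h2 : g (-x) ∈ closedBall (0 : V) 1 := by
    rw [← hg]; exact ⟨-x, hmx, rfl⟩
  have h3 : g (-x) = (2 + (‖g 0‖)⁻¹) • g 0 := by
    have := hadd x
    rw [hgx] at this
    have h4 : g (-x) = (2 : ℝ) • g 0 - (-(‖g 0‖)⁻¹) • g 0 := by
      rw [← this]; abel
    rw [h4]; module
  rw [mem_closedBall_zero_iff, h3, norm_smul, Real.norm_of_nonneg (by positivity), add_mul,
    inv_mul_cancel₀ hn.ne'] at h2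
  linarith

/-- In a plane, a group of isometries containing a rotation about the origin of order greater
than two is complete. -/
theorem IsRot.complete {b : OrthonormalBasis (Fin 2) ℝ V} {C S : ℝ} {R : V ≃ₗᵢ[ℝ] V}
    (hR : IsRot b C S R) (G : Subgroup (V ≃ᵢ V)) (hG : R.toIsometryEquiv ∈ G) :
    IsCompleteGroup G := by
  rintro E ⟨T, rfl⟩ hE
  have hRE : R '' (T '' closedBall (0 : V) 1) = T '' closedBall (0 : V) 1 := hE hG
  -- the conjugated map
  let g : V → V := fun x => T.symm (R (T x))
  have hgball : g '' closedBall (0 : V) 1 = closedBall (0 : V) 1 := by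
    have : g = T.symm ∘ R ∘ T := rfl
    rw [this, Set.image_comp, Set.image_comp, hRE, ← Set.image_comp]
    have h2 : (T.symm : V → V) ∘ T = id := by
      funext x; exact T.symm_apply_apply x
    rw [h2, Set.image_id]
  let L : V ≃ₗ[ℝ] V := T.linear
  have hT : ∀ x, T x = L x + T 0 := by
    intro x
    have := T.map_vadd 0 x
    simpa using this
  have hTs : ∀ y, T.symm y = L.symm (y - T 0) := by
    intro y
    rw [AffineEquiv.symm_apply_eq, hT, LinearEquiv.apply_symm_apply, sub_add_cancel]
  have hgx : ∀ x, g x = L.symm (R (L x)) + L.symm (R (T 0) - T 0) := by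
    intro x
    change T.symm (R (T x)) = _
    rw [hTs, hT x, map_add, add_sub_assoc, map_add]
  have hadd : ∀ x, g x + g (-x) = (2 : ℝ) • g 0 := by
    intro x
    rw [hgx x, hgx (-x), hgx 0]
    simp only [map_neg, map_zero, zero_add, two_smul]
    abel
  have hg0 := affine_fix_zero g hadd hgball
  have hc : T 0 = 0 := by
    rw [hgx 0] at hg0
    simp only [map_zero, zero_add] at hg0
    have h1 : R (T 0) - T 0 = 0 := by
      have := congrArg L hg0
      simpa using this
    exact hR.fixed _ (sub_eq_zero.mp h1)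
  have hgL : ∀ x, g x = L.symm (R (L x)) := by
    intro x; rw [hgx, hc]; simp
  -- `g` preserves the norm
  have hgle : ∀ x, ‖g x‖ ≤ ‖x‖ := by
    intro x
    by_cases hx : x = 0
    · rw [hx, hg0]
    · have hn : 0 < ‖x‖ := norm_pos_iff.mpr hx
      have hmem : (‖x‖)⁻¹ • x ∈ closedBall (0 : V) 1 := by
        rw [mem_closedBall_zero_iff, norm_smul, norm_inv, norm_norm, inv_mul_cancel₀ hn.ne']
      have h2 : g ((‖x‖)⁻¹ • x) ∈ closedBall (0 : V) 1 := by
        rw [← hgball]; exact ⟨_, hmem, rfl⟩
      have h3 : g ((‖x‖)⁻¹ • x) = (‖x‖)⁻¹ • g x := by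
        rw [hgL, hgL]; simp only [map_smul]
      rw [h3, mem_closedBall_zero_iff, norm_smul, norm_inv, norm_norm] at h2
      rwa [inv_mul_le_iff₀ hn, mul_one] at h2
  have hgge : ∀ x, ‖x‖ ≤ ‖g x‖ := by
    intro x
    by_cases hx : x = 0
    · rw [hx, hg0]
    · have hn : 0 < ‖g x‖ := by
        rw [norm_pos_iff, hgL]
        intro h
        apply hx
        have h1 : R (L x) = 0 := by
          have := congrArg L h
          simpa using this
        have h2 : L x = 0 := by
          have := congrArg R.symm h1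
          simpa using this
        have := congrArg L.symm h2
        simpa using this
      have hmem : (‖g x‖)⁻¹ • g x ∈ closedBall (0 : V) 1 := by
        rw [mem_closedBall_zero_iff, norm_smul, norm_inv, norm_norm, inv_mul_cancel₀ hn.ne']
      rw [← hgball] at hmem
      obtain ⟨y, hy, hyx⟩ := hmem
      have h3 : g ((‖g x‖)⁻¹ • x) = (‖g x‖)⁻¹ • g x := by
        rw [hgL, hgL]; simp only [map_smul]
      have h4 : y = (‖g x‖)⁻¹ • x := by
        rw [← h3, hgL, hgL] at hyx
        exact L.injective (R.injective (L.symm.injective hyx))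
      rw [h4, mem_closedBall_zero_iff, norm_smul, norm_inv, norm_norm] at hy
      rwa [inv_mul_le_iff₀ hn, mul_one] at hy
  have hgnorm : ∀ x, ‖g x‖ = ‖x‖ := fun x => le_antisymm (hgle x) (hgge x)
  -- the invariant quadratic form
  have hq : ∀ y, ‖L.symm (R y)‖ = ‖L.symm y‖ := by
    intro y
    have := hgnorm (L.symm y)
    rw [hgL] at this
    simpa using this
  have hinner : ∀ y z, inner ℝ (L.symm (R y)) (L.symm (R z)) = inner ℝ (L.symm y) (L.symm z) := by
    intro y z
    have h1 := hq (y + z)
    have h2 := hq y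
    have h3 := hq z
    simp only [map_add] at h1
    have e1 := norm_add_sq_real (L.symm (R y)) (L.symm (R z))
    have e2 := norm_add_sq_real (L.symm y) (L.symm z)
    rw [h1] at e1
    rw [e2, h2, h3] at e1
    linarith
  set u := L.symm (b 0) with hu
  set v := L.symm (b 1) with hv
  have hRu : L.symm (R (b 0)) = C • u + S • v := by
    rw [hR.r0, map_add, map_smul, map_smul]
  have hRv : L.symm (R (b 1)) = (-S) • u + C • v := by
    rw [hR.r1, map_add, map_smul, map_smul]
  have k00 := hinner (b 0) (b 0)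
  have k01 := hinner (b 0) (b 1)
  rw [hRu] at k00 k01
  rw [hRv] at k01
  rw [← hu] at k00 k01
  rw [← hv] at k01
  simp only [inner_add_left, inner_add_right, real_inner_smul_left, real_inner_smul_right] at k00 k01
  have hcomm : inner ℝ v u = inner ℝ u v := real_inner_comm u v
  rw [hcomm] at k00 k01
  have cs := hR.cs
  have hS := hR.hS
  set α := inner ℝ u u with hα
  set β := inner ℝ u v with hβ
  set γ := inner ℝ v v with hγ
  have m1 : S * ((γ - α) * S + 2 * β * C) = 0 := by
    linear_combination k00 - α * cs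
  have m2 : S * ((γ - α) * C - 2 * β * S) = 0 := by
    linear_combination k01 - β * cs
  have m1' : (γ - α) * S + 2 * β * C = 0 := by
    rcases mul_eq_zero.mp m1 with h | h
    · exact absurd h hS
    · exact h
  have m2' : (γ - α) * C - 2 * β * S = 0 := by
    rcases mul_eq_zero.mp m2 with h | h
    · exact absurd h hS
    · exact h
  have hγα : γ = α := by
    have : (γ - α) * (C ^ 2 + S ^ 2) = 0 := by linear_combination S * m1' + C * m2'
    rw [cs, mul_one] at this
    linarith
  have hβ0 : β = 0 := by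
    have : 2 * β * (C ^ 2 + S ^ 2) = 0 := by linear_combination C * m1' - S * m2'
    rw [cs, mul_one] at this
    linarith
  have hαpos : 0 < α := by
    rw [hα, real_inner_self_eq_norm_sq]
    have : u ≠ 0 := by
      intro h
      rw [hu] at h
      have h1 : b 0 = 0 := by
        have := congrArg L h
        simpa using this
      have := b.orthonormal.1 0
      rw [h1, norm_zero] at this
      norm_num at this
    positivity
  have hnorm : ∀ y, ‖L.symm y‖ ^ 2 = α * ‖y‖ ^ 2 := by
    intro y
    obtain ⟨p, q, hpq⟩ : ∃ p q : ℝ, y = p • b 0 + q • b 1 := by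
      refine ⟨inner ℝ (b 0) y, inner ℝ (b 1) y, ?_⟩
      have := b.sum_repr' y
      rw [Fin.sum_univ_two] at this
      exact this.symm
    have h00 : inner ℝ (b 0) (b 0) = (1 : ℝ) := by
      rw [real_inner_self_eq_norm_sq, b.orthonormal.1 0]; norm_num
    have h11 : inner ℝ (b 1) (b 1) = (1 : ℝ) := by
      rw [real_inner_self_eq_norm_sq, b.orthonormal.1 1]; norm_num
    have h01 : inner ℝ (b 0) (b 1) = (0 : ℝ) := b.orthonormal.2 (by decide)
    have h10 : inner ℝ (b 1) (b 0) = (0 : ℝ) := b.orthonormal.2 (by decide)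
    have hLy : L.symm y = p • u + q • v := by
      rw [hpq, map_add, map_smul, map_smul]
    rw [← real_inner_self_eq_norm_sq, ← real_inner_self_eq_norm_sq, hLy, hpq]
    simp only [inner_add_left, inner_add_right, real_inner_smul_left, real_inner_smul_right,
      h00, h11, h01, h10, hcomm]
    rw [← hα, ← hβ, ← hγ, hγα, hβ0]
    ring
  refine ⟨0, (Real.sqrt α)⁻¹, by positivity, ?_⟩
  ext y
  have hsq : 0 < Real.sqrt α := Real.sqrt_pos.mpr hαpos
  have key : ‖L.symm y‖ = Real.sqrt α * ‖y‖ := by
    have h1 : ‖L.symm y‖ ^ 2 = (Real.sqrt α * ‖y‖) ^ 2 := by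
      rw [hnorm, mul_pow, Real.sq_sqrt hαpos.le]
    exact (sq_eq_sq₀ (norm_nonneg _) (by positivity)).mp h1
  constructor
  · rintro ⟨x, hx, rfl⟩
    rw [hT x, hc, add_zero] at key
    rw [hT x, hc, add_zero]
    rw [mem_closedBall_zero_iff] at hx ⊢
    have h1 : L.symm (L x) = x := L.symm_apply_apply x
    rw [h1] at key
    rw [key] at hx
    rw [← one_div, le_div_iff₀ hsq]
    linarith
  · intro hy
    rw [mem_closedBall_zero_iff] at hy
    refine ⟨L.symm y, ?_, ?_⟩
    · rw [mem_closedBall_zero_iff, key]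
      rw [← one_div, le_div_iff₀ hsq] at hy
      linarith
    · rw [hT, hc, add_zero, L.apply_symm_apply]

/-- A compact convex body of the plane invariant under such a rotation is completely
symmetric. -/
theorem IsRot.completelySymmetric [FiniteDimensional ℝ V]
    {b : OrthonormalBasis (Fin 2) ℝ V} {C S : ℝ} {R : V ≃ₗᵢ[ℝ] V}
    (hR : IsRot b C S R) (A : Set V) (hA : IsConvexBody A) (hRA : R '' A = A) :
    CompletelySymmetric A := by
  let _ : MeasurableSpace V := borel V
  have _ : BorelSpace V := ⟨rfl⟩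
  refine ⟨?_, hA.1.measure_lt_top, ?_, hR.complete (Sym A) hRA⟩
  · exact (isOpen_interior.measure_pos _ hA.2.2).trans_le (measure_mono interior_subset)
  · have hint : (∫ x in A, x) = 0 := by
      apply hR.fixed
      have h1 : R (∫ x in A, x) = ∫ x in A, R x := by
        have := (R.toContinuousLinearEquiv.toContinuousLinearMap).integral_comp_comm
          (φ := fun x : V => x) (μ := (volume : Measure V).restrict A)
          (continuousOn_id.integrableOn_compact hA.1)
        exact this.symm
      rw [h1]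
      have h2 : MeasurePreserving (R : V → V) volume volume := R.measurePreserving
      have h3 := h2.setIntegral_preimage_emb R.toHomeomorph.measurableEmbedding (fun x : V => x) A
      have h4 : (R : V → V) ⁻¹' A = A := by
        conv_lhs => rw [← hRA]
        exact Set.preimage_image_eq A R.injective
      rw [h4] at h3
      exact h3
    rw [average_eq, hint, smul_zero]

end Rotation

end Pool.Agent.V11187.ProjSym
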