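import Mathlib

/-!
Visual hulls and strictly separated convex bodies: definitions.
-/

open Set Metric

namespace Pool.Agent.V11187.VisualHull

variable {V : Type*} [NormedAddCommGroup V] [NormedSpace ℝ V]

/-- The visual hull of `S`: the set of points `x` such that every line through `x` meets `S`.
A line through `x` is given by a non-zero direction vector `d`. -/
def visualHull (S : Set V) : Set V :=
  {x | ∀ d : V, d ≠ 0 → ∃ t : ℝ, x + t • d ∈ S}

/-- A body: a bounded convex set with non-empty interior. -/
def IsBody (S : Set V) : Prop :=
  Bornology.IsBounded S ∧ Convex ℝ S ∧ (interior S).Nonempty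

/-- Strict separation of a family of sets: for all `i ≠ j` there is an affine hyperplane
`{f = c}` (with `f` a non-zero linear functional) having `S i` and `S j` in its two different
open half-spaces. -/
def StrictlySeparated {ι : Type*} (S : ι → Set V) : Prop :=
  ∀ i j, i ≠ j → ∃ (f : V →L[ℝ] ℝ) (c : ℝ), f ≠ 0 ∧ (∀ x ∈ S i, f x < c) ∧ (∀ x ∈ S j, c < f x)

/-- The number of connected components of a set (as a topological space), possibly infinite. -/
noncomputable def numComponents (P : Set V) : ℕ∞ := ENat.card (ConnectedComponents P)

end Pool.Agent.V11187.VisualHull
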