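import Mathlib

/-!
Common rays: if `m` compact (or `m` open) convex sets in an `m`-dimensional space, none of them
containing the origin, meet together every line through the origin, then some open ray from the
origin meets all of them.
-/

open Set Metric Module

namespace Pool.Agent.V11187.CommonRay

universe u

section Cone

variable {V : Type u} [NormedAddCommGroup V] [InnerProductSpace ℝ V]

/-- The cone over `S`. -/
def cone (S : Set V) : Set V := {x | x = 0 ∨ ∃ t : ℝ, 0 < t ∧ t • x ∈ S}

theorem cone_zero (S : Set V) : (0 : V) ∈ cone S := Or.inl rfl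

theorem cone_smul {S : Set V} {x : V} (hx : x ∈ cone S) {r : ℝ} (hr : 0 ≤ r) :
    r • x ∈ cone S := by
  rcases hr.eq_or_lt with h | h
  · left; rw [← h, zero_smul]
  · rcases hx with h0 | ⟨t, ht, hx⟩
    · left; rw [h0, smul_zero]
    · right
      refine ⟨t / r, by positivity, ?_⟩
      rw [smul_smul, div_mul_cancel₀ _ h.ne']
      exact hx

theorem cone_add {S : Set V} (hS : Convex ℝ S) {x y : V} (hx : x ∈ cone S) (hy : y ∈ cone S) :
    x + y ∈ cone S := by
  rcases hx with rfl | ⟨t, ht, hx⟩
  · rwa [zero_add]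
  · rcases hy with rfl | ⟨r, hr, hy⟩
    · rw [add_zero]; exact Or.inr ⟨t, ht, hx⟩
    · right
      have hpos : 0 < t + r := by linarith
      refine ⟨t * r / (t + r), by positivity, ?_⟩
      have : (t * r / (t + r)) • (x + y) = (r / (t + r)) • (t • x) + (t / (t + r)) • (r • y) := by
        rw [smul_add, smul_smul, smul_smul]
        congr 2 <;> ring
      rw [this]
      exact hS hx hy (by positivity) (by positivity) (by field_simp; ring)

theorem cone_convex {S : Set V} (hS : Convex ℝ S) : Convex ℝ (cone S) := by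
  intro x hx y hy a b ha hb _
  exact cone_add hS (cone_smul hx ha) (cone_smul hy hb)

theorem cone_closed {S : Set V} (hS : IsCompact S) (h0 : (0 : V) ∉ S) : IsClosed (cone S) := by
  apply IsSeqClosed.isClosed
  intro x p hx hp
  by_cases hp0 : p = 0
  · exact Or.inl hp0
  · -- eventually nonzero
    have hev : ∀ᶠ n in Filter.atTop, x n ≠ 0 := hp.eventually_ne hp0
    obtain ⟨N, hN⟩ := Filter.eventually_atTop.mp hev
    have hx' : ∀ n, ∃ t : ℝ, 0 < t ∧ t • x (n + N) ∈ S := by
      intro n
      rcases hx (n + N) with h | h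
      · exact absurd h (hN _ (by omega))
      · exact h
    choose t ht hts using hx'
    obtain ⟨s, hs, φ, hφ, hlim⟩ := hS.tendsto_subseq hts
    have hs0 : s ≠ 0 := by
      intro h; rw [h] at hs; exact h0 hs
    have hxlim : Filter.Tendsto (fun k => x (φ k + N)) Filter.atTop (nhds p) := by
      apply hp.comp
      exact Filter.tendsto_add_atTop_nat N |>.comp hφ.tendsto_atTop
    have htn : ∀ k, t (φ k) = ‖t (φ k) • x (φ k + N)‖ / ‖x (φ k + N)‖ := by
      intro k
      have hne : x (φ k + N) ≠ 0 := hN _ (by omega)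
      rw [norm_smul, Real.norm_of_nonneg (ht _).le,
        mul_div_cancel_right₀ _ (norm_ne_zero_iff.mpr hne)]
    have htlim : Filter.Tendsto (fun k => t (φ k)) Filter.atTop (nhds (‖s‖ / ‖p‖)) := by
      have h1 : Filter.Tendsto (fun k => ‖t (φ k) • x (φ k + N)‖ / ‖x (φ k + N)‖) Filter.atTop
          (nhds (‖s‖ / ‖p‖)) :=
        (hlim.norm).div (hxlim.norm) (norm_ne_zero_iff.mpr hp0)
      exact h1.congr fun k => (htn k).symm
    right
    refine ⟨‖s‖ / ‖p‖, div_pos (norm_pos_iff.mpr hs0) (norm_pos_iff.mpr hp0), ?_⟩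
    have h2 : Filter.Tendsto (fun k => t (φ k) • x (φ k + N)) Filter.atTop
        (nhds ((‖s‖ / ‖p‖) • p)) := htlim.smul hxlim
    have h3 := tendsto_nhds_unique h2 hlim
    rw [h3]; exact hs

theorem cone_pointed {S : Set V} (hS : Convex ℝ S) (h0 : (0 : V) ∉ S) {x : V} (hx : x ∈ cone S)
    (hnx : -x ∈ cone S) : x = 0 := by
  rcases hx with h | ⟨t, ht, hx⟩
  · exact h
  · rcases hnx with h | ⟨r, hr, hy⟩
    · rwa [neg_eq_zero] at h
    · exfalso
      apply h0
      have hpos : 0 < t + r := by linarith
      have := hS hx hy (a := r / (t + r)) (b := t / (t + r)) (by positivity) (by positivity)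
        (by field_simp; ring)
      have e : (r / (t + r)) • (t • x) + (t / (t + r)) • (r • (-x)) = 0 := by
        rw [smul_smul, smul_smul, smul_neg, ← sub_eq_add_neg, ← sub_smul]
        have : r / (t + r) * t - t / (t + r) * r = 0 := by ring
        rw [this, zero_smul]
      rwa [e] at this

end Cone

/-- Compact version. -/
theorem common_ray_compact (m : ℕ) : ∀ (V : Type u) [NormedAddCommGroup V]
    [InnerProductSpace ℝ V] [FiniteDimensional ℝ V] (_ : finrank ℝ V = m + 1)
    (S : Fin (m + 1) → Set V) (_ : ∀ j, IsCompact (S j)) (_ : ∀ j, Convex ℝ (S j))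
    (_ : ∀ j, (0 : V) ∉ S j) (_ : ∀ v : V, v ≠ 0 → ∃ j, ∃ t : ℝ, t • v ∈ S j),
    ∃ v : V, ∀ j, ∃ t : ℝ, 0 < t ∧ t • v ∈ S j := by
  induction m with
  | zero =>
    intro V _ _ _ hV S hc hconv h0 hcov
    have : Nontrivial V := Module.nontrivial_of_finrank_pos (R := ℝ) (by rw [hV]; norm_num)
    obtain ⟨v, hv⟩ := exists_ne (0 : V)
    obtain ⟨j, t, ht⟩ := hcov v hv
    refine ⟨t • v, fun i => ⟨1, one_pos, ?_⟩⟩
    rw [one_smul]
    have : i = j := Fin.ext (by omega)
    rw [this]; exact ht
  | succ m ih =>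
    intro V _ _ _ hV S hc hconv h0 hcov
    by_contra hcon
    have hnt : Nontrivial V := Module.nontrivial_of_finrank_pos (R := ℝ) (by rw [hV]; omega)
    let D : Set V := ⋂ j : Fin (m + 1), cone (S j.castSucc)
    have hDclosed : IsClosed D := isClosed_iInter fun j => cone_closed (hc _) (h0 _)
    have hDconv : Convex ℝ D := convex_iInter fun j => cone_convex (hconv _)
    have hD0 : (0 : V) ∈ D := mem_iInter.mpr fun j => cone_zero _
    have hDsmul : ∀ x ∈ D, ∀ r : ℝ, 0 ≤ r → r • x ∈ D := by
      intro x hx r hr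
      exact mem_iInter.mpr fun j => cone_smul (mem_iInter.mp hx j) hr
    -- enlarge the last set
    obtain ⟨S', hS'c, hS'conv, hS'ne, hsub, hdisj⟩ : ∃ S' : Set V, IsCompact S' ∧ Convex ℝ S' ∧
        S'.Nonempty ∧ S (Fin.last _) ⊆ S' ∧ Disjoint D S' := by
      rcases (S (Fin.last (m + 1))).eq_empty_or_nonempty with hemp | hne
      · obtain ⟨x, hx⟩ := exists_ne (0 : V)
        have : x ∉ D ∨ -x ∉ D := by
          by_contra hcon2
          push Not at hcon2
          have h1 := mem_iInter.mp hcon2.1 0
          have h2 := mem_iInter.mp hcon2.2 0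
          exact hx (cone_pointed (hconv _) (h0 _) h1 h2)
        rcases this with h | h
        · exact ⟨{x}, isCompact_singleton, convex_singleton x, singleton_nonempty x,
            by rw [hemp]; exact empty_subset _, disjoint_singleton_right.mpr h⟩
        · exact ⟨{-x}, isCompact_singleton, convex_singleton _, singleton_nonempty _,
            by rw [hemp]; exact empty_subset _, disjoint_singleton_right.mpr h⟩
      · refine ⟨S (Fin.last _), hc _, hconv _, hne, Subset.rfl, ?_⟩
        rw [Set.disjoint_left]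
        intro x hxD hxS
        apply hcon
        have hx0 : x ≠ 0 := by
          intro h; rw [h] at hxS; exact h0 _ hxS
        refine ⟨x, fun j => ?_⟩
        refine Fin.lastCases ?_ (fun i => ?_) j
        · exact ⟨1, one_pos, by rw [one_smul]; exact hxS⟩
        · rcases mem_iInter.mp hxD i with h | h
          · exact absurd h hx0
          · exact h
    obtain ⟨f, u, v, hfu, huv, hvf⟩ :=
      geometric_hahn_banach_closed_compact hDconv hDclosed hS'conv hS'c hdisj
    have hu0 : 0 < u := by
      have := hfu 0 hD0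
      rwa [map_zero] at this
    have hfD : ∀ x ∈ D, f x ≤ 0 := by
      intro x hx
      by_contra hpos
      push Not at hpos
      have h1 := hfu _ (hDsmul x hx (u / f x) (by positivity))
      rw [map_smul, smul_eq_mul, div_mul_cancel₀ _ hpos.ne'] at h1
      exact lt_irrefl _ h1
    -- a functional positive on the first set
    obtain ⟨g, u', v', hgu, huv', hvg⟩ :=
      geometric_hahn_banach_closed_compact (convex_singleton (0 : V)) isClosed_singleton
        (hconv (0 : Fin (m + 1)).castSucc) (hc _) (disjoint_singleton_left.mpr (h0 _))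
    have hg0 : 0 < u' := by
      have := hgu 0 rfl
      rwa [map_zero] at this
    have hgD : ∀ x ∈ D, x ≠ 0 → 0 < g x := by
      intro x hx hx0
      rcases mem_iInter.mp hx 0 with h | ⟨t, ht, hts⟩
      · exact absurd h hx0
      · have h1 := hvg _ hts
        rw [map_smul, smul_eq_mul] at h1
        have h2 : 0 < t * g x := by linarith
        exact (mul_pos_iff_of_pos_left ht).mp h2
    obtain ⟨M, hM⟩ : ∃ M, ∀ x ∈ S', g x ≤ M := by
      obtain ⟨M, hM⟩ := (hS'c.image g.continuous).bddAbove
      exact ⟨M, fun x hx => hM ⟨x, hx, rfl⟩⟩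
    have hMp : 0 < |M| + 1 := by positivity
    set ε := u / (|M| + 1) with hε
    have hεpos : 0 < ε := by positivity
    let h : V →L[ℝ] ℝ := f - ε • g
    have hhS : ∀ x ∈ S', 0 < h x := by
      intro x hx
      change 0 < f x - ε * g x
      have h1 := hvf x hx
      have h2 : ε * g x ≤ ε * |M| := by
        apply mul_le_mul_of_nonneg_left _ hεpos.le
        exact (hM x hx).trans (le_abs_self M)
      have h3 : ε * |M| ≤ u := by
        rw [hε, div_mul_eq_mul_div, div_le_iff₀ hMp]
        nlinarith
      linarith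
    have hhD : ∀ x ∈ D, x ≠ 0 → h x < 0 := by
      intro x hx hx0
      change f x - ε * g x < 0
      have h1 := hfD x hx
      have h2 := mul_pos hεpos (hgD x hx hx0)
      linarith
    have hh0 : (h : V →ₗ[ℝ] ℝ) ≠ 0 := by
      intro hz
      obtain ⟨x, hx⟩ := hS'ne
      have h1 := hhS x hx
      have h2 : h x = 0 := by
        have := congrArg (fun F : V →ₗ[ℝ] ℝ => F x) hz
        simpa using this
      linarith
    let H : Submodule ℝ V := LinearMap.ker (h : V →ₗ[ℝ] ℝ)
    have hH : finrank ℝ H = m + 1 := by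
      have : finrank ℝ H + 1 = finrank ℝ V :=
        Module.Dual.finrank_ker_add_one_of_ne_zero (f := (h : V →ₗ[ℝ] ℝ)) hh0
      omega
    have hmemH : ∀ x : V, x ∈ H ↔ h x = 0 := fun x => LinearMap.mem_ker
    obtain ⟨w, hw⟩ := ih H hH (fun j => {y : H | (y : V) ∈ S j.castSucc})
      (by
        intro j
        exact (Submodule.closed_of_finiteDimensional H).isClosedEmbedding_subtypeVal.isCompact_preimage (hc _))
      (by
        intro j
        exact (hconv j.castSucc).linear_preimage H.subtype)
      (by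
        intro j hj
        exact h0 _ hj)
      (by
        intro y hy
        have hy0 : (y : V) ≠ 0 := by
          intro h; exact hy (Subtype.ext h)
        obtain ⟨j, t, ht⟩ := hcov y hy0
        revert ht
        refine Fin.lastCases ?_ (fun i => ?_) j
        · intro ht
          exfalso
          have h1 := hhS _ (hsub ht)
          have h2 : h (y : V) = 0 := (hmemH _).mp y.2
          rw [map_smul, h2, smul_zero] at h1
          exact lt_irrefl _ h1
        · intro ht
          exact ⟨i, t, ht⟩)
    have hw0 : (w : V) ≠ 0 := by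
      intro hz
      obtain ⟨t, ht, hts⟩ := hw 0
      have : (t • w : H) = 0 := by
        have : w = 0 := Subtype.ext hz
        rw [this, smul_zero]
      rw [this] at hts
      exact h0 _ hts
    have hwD : (w : V) ∈ D := by
      refine mem_iInter.mpr fun j => Or.inr ?_
      obtain ⟨t, ht, hts⟩ := hw j
      exact ⟨t, ht, hts⟩
    have h1 := hhD _ hwD hw0
    have h2 : h (w : V) = 0 := (hmemH _).mp w.2
    linarith

section Erosion

set_option linter.unusedSectionVars false

variable {V : Type u} [NormedAddCommGroup V] [InnerProductSpace ℝ V]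

/-- Compact convex exhaustion of an open convex set. -/
def erosion (S : Set V) (n : ℕ) : Set V :=
  {x | ball x (1 / ((n : ℝ) + 1)) ⊆ S} ∩ closedBall 0 n

theorem erosion_sub (S : Set V) (n : ℕ) : erosion S n ⊆ S := by
  intro x hx
  exact hx.1 (mem_ball_self (by positivity))

theorem erosion_mono (S : Set V) {n k : ℕ} (h : n ≤ k) : erosion S n ⊆ erosion S k := by
  intro x hx
  refine ⟨(ball_subset_ball ?_).trans hx.1, closedBall_subset_closedBall (by exact_mod_cast h)
    hx.2⟩
  have : (n : ℝ) ≤ k := by exact_mod_cast h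
  gcongr

theorem erosion_convex {S : Set V} (hS : Convex ℝ S) (n : ℕ) : Convex ℝ (erosion S n) := by
  refine Convex.inter ?_ (convex_closedBall 0 _)
  intro x hx y hy a b ha hb hab z hz
  set w := z - (a • x + b • y) with hw
  have hwn : ‖w‖ < 1 / ((n : ℝ) + 1) := by
    rw [hw, ← dist_eq_norm]; exact hz
  have h1 : x + w ∈ S := hx (by rw [mem_ball, dist_eq_norm, add_sub_cancel_left]; exact hwn)
  have h2 : y + w ∈ S := hy (by rw [mem_ball, dist_eq_norm, add_sub_cancel_left]; exact hwn)
  have h3 := hS h1 h2 ha hb hab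
  have : a • (x + w) + b • (y + w) = z := by
    rw [smul_add, smul_add]
    have : a • w + b • w = w := by rw [← add_smul, hab, one_smul]
    calc a • x + a • w + (b • y + b • w) = (a • x + b • y) + (a • w + b • w) := by abel
      _ = (a • x + b • y) + w := by rw [this]
      _ = z := by rw [hw]; abel
  rwa [this] at h3

theorem erosion_compact [FiniteDimensional ℝ V] (S : Set V) (n : ℕ) :
    IsCompact (erosion S n) := by
  refine (isCompact_closedBall (0 : V) n).of_isClosed_subset ?_ inter_subset_right
  refine IsClosed.inter ?_ isClosed_closedBall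
  rw [← isOpen_compl_iff, Metric.isOpen_iff]
  intro x hx
  have : ∃ y ∈ ball x (1 / ((n : ℝ) + 1)), y ∉ S := by
    by_contra hcon
    push Not at hcon
    exact hx hcon
  obtain ⟨y, hy, hyS⟩ := this
  refine ⟨1 / ((n : ℝ) + 1) - dist y x, by rw [mem_ball] at hy; linarith, ?_⟩
  intro z hz hzS
  apply hyS
  apply hzS
  rw [mem_ball] at hz hy ⊢
  calc dist y z ≤ dist y x + dist x z := dist_triangle _ _ _
    _ < dist y x + (1 / ((n : ℝ) + 1) - dist y x) := by
      rw [dist_comm x z]; linarith
    _ = 1 / ((n : ℝ) + 1) := by ring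

end Erosion

/-- Open version. -/
theorem common_ray_open (m : ℕ) (V : Type u) [NormedAddCommGroup V]
    [InnerProductSpace ℝ V] [FiniteDimensional ℝ V] (hV : finrank ℝ V = m + 1)
    (S : Fin (m + 1) → Set V) (ho : ∀ j, IsOpen (S j)) (hconv : ∀ j, Convex ℝ (S j))
    (h0 : ∀ j, (0 : V) ∉ S j) (hcov : ∀ v : V, v ≠ 0 → ∃ j, ∃ t : ℝ, t • v ∈ S j) :
    ∃ v : V, ∀ j, ∃ t : ℝ, 0 < t ∧ t • v ∈ S j := by
  have key : ∃ n : ℕ, ∀ w ∈ sphere (0 : V) 1, ∃ j, ∃ t : ℝ, t • w ∈ erosion (S j) n := by
    refine (isCompact_sphere (0 : V) 1).induction_on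
      (p := fun s => ∃ n : ℕ, ∀ w ∈ s, ∃ j, ∃ t : ℝ, t • w ∈ erosion (S j) n) ?_ ?_ ?_ ?_
    · exact ⟨0, fun w hw => absurd hw (notMem_empty w)⟩
    · rintro s t hst ⟨n, hn⟩
      exact ⟨n, fun w hw => hn w (hst hw)⟩
    · rintro s t ⟨n, hn⟩ ⟨k, hk⟩
      refine ⟨max n k, fun w hw => ?_⟩
      rcases hw with hw | hw
      · obtain ⟨j, r, hr⟩ := hn w hw
        exact ⟨j, r, erosion_mono _ (le_max_left _ _) hr⟩
      · obtain ⟨j, r, hr⟩ := hk w hw
        exact ⟨j, r, erosion_mono _ (le_max_right _ _) hr⟩
    · intro v hv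
      have hv0 : v ≠ 0 := by
        intro h; rw [h] at hv; simp at hv
      obtain ⟨j, t, ht⟩ := hcov v hv0
      obtain ⟨ρ, hρ, hball⟩ := Metric.isOpen_iff.mp (ho j) _ ht
      -- neighbourhood
      have hcont : Continuous fun w : V => t • w := by fun_prop
      have hnh : {w : V | dist (t • w) (t • v) < ρ / 2} ∈ nhds v := by
        apply (isOpen_lt (by fun_prop) continuous_const).mem_nhds
        simp only [mem_ofPred_eq, dist_self]
        positivity
      obtain ⟨N1, hN1⟩ := exists_nat_gt (2 / ρ)
      obtain ⟨N2, hN2⟩ := exists_nat_gt |t|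
      refine ⟨{w : V | dist (t • w) (t • v) < ρ / 2} ∩ sphere (0 : V) 1, ?_,
        max N1 N2, fun w hw => ⟨j, t, ?_, ?_⟩⟩
      · exact Filter.inter_mem (mem_nhdsWithin_of_mem_nhds hnh) self_mem_nhdsWithin
      · intro z hz
        apply hball
        rw [mem_ball] at hz ⊢
        have h1 : (1 : ℝ) / ((max N1 N2 : ℕ) + 1) ≤ ρ / 2 := by
          have h2 : (N1 : ℝ) ≤ (max N1 N2 : ℕ) := by exact_mod_cast le_max_left _ _
          rw [div_le_iff₀ (by positivity)]
          have h3 : 2 / ρ < (max N1 N2 : ℕ) + 1 := by linarith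
          rw [div_lt_iff₀ hρ] at h3
          nlinarith
        calc dist z (t • v) ≤ dist z (t • w) + dist (t • w) (t • v) := dist_triangle _ _ _
          _ < ρ / 2 + ρ / 2 := by
            have := hw.1
            simp only [mem_ofPred_eq] at this
            linarith
          _ = ρ := by ring
      · have hwn : ‖w‖ = 1 := by
          have := hw.2
          rwa [mem_sphere_zero_iff_norm] at this
        rw [mem_closedBall_zero_iff, norm_smul, hwn, mul_one, Real.norm_eq_abs]
        have h2 : (N2 : ℝ) ≤ (max N1 N2 : ℕ) := by exact_mod_cast le_max_right _ _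
        linarith
  obtain ⟨n, hn⟩ := key
  obtain ⟨v, hv⟩ := common_ray_compact m V hV (fun j => erosion (S j) n)
    (fun j => erosion_compact _ n) (fun j => erosion_convex (hconv j) n)
    (fun j hj => h0 j (erosion_sub _ _ hj))
    (by
      intro v hv
      have hn0 : 0 < ‖v‖ := norm_pos_iff.mpr hv
      obtain ⟨j, t, ht⟩ := hn ((‖v‖)⁻¹ • v) (by
        rw [mem_sphere_zero_iff_norm, norm_smul, norm_inv, norm_norm, inv_mul_cancel₀ hn0.ne'])
      refine ⟨j, t * (‖v‖)⁻¹, ?_⟩
      rwa [smul_smul] at ht)
  refine ⟨v, fun j => ?_⟩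
  obtain ⟨t, ht, hts⟩ := hv j
  exact ⟨t, ht, erosion_sub _ _ hts⟩

end Pool.Agent.V11187.CommonRay
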