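import Mathlib

/-!
Bodies of flotation and buoyancy: definitions.
-/

open MeasureTheory Set Metric

namespace Pool.Agent.V11187.Flotation

variable {V : Type*} [NormedAddCommGroup V] [InnerProductSpace ℝ V]

/-- A convex body: a compact convex set with non-empty interior. -/
def IsConvexBody (K : Set V) : Prop :=
  IsCompact K ∧ Convex ℝ K ∧ (interior K).Nonempty

/-- An ellipsoid: the image of the closed unit ball under an invertible affine map. -/
def IsEllipsoid (E : Set V) : Prop :=
  ∃ T : V ≃ᵃ[ℝ] V, E = T '' closedBall (0 : V) 1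

/-- `B` is homothetic to `A`: some dilation `x ↦ c + r (x - c)` with `r > 0` maps `A` onto
`B`. -/
def Homothetic (A B : Set V) : Prop :=
  ∃ (c : V) (r : ℝ), 0 < r ∧ B = (fun x => c + r • (x - c)) '' A

/-- The closed half-space `{x : t ≤ ⟨u, x⟩}`. -/
def halfSpace (u : V) (t : ℝ) : Set V := {x | t ≤ inner ℝ u x}

variable [FiniteDimensional ℝ V] [MeasurableSpace V] [BorelSpace V]

/-- `H` is a closed half-space with `Vol (K ∩ H) = δ`. -/
def Admissible (K : Set V) (δ : ℝ) (H : Set V) : Prop :=
  ∃ (u : V) (t : ℝ), u ≠ 0 ∧ H = halfSpace u t ∧ volume (K ∩ H) = ENNReal.ofReal δ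

/-- The centroid of a set: the average of `x` over it. -/
noncomputable def centroid (A : Set V) : V := ⨍ x in A, x ∂volume

/-- The body of flotation: the intersection of the closures of `K \ H` over all `δ`-admissible
half-spaces `H`. -/
def flotation (K : Set V) (δ : ℝ) : Set V :=
  {x | ∀ H, Admissible K δ H → x ∈ closure (K \ H)}

/-- The body of buoyancy: the convex hull of the centroids of `K ∩ H` over all `δ`-admissible
half-spaces `H`. -/
noncomputable def buoyancy (K : Set V) (δ : ℝ) : Set V :=
  convexHull ℝ {c | ∃ H, Admissible K δ H ∧ c = centroid (K ∩ H)}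

end Pool.Agent.V11187.Flotation
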