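import Mathlib

/-!
Area and first moments of right triangles, and compactness of convex hulls.
-/

open MeasureTheory Set

namespace Pool.Agent.V11187.TriangleInt

/-- The right triangle with legs `a` (first coordinate) and `b` (second coordinate). -/
def tri (a b : ℝ) : Set (ℝ × ℝ) := {p | 0 ≤ p.1 ∧ 0 ≤ p.2 ∧ b * p.1 + a * p.2 ≤ a * b}

theorem tri_closed (a b : ℝ) : IsClosed (tri a b) := by
  have h1 : IsClosed {p : ℝ × ℝ | 0 ≤ p.1} := isClosed_le continuous_const (by fun_prop)
  have h2 : IsClosed {p : ℝ × ℝ | 0 ≤ p.2} := isClosed_le continuous_const (by fun_prop)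
  have h3 : IsClosed {p : ℝ × ℝ | b * p.1 + a * p.2 ≤ a * b} :=
    isClosed_le (by fun_prop) continuous_const
  exact h1.inter (h2.inter h3)

theorem tri_sub {a b : ℝ} (ha : 0 < a) (hb : 0 < b) : tri a b ⊆ Icc 0 a ×ˢ Icc 0 b := by
  rintro ⟨x, y⟩ ⟨h1, h2, h3⟩
  simp only at h1 h2 h3
  refine ⟨⟨h1, ?_⟩, ⟨h2, ?_⟩⟩
  · simp only
    have : b * x ≤ b * a := by nlinarith [mul_nonneg ha.le h2]
    exact le_of_mul_le_mul_left this hb
  · simp only
    have : a * y ≤ a * b := by nlinarith [mul_nonneg hb.le h1]
    exact le_of_mul_le_mul_left this ha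

theorem tri_compact {a b : ℝ} (ha : 0 < a) (hb : 0 < b) : IsCompact (tri a b) :=
  (isCompact_Icc.prod isCompact_Icc).of_isClosed_subset (tri_closed a b) (tri_sub ha hb)

/-- Iterated integral over a triangle. -/
theorem integral_tri {a b : ℝ} (ha : 0 < a) (hb : 0 < b) (f : ℝ × ℝ → ℝ) (hf : Continuous f) :
    (∫ p in tri a b, f p) = ∫ x in (0 : ℝ)..a, ∫ y in (0 : ℝ)..(b * (1 - x / a)), f (x, y) := by
  have hint : IntegrableOn f (tri a b) := hf.continuousOn.integrableOn_compact (tri_compact ha hb)
  have hmeas := (tri_closed a b).measurableSet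
  rw [← integral_indicator hmeas, Measure.volume_eq_prod,
    integral_prod _ ((integrable_indicator_iff hmeas).mpr hint)]
  rw [intervalIntegral.integral_of_le ha.le, ← integral_Icc_eq_integral_Ioc,
    ← integral_indicator measurableSet_Icc]
  congr 1
  funext x
  by_cases hx : x ∈ Icc (0 : ℝ) a
  · rw [indicator_of_mem hx]
    have h0 : 0 ≤ b * (1 - x / a) := by
      have : x / a ≤ 1 := (div_le_one ha).mpr hx.2
      exact mul_nonneg hb.le (by linarith)
    rw [intervalIntegral.integral_of_le h0, ← integral_Icc_eq_integral_Ioc,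
      ← integral_indicator measurableSet_Icc]
    congr 1
    funext y
    by_cases hy : y ∈ Icc (0 : ℝ) (b * (1 - x / a))
    · rw [indicator_of_mem hy, indicator_of_mem]
      refine ⟨hx.1, hy.1, ?_⟩
      simp only
      have h2 := mul_le_mul_of_nonneg_left hy.2 ha.le
      have e : a * (b * (1 - x / a)) = a * b - b * x := by field_simp
      linarith
    · rw [indicator_of_notMem hy, indicator_of_notMem]
      rintro ⟨_, h2, h3⟩
      apply hy
      refine ⟨h2, ?_⟩
      simp only at h2 h3
      have e : b * (1 - x / a) = (a * b - b * x) / a := by field_simp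
      rw [e, le_div_iff₀ ha]
      linarith
  · rw [indicator_of_notMem hx]
    have : ∀ y, (tri a b).indicator f (x, y) = 0 := by
      intro y
      apply indicator_of_notMem
      intro h
      exact hx (tri_sub ha hb h).1
    simp [this]

theorem int_poly (a c0 c1 c2 : ℝ) :
    (∫ x in (0 : ℝ)..a, (c0 + c1 * x + c2 * x ^ 2)) = c0 * a + c1 * a ^ 2 / 2 + c2 * a ^ 3 / 3 := by
  have h1 : IntervalIntegrable (fun x : ℝ => c0 + c1 * x) volume 0 a := by
    apply Continuous.intervalIntegrable; fun_prop
  have h2 : IntervalIntegrable (fun x : ℝ => c2 * x ^ 2) volume 0 a := by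
    apply Continuous.intervalIntegrable; fun_prop
  have h3 : IntervalIntegrable (fun x : ℝ => c1 * x) volume 0 a := by
    apply Continuous.intervalIntegrable; fun_prop
  rw [intervalIntegral.integral_add h1 h2, intervalIntegral.integral_add (by simp) h3]
  rw [intervalIntegral.integral_const, intervalIntegral.integral_const_mul,
    intervalIntegral.integral_const_mul, integral_id, integral_pow]
  simp only [smul_eq_mul]
  ring

theorem tri_area {a b : ℝ} (ha : 0 < a) (hb : 0 < b) : (∫ _p in tri a b, (1 : ℝ)) = a * b / 2 := by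
  rw [integral_tri ha hb _ continuous_const]
  have : ∀ x : ℝ, (∫ y in (0 : ℝ)..(b * (1 - x / a)), (1 : ℝ)) = b + (-b / a) * x + 0 * x ^ 2 := by
    intro x
    rw [intervalIntegral.integral_const, smul_eq_mul]
    ring
  simp only [this]
  rw [int_poly]
  field_simp
  ring

theorem tri_mom1 {a b : ℝ} (ha : 0 < a) (hb : 0 < b) :
    (∫ p in tri a b, p.1) = a ^ 2 * b / 6 := by
  rw [integral_tri ha hb _ continuous_fst]
  have : ∀ x : ℝ, (∫ y in (0 : ℝ)..(b * (1 - x / a)), x) = 0 + b * x + (-b / a) * x ^ 2 := by
    intro x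
    rw [intervalIntegral.integral_const, smul_eq_mul]
    ring
  simp only [this]
  rw [int_poly]
  field_simp
  ring

theorem tri_mom2 {a b : ℝ} (ha : 0 < a) (hb : 0 < b) :
    (∫ p in tri a b, p.2) = a * b ^ 2 / 6 := by
  rw [integral_tri ha hb _ continuous_snd]
  have : ∀ x : ℝ, (∫ y in (0 : ℝ)..(b * (1 - x / a)), y) =
      b ^ 2 / 2 + (-b ^ 2 / a) * x + (b ^ 2 / (2 * a ^ 2)) * x ^ 2 := by
    intro x
    rw [integral_id]
    field_simp
    ring
  simp only [this]
  rw [int_poly]
  field_simp
  ring

section compact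

variable {V : Type*} [NormedAddCommGroup V] [NormedSpace ℝ V]

theorem hull_step {s : Set V} (hs : IsCompact s) (n : ℕ) :
    ∃ K : Set V, IsCompact K ∧ K ⊆ convexHull ℝ s ∧
      ∀ t : Finset V, (t : Set V) ⊆ s → t.card ≤ n + 1 → convexHull ℝ (t : Set V) ⊆ K := by
  classical
  induction n with
  | zero =>
    refine ⟨s, hs, subset_convexHull ℝ s, fun t hts hcard => ?_⟩
    rcases Nat.eq_zero_or_pos t.card with h | h
    · rw [Finset.card_eq_zero] at h
      subst h
      simp
    · have h1 : t.card = 1 := by omega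
      obtain ⟨x, rfl⟩ := Finset.card_eq_one.1 h1
      simpa using hts
  | succ n ih =>
    obtain ⟨K, hK, hKs, hKt⟩ := ih
    set f : V × V × ℝ → V := fun p => (1 - p.2.2) • p.1 + p.2.2 • p.2.1 with hf
    have hfc : Continuous f := by fun_prop
    refine ⟨K ∪ f '' (s ×ˢ K ×ˢ Icc (0:ℝ) 1), hK.union
      ((hs.prod (hK.prod isCompact_Icc)).image hfc), ?_, ?_⟩
    · refine union_subset hKs ?_
      rintro _ ⟨⟨x, y, r⟩, ⟨hx, hy, hr⟩, rfl⟩
      exact (convex_convexHull ℝ s) (subset_convexHull ℝ s hx) (hKs hy)
        (by linarith [hr.2]) hr.1 (by ring)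
    · intro t hts hcard
      rcases Nat.lt_or_ge (n + 1) t.card with h | h
      · obtain ⟨x, t', hxt', rfl, hcard'⟩ :=
          Finset.card_eq_succ.1 (show t.card = (n + 1) + 1 by omega)
        have hne : (t' : Set V).Nonempty := by
          rw [Finset.coe_nonempty, ← Finset.card_pos]; omega
        rw [Finset.coe_insert, convexHull_insert hne]
        intro z hz
        rw [mem_convexJoin] at hz
        obtain ⟨x', hx', y, hy, hz⟩ := hz
        rw [mem_singleton_iff] at hx'
        subst hx'
        have hyK : y ∈ K := hKt t' (fun w hw => hts (by simp [Finset.mem_coe.1 hw])) (by omega) hy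
        rw [segment_eq_image] at hz
        obtain ⟨r, hr, rfl⟩ := hz
        refine Or.inr ⟨(x', y, r), ⟨hts (by simp), hyK, hr⟩, rfl⟩
      · exact (hKt t hts h).trans subset_union_left

/-- The convex hull of a compact set in a finite-dimensional space is compact. -/
theorem isCompact_convexHull_of_isCompact [FiniteDimensional ℝ V] {s : Set V}
    (hs : IsCompact s) : IsCompact (convexHull ℝ s) := by
  classical
  obtain ⟨K, hK, hKs, hKt⟩ := hull_step hs (Module.finrank ℝ V)
  have : convexHull ℝ s = K := by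
    refine Subset.antisymm ?_ hKs
    rw [convexHull_eq_union]
    refine iUnion_subset fun t => iUnion_subset fun hts => iUnion_subset fun hai => ?_
    refine hKt t hts ?_
    have := hai.card_le_finrank_succ
    simpa using this.trans (Nat.succ_le_succ (Submodule.finrank_le _))
  rw [this]
  exact hK

end compact

end Pool.Agent.V11187.TriangleInt
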