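import Mathlib

open MeasureTheory Set
open scoped MeasureTheory ENNReal Pointwise

namespace Pool.Agent.V11187.AreaA

abbrev E2 := EuclideanSpace ℝ (Fin 2)
abbrev E3 := EuclideanSpace ℝ (Fin 3)

/-- the vector product on `E3` -/
noncomputable def cr (x y : E3) : E3 :=
  !₂[x 1 * y 2 - x 2 * y 1, x 2 * y 0 - x 0 * y 2, x 0 * y 1 - x 1 * y 0]

theorem cr_sq (x y : E3) : ‖cr x y‖ ^ 2 = ‖x‖ ^ 2 * ‖y‖ ^ 2 - (inner ℝ x y) ^ 2 := by
  rw [EuclideanSpace.norm_sq_eq, EuclideanSpace.norm_sq_eq, EuclideanSpace.norm_sq_eq]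
  simp only [Fin.sum_univ_three, Real.norm_eq_abs, sq_abs, PiLp.inner_apply, cr]
  simp
  ring

theorem det_sq (x y : E2) : (x 0 * y 1 - x 1 * y 0) ^ 2 = ‖x‖ ^ 2 * ‖y‖ ^ 2 - (inner ℝ x y) ^ 2 := by
  rw [EuclideanSpace.norm_sq_eq, EuclideanSpace.norm_sq_eq]
  simp only [Fin.sum_univ_two, Real.norm_eq_abs, sq_abs, PiLp.inner_apply]
  simp
  ring

/-- Area formula for injective linear maps from the plane to space. -/
theorem haus_image (M : E2 →ₗ[ℝ] E3) (hM : Function.Injective M) (G : Set E2) :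
    μH[2] (M '' G) = ENNReal.ofReal
      ‖cr (M (EuclideanSpace.single 0 1)) (M (EuclideanSpace.single 1 1))‖ * μH[2] G := by
  have hfr : Module.finrank ℝ (LinearMap.range M) = 2 := by
    rw [LinearMap.finrank_range_of_inj hM]; simp
  let φ : (LinearMap.range M) ≃ₗᵢ[ℝ] E2 :=
    ((stdOrthonormalBasis ℝ (LinearMap.range M)).reindex (finCongr hfr)).repr
  let N : E2 →ₗ[ℝ] E2 := φ.toLinearEquiv.toLinearMap ∘ₗ M.rangeRestrict
  have hN : ∀ x, ((φ.symm (N x) : LinearMap.range M) : E3) = M x := by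
    intro x
    simp [N]
  let ψ : E2 → E3 := fun x => ((φ.symm x : LinearMap.range M) : E3)
  have hψ : Isometry ψ := isometry_subtype_coe.comp φ.symm.isometry
  have himg : M '' G = ψ '' (N '' G) := by
    rw [image_image]
    apply image_congr
    intro x _
    exact (hN x).symm
  have hdet : |LinearMap.det N| =
      ‖cr (M (EuclideanSpace.single 0 1)) (M (EuclideanSpace.single 1 1))‖ := by
    have h1 : LinearMap.det N = (N (EuclideanSpace.single 0 1)) 0 * (N (EuclideanSpace.single 1 1)) 1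
        - (N (EuclideanSpace.single 0 1)) 1 * (N (EuclideanSpace.single 1 1)) 0 := by
      rw [← LinearMap.det_toMatrix (EuclideanSpace.basisFun (Fin 2) ℝ).toBasis, Matrix.det_fin_two]
      simp [LinearMap.toMatrix_apply]
      ring
    have hin : ∀ x y, inner ℝ (N x) (N y) = (inner ℝ (M x) (M y) : ℝ) := by
      intro x y
      rw [← hN x, ← hN y]
      rw [← Submodule.coe_inner, LinearIsometryEquiv.inner_map_map]
    have hno : ∀ x, ‖N x‖ = ‖M x‖ := by
      intro x
      rw [← hN x, ← LinearIsometryEquiv.norm_map φ.symm (N x)]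
      rfl
    have h2 := det_sq (N (EuclideanSpace.single 0 1)) (N (EuclideanSpace.single 1 1))
    rw [← h1, hin, hno, hno, ← cr_sq] at h2
    rw [← abs_norm (cr _ _)]
    exact (sq_eq_sq_iff_abs_eq_abs _ _).mp h2
  have hfin : (2 : ℝ) = (Module.finrank ℝ E2 : ℝ) := by simp
  rw [himg, hψ.hausdorffMeasure_image (Or.inl (by norm_num)), ← hdet]
  rw [hfin]
  exact Measure.addHaar_image_linearMap _ N G

/-- the identification of `ℝ × ℝ` with `E2` -/
noncomputable def tw : (ℝ × ℝ) →ₗ[ℝ] E2 where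
  toFun p := !₂[p.1, p.2]
  map_add' p q := by ext i; fin_cases i <;> simp
  map_smul' c p := by ext i; fin_cases i <;> simp

theorem tw_bij : Function.Bijective tw := by
  constructor
  · intro p q h
    have h0 := congrArg (fun x : E2 => x 0) h
    have h1 := congrArg (fun x : E2 => x 1) h
    simp [tw] at h0 h1
    exact Prod.ext h0 h1
  · intro x
    refine ⟨(x 0, x 1), ?_⟩
    ext i; fin_cases i <;> simp [tw]

theorem exists_kap : ∃ κ : ℝ≥0∞, ∀ G : Set (ℝ × ℝ), μH[2] (tw '' G) = κ * volume G := by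
  let t : (ℝ × ℝ) ≃L[ℝ] E2 := (LinearEquiv.ofBijective tw tw_bij).toContinuousLinearEquiv
  have hfin : (2 : ℝ) = (Module.finrank ℝ E2 : ℝ) := by simp
  have hH : (μH[2] : Measure E2).IsAddHaarMeasure := by
    rw [hfin]; infer_instance
  have hν : ((μH[2] : Measure E2).map t.symm).IsAddHaarMeasure :=
    t.symm.isAddHaarMeasure_map (μH[2])
  obtain ⟨c, hc⟩ : ∃ c : NNReal, ((μH[2] : Measure E2).map t.symm) = c • (volume : Measure (ℝ × ℝ)) :=
    ⟨_, Measure.isAddLeftInvariant_eq_smul _ _⟩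
  refine ⟨c, fun G => ?_⟩
  have h1 : ((μH[2] : Measure E2).map t.symm) G = μH[2] (t.symm ⁻¹' G) := by
    have := (t.symm.toHomeomorph.toMeasurableEquiv).map_apply (μ := (μH[2] : Measure E2)) G
    exact this
  have h2 : t.symm ⁻¹' G = tw '' G := by
    rw [← t.image_eq_preimage_symm]
    rfl
  rw [← h2, ← h1, hc]
  rw [Measure.smul_apply, ENNReal.smul_def, smul_eq_mul]

/-- normalising constant -/
noncomputable def kap : ℝ≥0∞ := exists_kap.choose

theorem kap_spec (G : Set (ℝ × ℝ)) : μH[2] (tw '' G) = kap * volume G := exists_kap.choose_spec G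

theorem haus_face (q m1 m2 : E3)
    (hli : Function.Injective (fun p : ℝ × ℝ => p.1 • m1 + p.2 • m2)) (G : Set (ℝ × ℝ)) :
    μH[2] ((fun p : ℝ × ℝ => q + (p.1 • m1 + p.2 • m2)) '' G) =
      ENNReal.ofReal ‖cr m1 m2‖ * (kap * volume G) := by
  let M : E2 →ₗ[ℝ] E3 :=
    { toFun := fun x => x 0 • m1 + x 1 • m2
      map_add' := by intro x y; simp [add_smul]; abel
      map_smul' := by intro c x; simp [mul_smul] }
  have hM : Function.Injective M := by
    intro x y h
    have h' : (fun p : ℝ × ℝ => p.1 • m1 + p.2 • m2) (x 0, x 1)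
      = (fun p : ℝ × ℝ => p.1 • m1 + p.2 • m2) (y 0, y 1) := h
    have h2 := hli h'
    rw [Prod.mk.injEq] at h2
    ext i
    fin_cases i
    · exact h2.1
    · exact h2.2
  have h1 : (fun p : ℝ × ℝ => q + (p.1 • m1 + p.2 • m2)) '' G
      = (fun x => q + x) '' (M '' (tw '' G)) := by
    rw [image_image, image_image]
    apply image_congr
    intro p _
    simp [M, tw]
  have h2 : μH[2] ((fun x => q + x) '' (M '' (tw '' G))) = μH[2] (M '' (tw '' G)) :=
    (isometry_add_left q).hausdorffMeasure_image (Or.inl (by norm_num)) _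
  rw [h1, h2, haus_image M hM, kap_spec]
  simp [M]

end Pool.Agent.V11187.AreaA
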