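import Mathlib
import Pool.Agent.V11187.AreaA

open MeasureTheory Set
open scoped MeasureTheory ENNReal Pointwise

namespace Pool.Agent.V11187.AreaB

open Pool.Agent.V11187.AreaA

theorem int_lin (a b c : ℝ) : ∫ x in a..b, (c - x) = c * (b - a) - (b ^ 2 - a ^ 2) / 2 := by
  rw [intervalIntegral.integral_sub intervalIntegrable_const
    (Continuous.intervalIntegrable (by fun_prop) _ _), integral_id,
    intervalIntegral.integral_const, smul_eq_mul]
  ring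

theorem region_le (G : Set (ℝ × ℝ)) (hG : MeasurableSet G) (a b : ℝ) (hab : a ≤ b) (f g : ℝ → ℝ)
    (hf : Continuous f) (hg : Continuous g) (hfg : ∀ x ∈ Icc a b, f x ≤ g x)
    (h : ∀ p ∈ G, p.1 ∈ Icc a b ∧ p.2 ∈ Icc (f p.1) (g p.1)) :
    volume G ≤ ENNReal.ofReal (∫ x in a..b, (g x - f x)) := by
  rw [intervalIntegral.integral_of_le hab, ← integral_Icc_eq_integral_Ioc,
    ofReal_integral_eq_lintegral_ofReal]
  · rw [Measure.volume_eq_prod, Measure.prod_apply hG, ← lintegral_indicator measurableSet_Icc]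
    apply lintegral_mono
    intro x
    by_cases hx : x ∈ Icc a b
    · rw [indicator_of_mem hx, ← Real.volume_Icc]
      apply measure_mono
      intro y hy
      exact (h _ hy).2
    · rw [indicator_of_notMem hx]
      have : Prod.mk x ⁻¹' G = ∅ := by
        ext y
        simp only [mem_preimage, mem_empty_iff_false, iff_false]
        intro hy
        exact hx (h _ hy).1
      show volume (Prod.mk x ⁻¹' G) ≤ 0
      rw [this]; simp
  · exact ((hg.sub hf).continuousOn).integrableOn_Icc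
  · rw [Filter.EventuallyLE, ae_restrict_iff' measurableSet_Icc]
    exact Filter.Eventually.of_forall fun x hx => sub_nonneg.mpr (hfg x hx)

/-- the parameter domain of a hexagonal face -/
def hexD : Set (ℝ × ℝ) :=
  {p | 0 ≤ p.1 ∧ p.1 ≤ 2 ∧ 0 ≤ p.2 ∧ p.2 ≤ 2 ∧ 1 ≤ p.1 + p.2 ∧ p.1 + p.2 ≤ 3}

theorem vol_hexD : volume hexD ≤ ENNReal.ofReal 3 := by
  have h1 : hexD ⊆ {p : ℝ × ℝ | 0 ≤ p.1 ∧ p.1 ≤ 1 ∧ 1 - p.1 ≤ p.2 ∧ p.2 ≤ 2} ∪
      {p : ℝ × ℝ | 1 ≤ p.1 ∧ p.1 ≤ 2 ∧ 0 ≤ p.2 ∧ p.2 ≤ 3 - p.1} := by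
    rintro p ⟨h1, h2, h3, h4, h5, h6⟩
    rcases le_total p.1 1 with h | h
    · left; exact ⟨h1, h, by linarith, h4⟩
    · right; exact ⟨h, h2, h3, by linarith⟩
  have hA : volume {p : ℝ × ℝ | 0 ≤ p.1 ∧ p.1 ≤ 1 ∧ 1 - p.1 ≤ p.2 ∧ p.2 ≤ 2}
      ≤ ENNReal.ofReal (3/2) := by
    have hm : MeasurableSet {p : ℝ × ℝ | 0 ≤ p.1 ∧ p.1 ≤ 1 ∧ 1 - p.1 ≤ p.2 ∧ p.2 ≤ 2} := by
      measurability
    refine (region_le _ hm 0 1 (by norm_num) (fun x => 1 - x) (fun _ => 2) (by fun_prop)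
      (by fun_prop) ?_ ?_).trans (le_of_eq ?_)
    · intro x hx; simp only [mem_Icc] at hx; linarith [hx.1]
    · rintro p ⟨h1, h2, h3, h4⟩
      exact ⟨⟨h1, h2⟩, ⟨h3, h4⟩⟩
    · congr 1
      have : ∀ x : ℝ, (2:ℝ) - (1 - x) = 1 - (-1) * x := by intro x; ring
      rw [show (∫ x in (0:ℝ)..1, ((2:ℝ) - (1 - x))) = ∫ x in (0:ℝ)..1, (2 - (1 - x)) from rfl]
      rw [intervalIntegral.integral_sub intervalIntegrable_const
        (Continuous.intervalIntegrable (by fun_prop) _ _), int_lin,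
        intervalIntegral.integral_const, smul_eq_mul]
      norm_num
  have hB : volume {p : ℝ × ℝ | 1 ≤ p.1 ∧ p.1 ≤ 2 ∧ 0 ≤ p.2 ∧ p.2 ≤ 3 - p.1}
      ≤ ENNReal.ofReal (3/2) := by
    have hm : MeasurableSet {p : ℝ × ℝ | 1 ≤ p.1 ∧ p.1 ≤ 2 ∧ 0 ≤ p.2 ∧ p.2 ≤ 3 - p.1} := by
      measurability
    refine (region_le _ hm 1 2 (by norm_num) (fun _ => 0) (fun x => 3 - x) (by fun_prop)
      (by fun_prop) ?_ ?_).trans (le_of_eq ?_)
    · intro x hx; simp only [mem_Icc] at hx; linarith [hx.2]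
    · rintro p ⟨h1, h2, h3, h4⟩
      exact ⟨⟨h1, h2⟩, ⟨h3, h4⟩⟩
    · congr 1
      simp only [sub_zero]
      rw [int_lin]
      norm_num
  calc volume hexD ≤ _ := measure_mono h1
    _ ≤ _ := measure_union_le _ _
    _ ≤ ENNReal.ofReal (3/2) + ENNReal.ofReal (3/2) := add_le_add hA hB
    _ = ENNReal.ofReal 3 := by rw [← ENNReal.ofReal_add (by norm_num) (by norm_num)]; norm_num

/-- the parameter domain of a triangular face -/
def triD (R : ℝ) : Set (ℝ × ℝ) := {p | 0 < p.1 ∧ 0 < p.2 ∧ p.1 + p.2 < R}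

theorem vol_triD (R : ℝ) (hR : 0 ≤ R) : ENNReal.ofReal (R ^ 2 / 2) ≤ volume (triD R) := by
  have h1 : regionBetween (fun _ => (0:ℝ)) (fun x => R - x) (Ioo 0 R) ⊆ triD R := by
    rintro p ⟨⟨h1, h2⟩, ⟨h3, h4⟩⟩
    show 0 < p.1 ∧ 0 < p.2 ∧ p.1 + p.2 < R
    refine ⟨h1, h3, ?_⟩
    simp only at h4
    linarith
  refine le_trans (le_of_eq ?_) (measure_mono h1)
  rw [Measure.volume_eq_prod, volume_regionBetween_eq_integral]
  · congr 1
    rw [← integral_Ioc_eq_integral_Ioo, ← intervalIntegral.integral_of_le hR]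
    simp only [Pi.sub_apply, sub_zero]
    rw [int_lin]
    ring
  · exact integrableOn_const (by simp)
  · exact ((continuous_const.sub continuous_id).continuousOn.integrableOn_Icc).mono_set
      Ioo_subset_Icc_self
  · exact measurableSet_Ioo
  · intro x hx; rw [mem_Ioo] at hx; show (0:ℝ) ≤ R - x; linarith [hx.2]

/-- the parameter domain of a square face -/
def sqD : Set (ℝ × ℝ) := Icc (-1:ℝ) 1 ×ˢ Icc (-1:ℝ) 1

theorem vol_sqD : volume sqD = ENNReal.ofReal 4 := by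
  rw [sqD, Measure.volume_eq_prod, Measure.prod_prod, Real.volume_Icc, ← ENNReal.ofReal_mul]
  · norm_num
  · norm_num

theorem hlawka {E : Type*} [NormedAddCommGroup E] [InnerProductSpace ℝ E] (x y z : E) :
    ‖x + y‖ + ‖y + z‖ + ‖z + x‖ ≤ ‖x‖ + ‖y‖ + ‖z‖ + ‖x + y + z‖ := by
  have hsq : ‖x + y‖ ^ 2 + ‖y + z‖ ^ 2 + ‖z + x‖ ^ 2 =
      ‖x‖ ^ 2 + ‖y‖ ^ 2 + ‖z‖ ^ 2 + ‖x + y + z‖ ^ 2 := by
    rw [norm_add_sq_real (x + y) z, norm_add_sq_real x y, norm_add_sq_real y z,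
      norm_add_sq_real z x, inner_add_left, real_inner_comm x z]
    ring
  have h1 : ‖x + y‖ ≤ ‖x‖ + ‖y‖ := norm_add_le _ _
  have h2 : ‖y + z‖ ≤ ‖y‖ + ‖z‖ := norm_add_le _ _
  have h3 : ‖z + x‖ ≤ ‖z‖ + ‖x‖ := norm_add_le _ _
  have h4 : ‖x + y‖ ≤ ‖z‖ + ‖x + y + z‖ := by
    have := norm_sub_le (x + y + z) z
    rw [add_sub_cancel_right] at this
    linarith
  have h5 : ‖y + z‖ ≤ ‖x‖ + ‖x + y + z‖ := by
    have := norm_sub_le (x + y + z) x
    rw [show x + y + z - x = y + z by abel] at this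
    linarith
  have h6 : ‖z + x‖ ≤ ‖y‖ + ‖x + y + z‖ := by
    have := norm_sub_le (x + y + z) y
    rw [show x + y + z - y = z + x by abel] at this
    linarith
  set a := ‖x‖
  set b := ‖y‖
  set c := ‖z‖
  set s := ‖x + y + z‖
  set p := ‖x + y‖
  set q := ‖y + z‖
  set r := ‖z + x‖
  have ha : 0 ≤ a := norm_nonneg _
  have hb : 0 ≤ b := norm_nonneg _
  have hc : 0 ≤ c := norm_nonneg _
  have hs : 0 ≤ s := norm_nonneg _
  have key : (a + b + c + s - p - q - r) * (a + b + c + s) =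
      (a + b - p) * (c + s - p) + (b + c - q) * (a + s - q) + (c + a - r) * (b + s - r) := by
    linear_combination -hsq
  have k1 : 0 ≤ (a + b - p) * (c + s - p) := mul_nonneg (by linarith) (by linarith)
  have k2 : 0 ≤ (b + c - q) * (a + s - q) := mul_nonneg (by linarith) (by linarith)
  have k3 : 0 ≤ (c + a - r) * (b + s - r) := mul_nonneg (by linarith) (by linarith)
  by_contra hcon
  push Not at hcon
  have hT : 0 ≤ a + b + c + s := by linarith
  rcases hT.lt_or_eq with hT | hT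
  · nlinarith
  · have : a = 0 := by linarith
    have : b = 0 := by linarith
    have : c = 0 := by linarith
    have : s = 0 := by linarith
    linarith

theorem hlawka' (b1 b2 b3 : E3) :
    2 * (‖b1‖ + ‖b2‖ + ‖b3‖) ≤ ‖b1 + b2 + b3‖ + ‖-b1 + b2 + b3‖ + ‖b1 - b2 + b3‖ + ‖b1 + b2 - b3‖ := by
  have h := hlawka (-b1 + b2 + b3) (b1 - b2 + b3) (b1 + b2 - b3)
  rw [show (-b1 + b2 + b3) + (b1 - b2 + b3) = (2:ℝ) • b3 by rw [two_smul]; abel,
    show (b1 - b2 + b3) + (b1 + b2 - b3) = (2:ℝ) • b1 by rw [two_smul]; abel,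
    show (b1 + b2 - b3) + (-b1 + b2 + b3) = (2:ℝ) • b2 by rw [two_smul]; abel,
    show (2:ℝ) • b3 + (b1 + b2 - b3) = b1 + b2 + b3 by rw [two_smul]; abel,
    norm_smul, norm_smul, norm_smul] at h
  simp only [Real.norm_ofNat] at h
  linarith

end Pool.Agent.V11187.AreaB
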