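import Mathlib
import Pool.Agent.V11187.AreaB

open MeasureTheory Set
open scoped MeasureTheory ENNReal Pointwise

namespace Pool.Agent.V11187.AreaC

open Pool.Agent.V11187.AreaA Pool.Agent.V11187.AreaB

/-- linear independence of three vectors -/
def LI (u v w : E3) : Prop := ∀ x y z : ℝ, x • u + y • v + z • w = 0 → x = 0 ∧ y = 0 ∧ z = 0

/-- signs -/
def sg (b : Bool) : ℝ := if b then 1 else -1

theorem sg_ne (b : Bool) : sg b ≠ 0 := by cases b <;> simp [sg]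
theorem sg_mul_self (b : Bool) : sg b * sg b = 1 := by cases b <;> simp [sg]
theorem exists_sg (x : ℝ) : ∃ b, x = sg b * |x| := by
  rcases le_total 0 x with h | h
  · exact ⟨true, by rw [abs_of_nonneg h]; simp [sg]⟩
  · exact ⟨false, by rw [abs_of_nonpos h]; simp [sg]⟩

theorem LI.sgn {u v w : E3} (h : LI u v w) (s0 s1 s2 : Bool) :
    LI (sg s0 • u) (sg s1 • v) (sg s2 • w) := by
  intro x y z hxyz
  rw [smul_smul, smul_smul, smul_smul] at hxyz
  obtain ⟨h0, h1, h2⟩ := h _ _ _ hxyz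
  refine ⟨?_, ?_, ?_⟩
  · exact (mul_eq_zero.mp h0).resolve_right (sg_ne _)
  · exact (mul_eq_zero.mp h1).resolve_right (sg_ne _)
  · exact (mul_eq_zero.mp h2).resolve_right (sg_ne _)

theorem LI.rot {u v w : E3} (h : LI u v w) : LI v w u := by
  intro x y z hxyz
  obtain ⟨h0, h1, h2⟩ := h z x y (by rw [← hxyz]; abel)
  exact ⟨h1, h2, h0⟩

theorem inj_hex {u v w : E3} (h : LI u v w) :
    Function.Injective (fun p : ℝ × ℝ => p.1 • (v - u) + p.2 • (w - u)) := by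
  intro p q hpq
  have h1 : (-(p.1 - q.1) - (p.2 - q.2)) • u + (p.1 - q.1) • v + (p.2 - q.2) • w = 0 := by
    have h2 : (p.1 • (v - u) + p.2 • (w - u)) - (q.1 • (v - u) + q.2 • (w - u)) = 0 :=
      sub_eq_zero.mpr hpq
    rw [← h2]
    module
  obtain ⟨_, h3, h4⟩ := h _ _ _ h1
  exact Prod.ext (sub_eq_zero.mp h3) (sub_eq_zero.mp h4)

theorem inj_sq {u v w : E3} (h : LI u v w) :
    Function.Injective (fun p : ℝ × ℝ => p.1 • ((1/2:ℝ) • (v + w)) + p.2 • ((1/2:ℝ) • (v - w))) := by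
  intro p q hpq
  have h1 : (0:ℝ) • u + ((p.1 - q.1) / 2 + (p.2 - q.2) / 2) • v
      + ((p.1 - q.1) / 2 - (p.2 - q.2) / 2) • w = 0 := by
    have h2 : (p.1 • ((1/2:ℝ) • (v + w)) + p.2 • ((1/2:ℝ) • (v - w)))
      - (q.1 • ((1/2:ℝ) • (v + w)) + q.2 • ((1/2:ℝ) • (v - w))) = 0 :=
      sub_eq_zero.mpr hpq
    rw [← h2]
    module
  obtain ⟨_, h3, h4⟩ := h _ _ _ h1
  exact Prod.ext (by linarith) (by linarith)

/-- a square face -/
def SqImg (c u v w : E3) : Set E3 :=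
  (fun p : ℝ × ℝ => (c + (2:ℝ) • u) + (p.1 • ((1/2:ℝ) • (v + w)) + p.2 • ((1/2:ℝ) • (v - w)))) '' sqD
/-- a hexagonal face -/
def HexImg (c u v w : E3) : Set E3 :=
  (fun p : ℝ × ℝ => (c + (3:ℝ) • u) + (p.1 • (v - u) + p.2 • (w - u))) '' hexD
/-- a triangular face -/
def TriImg (R : ℝ) (c u v w : E3) : Set E3 :=
  (fun p : ℝ × ℝ => (c + R • u) + (p.1 • (v - u) + p.2 • (w - u))) '' triD R

theorem cr_sq_face (v w : E3) : cr ((1/2:ℝ) • (v + w)) ((1/2:ℝ) • (v - w)) = (-(1/2):ℝ) • cr v w := by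
  ext i; fin_cases i <;> simp [cr] <;> ring

theorem cr_hex_face (u v w : E3) : cr (v - u) (w - u) = cr v w + cr w u + cr u v := by
  ext i; fin_cases i <;> simp [cr] <;> ring

theorem cr_smul (s t : ℝ) (v w : E3) : cr (s • v) (t • w) = (s * t) • cr v w := by
  ext i; fin_cases i <;> simp [cr] <;> ring

theorem haus_sq (c u v w : E3) (h : LI u v w) :
    μH[2] (SqImg c u v w) = kap * ENNReal.ofReal (2 * ‖cr v w‖) := by
  rw [SqImg, haus_face _ _ _ (inj_sq h), vol_sqD, cr_sq_face, norm_smul]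
  rw [mul_comm (ENNReal.ofReal _), mul_assoc, ← ENNReal.ofReal_mul (by norm_num)]
  congr 2
  norm_num
  ring

theorem haus_hex (c u v w : E3) (h : LI u v w) :
    μH[2] (HexImg c u v w) ≤ kap * ENNReal.ofReal (3 * ‖cr v w + cr w u + cr u v‖) := by
  rw [HexImg, haus_face _ _ _ (inj_hex h), cr_hex_face]
  rw [mul_comm (ENNReal.ofReal _), mul_assoc]
  refine mul_le_mul_right ?_ _
  rw [ENNReal.ofReal_mul (by norm_num)]
  exact mul_le_mul_left vol_hexD _

theorem haus_tri (R : ℝ) (hR : 0 ≤ R) (c u v w : E3) (h : LI u v w) :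
    kap * ENNReal.ofReal (R ^ 2 / 2 * ‖cr v w + cr w u + cr u v‖) ≤ μH[2] (TriImg R c u v w) := by
  rw [TriImg, haus_face _ _ _ (inj_hex h), cr_hex_face]
  rw [mul_comm (ENNReal.ofReal _), mul_assoc]
  refine mul_le_mul_right ?_ _
  rw [ENNReal.ofReal_mul (by positivity)]
  exact mul_le_mul_left (vol_triD R hR) _

end Pool.Agent.V11187.AreaC
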