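import Mathlib
import Pool.Agent.V11187.AreaC

open MeasureTheory Set
open scoped MeasureTheory ENNReal Pointwise

namespace Pool.Agent.V11187.AreaD

open Pool.Agent.V11187.AreaA Pool.Agent.V11187.AreaB Pool.Agent.V11187.AreaC

/-- the octahedron -/
def octS (R : ℝ) : Set E3 := {x | |x 0| + |x 1| + |x 2| ≤ R}
/-- the truncated octahedron -/
def truS : Set E3 := {x | |x 0| ≤ 2 ∧ |x 1| ≤ 2 ∧ |x 2| ≤ 2 ∧ |x 0| + |x 1| + |x 2| ≤ 3}

theorem cont_coord (i : Fin 3) : Continuous (fun x : E3 => x i) := by fun_prop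
theorem cont_sum : Continuous (fun x : E3 => |x 0| + |x 1| + |x 2|) := by
  fun_prop

theorem octS_closed (R : ℝ) : IsClosed (octS R) := isClosed_le cont_sum continuous_const

theorem truS_closed : IsClosed truS :=
  (isClosed_le (cont_coord 0).abs continuous_const).inter
    ((isClosed_le (cont_coord 1).abs continuous_const).inter
      ((isClosed_le (cont_coord 2).abs continuous_const).inter
        (isClosed_le cont_sum continuous_const)))

theorem truS_frontier (x : E3) (hx : x ∈ frontier truS) :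
    x ∈ truS ∧ (|x 0| = 2 ∨ |x 1| = 2 ∨ |x 2| = 2 ∨ |x 0| + |x 1| + |x 2| = 3) := by
  have hx1 : x ∈ truS := truS_closed.frontier_subset hx
  refine ⟨hx1, ?_⟩
  by_contra hcon
  push Not at hcon
  obtain ⟨h0, h1, h2, h3⟩ := hcon
  obtain ⟨k0, k1, k2, k3⟩ := hx1
  have hop : IsOpen ({x : E3 | |x 0| < 2} ∩ ({x : E3 | |x 1| < 2} ∩ ({x : E3 | |x 2| < 2} ∩
      {x : E3 | |x 0| + |x 1| + |x 2| < 3}))) :=
    (isOpen_lt (cont_coord 0).abs continuous_const).inter
    ((isOpen_lt (cont_coord 1).abs continuous_const).inter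
      ((isOpen_lt (cont_coord 2).abs continuous_const).inter
        (isOpen_lt cont_sum continuous_const)))
  have hsub : ({x : E3 | |x 0| < 2} ∩ ({x : E3 | |x 1| < 2} ∩ ({x : E3 | |x 2| < 2} ∩
      {x : E3 | |x 0| + |x 1| + |x 2| < 3}))) ⊆ truS := by
    rintro y ⟨j0, j1, j2, j3⟩
    exact ⟨le_of_lt j0, le_of_lt j1, le_of_lt j2, le_of_lt j3⟩
  have hin : x ∈ interior truS := interior_maximal hsub hop
    ⟨lt_of_le_of_ne k0 h0, lt_of_le_of_ne k1 h1, lt_of_le_of_ne k2 h2, lt_of_le_of_ne k3 h3⟩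
  exact hx.2 hin

theorem octS_frontier (R : ℝ) (hR : 0 < R) (x : E3) (hx : |x 0| + |x 1| + |x 2| = R) :
    x ∈ frontier (octS R) := by
  rw [(octS_closed R).frontier_eq]
  refine ⟨le_of_eq hx, fun hin => ?_⟩
  have hc : Continuous (fun t : ℝ => t • x) := by fun_prop
  have h1 : (fun t : ℝ => t • x) ⁻¹' (interior (octS R)) ∈ nhds (1:ℝ) := by
    apply (isOpen_interior.preimage hc).mem_nhds
    simpa using hin
  obtain ⟨δ, hδ, hball⟩ := Metric.mem_nhds_iff.mp h1
  have h2 : (1 + δ / 2) ∈ Metric.ball (1:ℝ) δ := by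
    rw [Metric.mem_ball, Real.dist_eq, show (1 + δ / 2) - 1 = δ / 2 by ring, abs_of_pos (by linarith)]
    linarith
  have h3 : (1 + δ / 2) • x ∈ octS R := interior_subset (hball h2)
  have h4 : |(1 + δ / 2) * x 0| + |(1 + δ / 2) * x 1| + |(1 + δ / 2) * x 2| ≤ R := h3
  rw [abs_mul, abs_mul, abs_mul, ← mul_add, ← mul_add, hx, abs_of_pos (by linarith)] at h4
  nlinarith

/-- expansion of a vector -/
theorem expand (x : E3) : x = x 0 • EuclideanSpace.single 0 (1:ℝ) + x 1 • EuclideanSpace.single 1 (1:ℝ)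
    + x 2 • EuclideanSpace.single 2 (1:ℝ) := by
  ext i; fin_cases i <;> simp

section
variable (A : E3 ≃ᵃ[ℝ] E3)

/-- images of the basis vectors -/
noncomputable def av (i : Fin 3) : E3 := A.linear (EuclideanSpace.single i 1)

theorem A_apply (x : E3) : A x = A 0 + (x 0 • av A 0 + x 1 • av A 1 + x 2 • av A 2) := by
  have h1 : A x = A.linear x + A 0 := by
    have := A.toAffineMap.map_vadd 0 x
    simpa using this
  rw [h1, add_comm]
  congr 1
  conv_lhs => rw [expand x]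
  simp only [map_add, map_smul, av]

theorem A_LI : LI (av A 0) (av A 1) (av A 2) := by
  intro x y z h
  have h1 : A.linear (x • EuclideanSpace.single 0 (1:ℝ) + y • EuclideanSpace.single 1 (1:ℝ)
    + z • EuclideanSpace.single 2 (1:ℝ)) = 0 := by
    simp only [map_add, map_smul]
    exact h
  have h2 := (LinearEquiv.map_eq_zero_iff _).mp h1
  have e0 := congrArg (fun v : E3 => v 0) h2
  have e1 := congrArg (fun v : E3 => v 1) h2
  have e2 := congrArg (fun v : E3 => v 2) h2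
  simp at e0 e1 e2
  exact ⟨e0, e1, e2⟩

theorem A_frontier (S : Set E3) : frontier (A '' S) = A '' frontier S := by
  exact ((AffineEquiv.toContinuousAffineEquiv A).toHomeomorph.image_frontier S).symm

/-- The eight hexagons -/
noncomputable def HexA (s : Bool × Bool × Bool) : Set E3 :=
  HexImg (A 0) (sg s.1 • av A 0) (sg s.2.1 • av A 1) (sg s.2.2 • av A 2)
/-- The eight triangles -/
noncomputable def TriA (R : ℝ) (s : Bool × Bool × Bool) : Set E3 :=
  TriImg R (A 0) (sg s.1 • av A 0) (sg s.2.1 • av A 1) (sg s.2.2 • av A 2)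
/-- The six squares -/
noncomputable def SqA (s : Bool) : Set E3 :=
  SqImg (A 0) (sg s • av A 0) (av A 1) (av A 2) ∪ SqImg (A 0) (sg s • av A 1) (av A 2) (av A 0) ∪
    SqImg (A 0) (sg s • av A 2) (av A 0) (av A 1)

theorem mem_sq (c u v w : E3) (s : Bool) (y z : ℝ) (hyz : |y| + |z| ≤ 1) :
    c + ((sg s * 2) • u + y • v + z • w) ∈ SqImg c (sg s • u) v w := by
  refine ⟨(y + z, y - z), ?_, ?_⟩
  · have h1 : |y + z| ≤ 1 := (abs_add_le _ _).trans hyz
    have h2 : |y - z| ≤ 1 := (abs_sub _ _).trans hyz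
    exact ⟨abs_le.mp h1, abs_le.mp h2⟩
  · simp only
    module

theorem truS_cover : A '' frontier truS ⊆ (⋃ s, SqA A s) ∪ ⋃ s, HexA A s := by
  rintro _ ⟨x, hx, rfl⟩
  obtain ⟨⟨k0, k1, k2, k3⟩, h⟩ := truS_frontier x hx
  obtain ⟨s0, hs0⟩ := exists_sg (x 0)
  obtain ⟨s1, hs1⟩ := exists_sg (x 1)
  obtain ⟨s2, hs2⟩ := exists_sg (x 2)
  rw [A_apply]
  rcases h with h | h | h | h
  · left
    rw [h] at hs0
    refine mem_iUnion.mpr ⟨s0, Or.inl (Or.inl ?_)⟩
    rw [hs0]
    exact mem_sq _ _ _ _ _ _ _ (by linarith)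
  · left
    rw [h] at hs1
    refine mem_iUnion.mpr ⟨s1, Or.inl (Or.inr ?_)⟩
    have := mem_sq (A 0) (av A 1) (av A 2) (av A 0) s1 (x 2) (x 0) (by linarith)
    rw [← hs1] at this
    rw [show x 0 • av A 0 + x 1 • av A 1 + x 2 • av A 2 =
      x 1 • av A 1 + x 2 • av A 2 + x 0 • av A 0 by abel]
    exact this
  · left
    rw [h] at hs2
    refine mem_iUnion.mpr ⟨s2, Or.inr ?_⟩
    have := mem_sq (A 0) (av A 2) (av A 0) (av A 1) s2 (x 0) (x 1) (by linarith)
    rw [← hs2] at this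
    rw [show x 0 • av A 0 + x 1 • av A 1 + x 2 • av A 2 =
      x 2 • av A 2 + x 0 • av A 0 + x 1 • av A 1 by abel]
    exact this
  · right
    refine mem_iUnion.mpr ⟨(s0, s1, s2), (|x 1|, |x 2|), ?_, ?_⟩
    · refine ⟨abs_nonneg _, k1, abs_nonneg _, k2, ?_, ?_⟩
      · show 1 ≤ |x 1| + |x 2|
        linarith
      · show |x 1| + |x 2| ≤ 3
        linarith [abs_nonneg (x 0)]
    · simp only
      have e0 : |x 0| = 3 - |x 1| - |x 2| := by linarith
      rw [e0] at hs0
      generalize |x 1| = y1 at *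
      generalize |x 2| = y2 at *
      rw [hs0, hs1, hs2]
      module

theorem tri_subset (R : ℝ) (hR : 0 < R) (s : Bool × Bool × Bool) :
    TriA A R s ⊆ A '' frontier (octS R) := by
  rintro _ ⟨p, ⟨h1, h2, h3⟩, rfl⟩
  refine ⟨!₂[sg s.1 * (R - p.1 - p.2), sg s.2.1 * p.1, sg s.2.2 * p.2], ?_, ?_⟩
  · apply octS_frontier R hR
    have hs : ∀ b, |sg b| = 1 := by intro b; cases b <;> simp [sg]
    simp [abs_mul, hs]
    rw [abs_of_pos h1, abs_of_pos h2, abs_of_pos (by linarith)]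
    ring
  · rw [A_apply]
    simp
    module

theorem tri_disj (R : ℝ) : Pairwise (Function.onFun Disjoint (TriA A R)) := by
  intro s t hst
  rw [Function.onFun, Set.disjoint_left]
  rintro _ ⟨p, ⟨h1, h2, h3⟩, rfl⟩ ⟨q, ⟨k1, k2, k3⟩, hq⟩
  apply hst
  have hz : (sg t.1 * (R - q.1 - q.2) - sg s.1 * (R - p.1 - p.2)) • av A 0 +
      (sg t.2.1 * q.1 - sg s.2.1 * p.1) • av A 1 + (sg t.2.2 * q.2 - sg s.2.2 * p.2) • av A 2 = 0 := by
    rw [← sub_eq_zero] at hq
    rw [← hq]
    module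
  obtain ⟨e0, e1, e2⟩ := A_LI A _ _ _ hz
  have key : ∀ (a b : Bool) (x y : ℝ), 0 < x → 0 < y → sg a * x - sg b * y = 0 → b = a := by
    intro a b x y hx hy h
    cases a <;> cases b <;> simp [sg] at h ⊢ <;> linarith
  have f0 := key _ _ _ _ (by linarith) (by linarith) e0
  have f1 := key _ _ _ _ k1 h1 e1
  have f2 := key _ _ _ _ k2 h2 e2
  exact Prod.ext f0 (Prod.ext f1 f2)

theorem tri_meas (R : ℝ) (s : Bool × Bool × Bool) : MeasurableSet (TriA A R s) := by
  rw [TriA, TriImg]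
  apply MeasurableSet.image_of_continuousOn_injOn
  · have : IsOpen (triD R) :=
      (isOpen_lt continuous_const continuous_fst).inter
        ((isOpen_lt continuous_const continuous_snd).inter
          (isOpen_lt (continuous_fst.add continuous_snd) continuous_const))
    exact this.measurableSet
  · exact Continuous.continuousOn (by fun_prop)
  · intro p _ q _ hpq
    exact inj_hex ((A_LI A).sgn s.1 s.2.1 s.2.2) (add_left_cancel hpq)

/-- the facet vector attached to a sign pattern -/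
noncomputable def fv (s : Bool × Bool × Bool) : ℝ :=
  ‖cr (sg s.2.1 • av A 1) (sg s.2.2 • av A 2) + cr (sg s.2.2 • av A 2) (sg s.1 • av A 0)
    + cr (sg s.1 • av A 0) (sg s.2.1 • av A 1)‖

theorem sum_fv : 4 * (‖cr (av A 1) (av A 2)‖ + ‖cr (av A 2) (av A 0)‖ + ‖cr (av A 0) (av A 1)‖) ≤
    ∑ s, fv A s := by
  have h := hlawka' (cr (av A 1) (av A 2)) (cr (av A 2) (av A 0)) (cr (av A 0) (av A 1))
  simp only [Fintype.sum_prod_type, Fintype.sum_bool, fv, cr_smul]
  simp only [sg, if_true, Bool.false_eq_true, if_false]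
  set b0 := cr (av A 1) (av A 2)
  set b1 := cr (av A 2) (av A 0)
  set b2 := cr (av A 0) (av A 1)
  have n1 : ‖b0 + -b1 + -b2‖ = ‖-b0 + b1 + b2‖ := by rw [← norm_neg]; congr 1; abel
  have n2 : ‖-b0 + b1 + -b2‖ = ‖b0 - b1 + b2‖ := by rw [← norm_neg]; congr 1; abel
  have n3 : ‖-b0 + -b1 + b2‖ = ‖b0 + b1 - b2‖ := by rw [← norm_neg]; congr 1; abel
  norm_num
  linarith

end

end Pool.Agent.V11187.AreaD
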