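import Mathlib
import Pool.Agent.V11187.AreaD

open MeasureTheory Set
open scoped MeasureTheory ENNReal Pointwise

namespace Pool.Agent.V11187.AreaE

open Pool.Agent.V11187.AreaA Pool.Agent.V11187.AreaB Pool.Agent.V11187.AreaC
open Pool.Agent.V11187.AreaD

theorem LI.sgn1 {u v w : E3} (h : LI u v w) (s : Bool) : LI (sg s • u) v w := by
  have := h.sgn s true true
  simpa [sg] using this

section
variable (A : E3 ≃ᵃ[ℝ] E3)

theorem haus_SqA (s : Bool) : μH[2] (SqA A s) ≤ kap * ENNReal.ofReal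
    (2 * (‖cr (av A 1) (av A 2)‖ + ‖cr (av A 2) (av A 0)‖ + ‖cr (av A 0) (av A 1)‖)) := by
  have hL := A_LI A
  have h0 := haus_sq (A 0) _ _ _ (LI.sgn1 hL s)
  have h1 := haus_sq (A 0) _ _ _ (LI.sgn1 hL.rot s)
  have h2 := haus_sq (A 0) _ _ _ (LI.sgn1 hL.rot.rot s)
  calc μH[2] (SqA A s) ≤ _ := measure_union_le _ _
    _ ≤ _ := add_le_add (measure_union_le _ _) le_rfl
    _ = _ := by
      rw [h0, h1, h2, ← mul_add, ← mul_add, ← ENNReal.ofReal_add (by positivity) (by positivity),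
        ← ENNReal.ofReal_add (by positivity) (by positivity)]
      congr 2
      ring

theorem fv_nonneg (s : Bool × Bool × Bool) : 0 ≤ fv A s := norm_nonneg _

theorem surf_K : μH[2] (frontier (A '' truS)) ≤ kap * ENNReal.ofReal
    (4 * (‖cr (av A 1) (av A 2)‖ + ‖cr (av A 2) (av A 0)‖ + ‖cr (av A 0) (av A 1)‖)
      + 3 * ∑ s, fv A s) := by
  rw [A_frontier]
  calc μH[2] (A '' frontier truS) ≤ _ := measure_mono (truS_cover A)
    _ ≤ _ := measure_union_le _ _
    _ ≤ (∑ s, μH[2] (SqA A s)) + ∑ s, μH[2] (HexA A s) :=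
      add_le_add (measure_iUnion_fintype_le _ _) (measure_iUnion_fintype_le _ _)
    _ ≤ (∑ _s : Bool, kap * ENNReal.ofReal
    (2 * (‖cr (av A 1) (av A 2)‖ + ‖cr (av A 2) (av A 0)‖ + ‖cr (av A 0) (av A 1)‖)))
      + ∑ s, kap * ENNReal.ofReal (3 * fv A s) := by
        refine add_le_add (Finset.sum_le_sum fun s _ => haus_SqA A s) (Finset.sum_le_sum fun s _ => ?_)
        exact haus_hex _ _ _ _ ((A_LI A).sgn s.1 s.2.1 s.2.2)
    _ = _ := by
        rw [← Finset.mul_sum, ← Finset.mul_sum, ← mul_add,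
          ← ENNReal.ofReal_sum_of_nonneg (fun s _ => by positivity),
          ← ENNReal.ofReal_sum_of_nonneg (fun s _ => mul_nonneg (by norm_num) (fv_nonneg A s)),
          ← ENNReal.ofReal_add (by positivity)
            (Finset.sum_nonneg fun s _ => mul_nonneg (by norm_num) (fv_nonneg A s))]
        congr 2
        have h3 : ∑ s, 3 * fv A s = 3 * ∑ s, fv A s := (Finset.mul_sum _ _ _).symm
        rw [h3]
        simp
        ring

theorem surf_L (R : ℝ) (hR : 0 < R) :
    kap * ENNReal.ofReal (R ^ 2 / 2 * ∑ s, fv A s) ≤ μH[2] (frontier (A '' octS R)) := by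
  rw [A_frontier]
  calc kap * ENNReal.ofReal (R ^ 2 / 2 * ∑ s, fv A s)
      = ∑ s, kap * ENNReal.ofReal (R ^ 2 / 2 * fv A s) := by
        rw [← Finset.mul_sum, ← ENNReal.ofReal_sum_of_nonneg
          (fun s _ => mul_nonneg (by positivity) (fv_nonneg A s)), ← Finset.mul_sum]
    _ ≤ ∑ s, μH[2] (TriA A R s) := by
        refine Finset.sum_le_sum fun s _ => ?_
        exact haus_tri R hR.le _ _ _ _ ((A_LI A).sgn s.1 s.2.1 s.2.2)
    _ = μH[2] (⋃ s, TriA A R s) := by
        rw [measure_iUnion (tri_disj A R) (tri_meas A R), tsum_fintype]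
    _ ≤ _ := measure_mono (iUnion_subset fun s => tri_subset A R hR s)

theorem dom : μH[2] (frontier (A '' truS)) ≤ μH[2] (frontier (A '' octS (2 * Real.sqrt 2))) := by
  refine (surf_K A).trans (le_trans ?_ (surf_L A (2 * Real.sqrt 2) (by positivity)))
  refine mul_le_mul_right (ENNReal.ofReal_le_ofReal ?_) _
  have h := sum_fv A
  have h2 : (2 * Real.sqrt 2) ^ 2 / 2 = 4 := by
    rw [mul_pow, Real.sq_sqrt (by norm_num)]; norm_num
  rw [h2]
  linarith

end

/-! ### volumes -/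

theorem vol_oct (R : ℝ) (hR : 0 ≤ R) : volume (octS R) = ENNReal.ofReal (4 / 3 * R ^ 3) := by
  have h1 : octS R = WithLp.ofLp ⁻¹' {x : Fin 3 → ℝ | (∑ i, |x i| ^ (1:ℝ)) ^ (1 / (1:ℝ)) ≤ R} := by
    ext x
    simp [octS, Fin.sum_univ_three]
  have hm : MeasurableSet {x : Fin 3 → ℝ | (∑ i, |x i| ^ (1:ℝ)) ^ (1 / (1:ℝ)) ≤ R} := by
    measurability
  rw [h1, (PiLp.volume_preserving_ofLp (Fin 3)).measure_preimage hm.nullMeasurableSet,
    MeasureTheory.volume_sum_rpow_le (Fin 3) (p := 1) le_rfl R]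
  have hG2 : Real.Gamma (1 / 1 + 1) = 1 := by
    rw [show (1 / 1 + 1 : ℝ) = 1 + 1 by norm_num, Real.Gamma_add_one (by norm_num), Real.Gamma_one]
    norm_num
  have hG4 : Real.Gamma ((Fintype.card (Fin 3) : ℝ) / 1 + 1) = 6 := by
    have : ((Fintype.card (Fin 3) : ℝ) / 1 + 1) = ((3:ℕ) : ℝ) + 1 := by simp
    rw [this, Real.Gamma_nat_eq_factorial]
    norm_num [Nat.factorial]
  rw [hG2, hG4, ← ENNReal.ofReal_pow hR, ← ENNReal.ofReal_mul (by positivity)]
  congr 1
  simp
  ring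

theorem shift_sum (i : Fin 3) (x : E3) (hx : 2 < x i) (h : x ∈ octS 3) :
    x - EuclideanSpace.single i (2:ℝ) ∈ octS 1 := by
  simp only [octS, mem_ofPred_eq] at h ⊢
  fin_cases i
  · simp at hx h ⊢
    rw [abs_of_pos (by linarith)] at h
    rw [abs_of_pos (by linarith : 0 < x 0 - 2)]
    linarith
  · simp at hx h ⊢
    rw [abs_of_pos (by linarith : 0 < x 1)] at h
    rw [abs_of_pos (by linarith : 0 < x 1 - 2)]
    linarith
  · simp at hx h ⊢
    rw [abs_of_pos (by linarith : 0 < x 2)] at h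
    rw [abs_of_pos (by linarith : 0 < x 2 - 2)]
    linarith

theorem neg_mem_oct {R : ℝ} {x : E3} (h : x ∈ octS R) : -x ∈ octS R := by
  simpa [octS] using h

theorem vol_cap (i : Fin 3) : volume {x : E3 | x ∈ octS 3 ∧ 2 < |x i|} ≤ ENNReal.ofReal (4 / 3) := by
  have hp : volume {x : E3 | x ∈ octS 3 ∧ 2 < x i} ≤ volume (octS 1 ∩ {x : E3 | 0 < x i}) := by
    have h1 : {x : E3 | x ∈ octS 3 ∧ 2 < x i} ⊆
        (fun x => x + (- EuclideanSpace.single i (2:ℝ))) ⁻¹' (octS 1 ∩ {x : E3 | 0 < x i}) := by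
      rintro x ⟨h1, h2⟩
      refine ⟨?_, ?_⟩
      · show x + -EuclideanSpace.single i (2:ℝ) ∈ octS 1
        rw [← sub_eq_add_neg]
        exact shift_sum i x h2 h1
      · show 0 < (x + -EuclideanSpace.single i (2:ℝ)) i
        simp; linarith
    refine (measure_mono h1).trans (le_of_eq ?_)
    exact measure_preimage_add_right _ _ _
  have hn : volume {x : E3 | x ∈ octS 3 ∧ x i < -2} ≤ volume (octS 1 \ {x : E3 | 0 < x i}) := by
    have h1 : {x : E3 | x ∈ octS 3 ∧ x i < -2} ⊆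
        (fun x => x + EuclideanSpace.single i (2:ℝ)) ⁻¹' (octS 1 \ {x : E3 | 0 < x i}) := by
      rintro x ⟨h1, h2⟩
      refine ⟨?_, ?_⟩
      · show x + EuclideanSpace.single i (2:ℝ) ∈ octS 1
        have h3 := neg_mem_oct (shift_sum i (-x) (by simp; linarith) (neg_mem_oct h1))
        rw [show x + EuclideanSpace.single i (2:ℝ) = -(-x - EuclideanSpace.single i (2:ℝ)) by abel]
        exact h3
      · show ¬ (0 < (x + EuclideanSpace.single i (2:ℝ)) i)
        simp; linarith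
    refine (measure_mono h1).trans (le_of_eq ?_)
    exact measure_preimage_add_right _ _ _
  have hm : MeasurableSet {x : E3 | 0 < x i} := (isOpen_lt continuous_const (cont_coord i)).measurableSet
  have hsub : {x : E3 | x ∈ octS 3 ∧ 2 < |x i|} ⊆
      {x : E3 | x ∈ octS 3 ∧ 2 < x i} ∪ {x : E3 | x ∈ octS 3 ∧ x i < -2} := by
    rintro x ⟨h1, h2⟩
    rcases lt_abs.mp h2 with h | h
    · left; exact ⟨h1, h⟩
    · right; exact ⟨h1, by linarith⟩
  calc _ ≤ _ := measure_mono hsub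
    _ ≤ _ := measure_union_le _ _
    _ ≤ _ := add_le_add hp hn
    _ = volume (octS 1) := measure_inter_add_sdiff _ hm
    _ = _ := by rw [vol_oct 1 (by norm_num)]; norm_num

theorem vol_tru : ENNReal.ofReal 32 ≤ volume truS := by
  have hsub : octS 3 ⊆ truS ∪ ⋃ i : Fin 3, {x : E3 | x ∈ octS 3 ∧ 2 < |x i|} := by
    intro x hx
    by_cases h : x ∈ truS
    · left; exact h
    · right
      rw [mem_iUnion]
      by_contra hcon
      push Not at hcon
      have hc : ∀ i : Fin 3, |x i| ≤ 2 := by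
        intro i
        by_contra h2
        exact hcon i ⟨hx, not_le.mp h2⟩
      exact h ⟨hc 0, hc 1, hc 2, hx⟩
  have h1 : ENNReal.ofReal 36 ≤ volume truS + ENNReal.ofReal 4 := by
    calc ENNReal.ofReal 36 = volume (octS 3) := by rw [vol_oct 3 (by norm_num)]; norm_num
      _ ≤ _ := measure_mono hsub
      _ ≤ _ := measure_union_le _ _
      _ ≤ volume truS + ∑ i : Fin 3, volume {x : E3 | x ∈ octS 3 ∧ 2 < |x i|} :=
        add_le_add le_rfl (measure_iUnion_fintype_le _ _)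
      _ ≤ volume truS + ∑ _i : Fin 3, ENNReal.ofReal (4 / 3) :=
        add_le_add le_rfl (Finset.sum_le_sum fun i _ => vol_cap i)
      _ = _ := by
        rw [← ENNReal.ofReal_sum_of_nonneg (fun s _ => by positivity)]
        congr 2
        simp
        norm_num
  rw [show (36:ℝ) = 32 + 4 by norm_num, ENNReal.ofReal_add (by norm_num) (by norm_num)] at h1
  exact (ENNReal.add_le_add_iff_right ENNReal.ofReal_ne_top).mp h1

theorem vol_lt : volume (octS (2 * Real.sqrt 2)) < volume truS := by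
  refine lt_of_lt_of_le ?_ vol_tru
  rw [vol_oct _ (by positivity)]
  rw [ENNReal.ofReal_lt_ofReal_iff (by norm_num)]
  have h2 : Real.sqrt 2 < 3 / 2 := by
    rw [Real.sqrt_lt' (by norm_num)]; norm_num
  have h3 : (2 * Real.sqrt 2) ^ 3 = 16 * Real.sqrt 2 := by
    have : Real.sqrt 2 ^ 2 = 2 := Real.sq_sqrt (by norm_num)
    calc (2 * Real.sqrt 2) ^ 3 = 8 * (Real.sqrt 2 ^ 2) * Real.sqrt 2 := by ring
      _ = _ := by rw [this]; ring
  rw [h3]
  linarith

/-! ### convex bodies -/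

theorem oct_convex (R : ℝ) : Convex ℝ (octS R) := by
  intro x hx y hy a b ha hb hab
  simp only [octS, mem_ofPred_eq] at hx hy ⊢
  have h : ∀ i, |(a • x + b • y) i| ≤ a * |x i| + b * |y i| := by
    intro i
    have e : (a • x + b • y) i = a * x i + b * y i := by simp
    rw [e]
    refine (abs_add_le _ _).trans ?_
    rw [abs_mul, abs_mul, abs_of_nonneg ha, abs_of_nonneg hb]
  have h0 := h 0
  have h1 := h 1
  have h2 := h 2
  have : a * (|x 0| + |x 1| + |x 2|) + b * (|y 0| + |y 1| + |y 2|) ≤ a * R + b * R :=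
    add_le_add (mul_le_mul_of_nonneg_left hx ha) (mul_le_mul_of_nonneg_left hy hb)
  have e : a * R + b * R = R := by rw [← add_mul, hab, one_mul]
  linarith

theorem tru_convex : Convex ℝ truS := by
  have hc : ∀ i : Fin 3, Convex ℝ {x : E3 | |x i| ≤ 2} := by
    intro i x hx y hy a b ha hb hab
    simp only [mem_ofPred_eq] at hx hy ⊢
    have e : (a • x + b • y) i = a * x i + b * y i := by simp
    rw [e]
    refine (abs_add_le _ _).trans ?_
    rw [abs_mul, abs_mul, abs_of_nonneg ha, abs_of_nonneg hb]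
    nlinarith
  have := (hc 0).inter ((hc 1).inter ((hc 2).inter (oct_convex 3)))
  exact this

theorem oct_compact (R : ℝ) (hR : 0 ≤ R) : IsCompact (octS R) := by
  apply Metric.isCompact_of_isClosed_isBounded (octS_closed R)
  apply (Metric.isBounded_closedBall (x := (0:E3)) (r := R)).subset
  intro x hx
  rw [mem_closedBall_zero_iff]
  have hx' : |x 0| + |x 1| + |x 2| ≤ R := hx
  rw [EuclideanSpace.norm_eq]
  apply Real.sqrt_le_iff.mpr ⟨hR, ?_⟩
  rw [Fin.sum_univ_three]
  simp only [Real.norm_eq_abs]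
  nlinarith [abs_nonneg (x 0), abs_nonneg (x 1), abs_nonneg (x 2),
    mul_nonneg (abs_nonneg (x 0)) (abs_nonneg (x 1)), mul_nonneg (abs_nonneg (x 0)) (abs_nonneg (x 2)),
    mul_nonneg (abs_nonneg (x 1)) (abs_nonneg (x 2))]

theorem tru_compact : IsCompact truS :=
  (oct_compact 3 (by norm_num)).of_isClosed_subset truS_closed (fun _ hx => hx.2.2.2)

theorem oct_interior (R : ℝ) (hR : 0 < R) : (interior (octS R)).Nonempty := by
  have hs : {x : E3 | |x 0| + |x 1| + |x 2| < R} ⊆ octS R := by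
    intro x hx
    have hx' : |x 0| + |x 1| + |x 2| < R := hx
    exact hx'.le
  refine ⟨0, interior_maximal hs (isOpen_lt cont_sum continuous_const) ?_⟩
  show |(0:E3) 0| + |(0:E3) 1| + |(0:E3) 2| < R
  simpa using hR

theorem tru_interior : (interior truS).Nonempty := by
  refine ⟨0, interior_maximal (t := {x : E3 | |x 0| + |x 1| + |x 2| < 2})
    (fun x hx => ?_) (isOpen_lt cont_sum continuous_const) ?_⟩
  · have hx' : |x 0| + |x 1| + |x 2| < 2 := hx
    have h0 := abs_nonneg (x 0)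
    have h1 := abs_nonneg (x 1)
    have h2 := abs_nonneg (x 2)
    exact ⟨by linarith, by linarith, by linarith, by linarith⟩
  · show |(0:E3) 0| + |(0:E3) 1| + |(0:E3) 2| < 2
    simp

theorem main : ∃ C₁ C₂ : ConvexBody (EuclideanSpace ℝ (Fin 3)),
    (interior (C₁ : Set (EuclideanSpace ℝ (Fin 3)))).Nonempty ∧
    (interior (C₂ : Set (EuclideanSpace ℝ (Fin 3)))).Nonempty ∧
    (∀ x ∈ C₁, -x ∈ C₁) ∧ (∀ x ∈ C₂, -x ∈ C₂) ∧
    (∀ A : EuclideanSpace ℝ (Fin 3) ≃ᵃ[ℝ] EuclideanSpace ℝ (Fin 3),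
      μH[2] (frontier (A '' (C₁ : Set (EuclideanSpace ℝ (Fin 3)))))
        ≤ μH[2] (frontier (A '' (C₂ : Set (EuclideanSpace ℝ (Fin 3)))))) ∧
    volume (C₂ : Set (EuclideanSpace ℝ (Fin 3))) < volume (C₁ : Set (EuclideanSpace ℝ (Fin 3))) := by
  refine ⟨⟨truS, tru_convex, tru_compact, tru_interior.mono interior_subset⟩,
    ⟨octS (2 * Real.sqrt 2), oct_convex _, oct_compact _ (by positivity),
      (oct_interior _ (by positivity)).mono interior_subset⟩,
    tru_interior, oct_interior _ (by positivity), ?_, fun x hx => neg_mem_oct hx, dom, vol_lt⟩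
  rintro x ⟨h0, h1, h2, h3⟩
  refine ⟨?_, ?_, ?_, ?_⟩
  · simpa using h0
  · simpa using h1
  · simpa using h2
  · simpa using h3

end Pool.Agent.V11187.AreaE
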