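import Mathlib
import Pool.Agent.Helper873.PBody.Sweep

set_option autoImplicit false

/-! Volume swept by a segment, in coordinates adapted to a unit vector
(adapted from `Pool.Agent.Helper873.PBody.sweep`). -/

open MeasureTheory Metric Set Filter Topology
open scoped Pointwise ENNReal RealInnerProductSpace

namespace Pool.Agent.V11187

open Pool.Agent.Helper873.PBody (E V exists_coord)

theorem sweepY {n : ℕ} (K : Set (E (n + 1))) (hc : Convex ℝ K) (hK : IsCompact K) (u : E (n + 1))
    (hu : ‖u‖ = 1) (δ : ℝ) (hδ : 0 ≤ δ) (ι : E n →ₗᵢ[ℝ] E (n + 1)) (hι : ∀ y, ⟪u, ι y⟫ = 0)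
    (hΨ : MeasurePreserving (fun p : ℝ × E n => p.1 • u + ι p.2)) :
    IsCompact {y : E n | ∃ t : ℝ, t • u + ι y ∈ K} ∧
    volume (K + segment ℝ 0 (δ • u)) = volume K +
      ENNReal.ofReal δ * volume {y : E n | ∃ t : ℝ, t • u + ι y ∈ K} := by
  set Ψ : ℝ × E n → E (n + 1) := fun p => p.1 • u + ι p.2 with hΨdef
  have hΨc : Continuous Ψ := by
    have := ι.continuous
    fun_prop
  have hKm : MeasurableSet K := hK.isClosed.measurableSet
  have hvol : ∀ M : Set (E (n + 1)), MeasurableSet M →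
      volume M = ∫⁻ y : E n, volume {t : ℝ | Ψ (t, y) ∈ M} := by
    intro M hM
    rw [← hΨ.measure_preimage hM.nullMeasurableSet, Measure.volume_eq_prod,
      Measure.prod_apply_symm (hΨc.measurable hM)]
    rfl
  set Y : Set (E n) := {y | ∃ t : ℝ, t • u + ι y ∈ K} with hY
  have hnorm : ∀ p, ‖Ψ p‖ ^ 2 = p.1 ^ 2 + ‖p.2‖ ^ 2 := by
    intro p
    simp only [hΨdef]
    rw [norm_add_sq_real, norm_smul, hu, inner_smul_left, hι]
    simp
  have hcK : IsCompact (Ψ ⁻¹' K) := by
    refine Metric.isCompact_of_isClosed_isBounded (hK.isClosed.preimage hΨc) ?_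
    obtain ⟨R, hR⟩ := hK.isBounded.exists_norm_le
    rw [isBounded_iff_forall_norm_le]
    refine ⟨|R|, fun p hp => ?_⟩
    have h1 := hR _ hp
    have h2 := hnorm p
    have h3 : ‖Ψ p‖ ^ 2 ≤ |R| ^ 2 := pow_le_pow_left₀ (norm_nonneg _) (h1.trans (le_abs_self R)) 2
    rw [Prod.norm_def, max_le_iff]
    constructor
    · rw [Real.norm_eq_abs]
      apply abs_le_of_sq_le_sq _ (abs_nonneg R)
      nlinarith [sq_nonneg ‖p.2‖]
    · apply le_of_sq_le_sq _ (abs_nonneg R)
      nlinarith [sq_nonneg p.1]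
  have hYimg : Y = Prod.snd '' (Ψ ⁻¹' K) := by
    ext y
    constructor
    · rintro ⟨t, ht⟩; exact ⟨(t, y), ht, rfl⟩
    · rintro ⟨p, hp, rfl⟩; exact ⟨p.1, hp⟩
  have hYc : IsCompact Y := by rw [hYimg]; exact hcK.image continuous_snd
  have hYm : MeasurableSet Y := hYc.isClosed.measurableSet
  have hYfin : volume Y ≠ ⊤ := hYc.measure_lt_top.ne
  -- fibres
  have hfib : ∀ y ∈ Y, ∃ a b : ℝ, a ≤ b ∧ {t : ℝ | Ψ (t, y) ∈ K} = Icc a b := by
    intro y hy
    have hcomp : IsCompact {t : ℝ | Ψ (t, y) ∈ K} := by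
      have : {t : ℝ | Ψ (t, y) ∈ K} = Prod.fst '' ((Ψ ⁻¹' K) ∩ (Prod.snd ⁻¹' {y})) := by
        ext t
        constructor
        · intro ht; exact ⟨(t, y), ⟨ht, rfl⟩, rfl⟩
        · rintro ⟨p, ⟨hp, hp2⟩, rfl⟩
          have : p.2 = y := hp2
          simp only [mem_ofPred_eq, ← this]
          exact hp
      rw [this]
      exact (hcK.inter_right (isClosed_singleton.preimage continuous_snd)).image continuous_fst
    have hconv : Convex ℝ {t : ℝ | Ψ (t, y) ∈ K} := by
      intro s hs' t ht α β hα hβ hαβ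
      have := hc hs' ht hα hβ hαβ
      simp only [mem_ofPred_eq] at *
      convert this using 1
      simp only [hΨdef]
      rw [smul_add, smul_add, smul_smul, smul_smul, smul_eq_mul, smul_eq_mul, add_smul]
      have : ι y = α • ι y + β • ι y := by rw [← add_smul, hαβ, one_smul]
      nth_rewrite 1 [this]
      abel
    have hne : {t : ℝ | Ψ (t, y) ∈ K}.Nonempty := hy
    have := eq_Icc_of_connected_compact ⟨hne, hconv.isPreconnected⟩ hcomp
    refine ⟨_, _, ?_, this⟩
    by_contra hlt
    rw [Icc_eq_empty hlt] at this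
    exact hne.ne_empty this
  have hfib0 : ∀ y, y ∉ Y → {t : ℝ | Ψ (t, y) ∈ K} = ∅ := by
    intro y hy
    rw [eq_empty_iff_forall_notMem]
    intro t ht
    exact hy ⟨t, ht⟩
  have hKfin : volume K ≠ ⊤ := hK.measure_lt_top.ne
  have hind : ∫⁻ y, Y.indicator (fun _ => ENNReal.ofReal δ) y = ENNReal.ofReal δ * volume Y := by
    rw [lintegral_indicator hYm, setLIntegral_const]
  -- the sweep
  set M : Set (E (n + 1)) := K + segment ℝ 0 (δ • u) with hMdef
  have hseg : segment ℝ (0 : E (n + 1)) (δ • u) = (fun s : ℝ => s • u) '' Icc 0 δ := by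
    ext z
    rw [segment_eq_image]
    constructor
    · rintro ⟨s, ⟨hs0, hs1⟩, rfl⟩
      refine ⟨s * δ, ⟨by positivity, by nlinarith⟩, ?_⟩
      simp [mul_smul]
    · rintro ⟨s, ⟨hs0, hs1⟩, rfl⟩
      rcases hδ.eq_or_lt with h0 | h0
      · have hs2 : s = 0 := le_antisymm (by linarith) hs0
        exact ⟨0, ⟨le_refl _, zero_le_one⟩, by simp [hs2]⟩
      · refine ⟨s / δ, ⟨by positivity, by rw [div_le_one h0]; exact hs1⟩, ?_⟩
        simp only [smul_zero, zero_add, smul_smul]
        rw [div_mul_cancel₀ _ h0.ne']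
  have hsegc : IsCompact (segment ℝ (0 : E (n + 1)) (δ • u)) := by
    rw [hseg]
    exact isCompact_Icc.image (by fun_prop)
  have hMc : IsCompact M := hK.add hsegc
  have hMm : MeasurableSet M := hMc.isClosed.measurableSet
  have hmemM : ∀ t y, Ψ (t, y) ∈ M ↔ ∃ s ∈ Icc 0 δ, Ψ (t - s, y) ∈ K := by
    intro t y
    rw [hMdef, hseg, Set.mem_add]
    constructor
    · rintro ⟨k, hk, z, ⟨s, hs, rfl⟩, hz⟩
      refine ⟨s, hs, ?_⟩
      have : k = Ψ (t - s, y) := by
        simp only at hz
        rw [eq_sub_of_add_eq hz]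
        simp only [hΨdef]
        rw [sub_smul]
        abel
      rw [← this]
      exact hk
    · rintro ⟨s, hs, hk⟩
      refine ⟨_, hk, s • u, ⟨s, hs, rfl⟩, ?_⟩
      simp only [hΨdef]
      rw [sub_smul]
      abel
  have key : volume M = volume K + ENNReal.ofReal δ * volume Y := by
    rw [hvol K hKm, hvol M hMm, ← hind, ← lintegral_add_right _ (measurable_const.indicator hYm)]
    apply lintegral_congr
    intro y
    by_cases hy : y ∈ Y
    · obtain ⟨a, b, hab, he⟩ := hfib y hy
      simp only [indicator_of_mem hy]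
      rw [he, Real.volume_Icc, ← ENNReal.ofReal_add (by linarith) hδ]
      have hsub : {t : ℝ | Ψ (t, y) ∈ M} = Icc a (b + δ) := by
        ext t
        simp only [mem_ofPred_eq, hmemM]
        have hh : ∀ r, Ψ (r, y) ∈ K ↔ r ∈ Icc a b := by
          intro r
          rw [← he]
          rfl
        constructor
        · rintro ⟨s, hs, hk⟩
          rw [hh] at hk
          exact ⟨by linarith [hk.1, hs.1], by linarith [hk.2, hs.2]⟩
        · rintro ⟨h1, h2⟩
          refine ⟨t - min t b, ⟨by linarith [min_le_left t b], ?_⟩, ?_⟩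
          · rcases le_total t b with h3 | h3
            · rw [min_eq_left h3]; linarith
            · rw [min_eq_right h3]; linarith
          · rw [hh]
            have : t - (t - min t b) = min t b := by ring
            rw [this]
            exact ⟨le_min h1 hab, min_le_right _ _⟩
      rw [hsub, Real.volume_Icc]
      congr 1
      ring
    · simp only [indicator_of_notMem hy, add_zero]
      rw [hfib0 y hy]
      have : {t : ℝ | Ψ (t, y) ∈ M} = ∅ := by
        rw [eq_empty_iff_forall_notMem]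
        intro t ht
        simp only [mem_ofPred_eq, hmemM] at ht
        obtain ⟨s, _, hk⟩ := ht
        exact hy ⟨_, hk⟩
      rw [this]
  exact ⟨hYc, key⟩

end Pool.Agent.V11187
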