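import Mathlib
import Pool.Agent.V11187.SweepY

set_option autoImplicit false

/-! Planar zonotopes plus a disc: areas. -/

open MeasureTheory Metric Set Filter Topology
open scoped Pointwise ENNReal RealInnerProductSpace

namespace Pool.Agent.V11187.Zono

open Pool.Agent.Helper873.PBody (E V exists_coord)

/-- the determinant of two planar vectors -/
def wd (γ x : E 2) : ℝ := γ 0 * x 1 - γ 1 * x 0

theorem wd_add (γ x y : E 2) : wd γ (x + y) = wd γ x + wd γ y := by
  simp only [wd, PiLp.add_apply]; ring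

theorem wd_smul (γ x : E 2) (c : ℝ) : wd γ (c • x) = c * wd γ x := by
  simp only [wd, PiLp.smul_apply, smul_eq_mul]; ring

theorem wd_smul_left (γ x : E 2) (c : ℝ) : wd (c • γ) x = c * wd γ x := by
  simp only [wd, PiLp.smul_apply, smul_eq_mul]; ring

theorem continuous_wd (γ : E 2) : Continuous (wd γ) := by
  unfold wd; fun_prop

/-- length of the range of `wd γ` on a set -/
noncomputable def ell (γ : E 2) (X : Set (E 2)) : ℝ := (volume (wd γ '' X)).toReal

/-- Lagrange identity -/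
theorem wd_sq (γ x : E 2) : wd γ x ^ 2 = ‖γ‖ ^ 2 * ‖x‖ ^ 2 - ⟪γ, x⟫ ^ 2 := by
  simp only [wd, EuclideanSpace.norm_sq_eq, Fin.sum_univ_two, PiLp.inner_apply, Real.norm_eq_abs,
    sq_abs]
  simp only [RCLike.inner_apply, conj_trivial]
  ring

theorem sweep2 (X : Set (E 2)) (hc : Convex ℝ X) (hX : IsCompact X) (γ : E 2) :
    V (X + segment ℝ 0 γ) = V X + ell γ X := by
  by_cases hγ : γ = 0
  · subst hγ
    have h1 : segment ℝ (0 : E 2) 0 = {0} := segment_same ℝ 0
    rw [h1, add_singleton]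
    have h2 : ell 0 X = 0 := by
      unfold ell
      have : wd 0 '' X ⊆ {0} := by
        rintro _ ⟨x, _, rfl⟩
        simp [wd]
      rw [measure_mono_null this (by simp)]
      rfl
    rw [h2]
    simp
  have hn : 0 < ‖γ‖ := norm_pos_iff.2 hγ
  set u : E 2 := ‖γ‖⁻¹ • γ with hu
  have hu1 : ‖u‖ = 1 := by rw [hu, norm_smul, norm_inv, norm_norm, inv_mul_cancel₀ hn.ne']
  have hγu : γ = ‖γ‖ • u := by rw [hu, smul_smul, mul_inv_cancel₀ hn.ne', one_smul]
  obtain ⟨ι, hι, hΨ, hs⟩ := exists_coord u hu1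
  obtain ⟨hYc, key⟩ := sweepY X hc hX u hu1 ‖γ‖ hn.le ι hι hΨ
  rw [← hγu] at key
  set w : E 2 := ι (EuclideanSpace.single 0 1) with hw
  have hw1 : ‖w‖ = 1 := by rw [hw, ι.norm_map]; simp
  have huw : ⟪u, w⟫ = 0 := hι _
  have hιy : ∀ y : E 1, ι y = (y 0) • w := by
    intro y
    rw [hw, ← map_smul]
    congr 1
    ext i
    fin_cases i
    simp
  have hc1 : |wd u w| = 1 := by
    have := wd_sq u w
    rw [hu1, hw1, huw] at this
    have h2 : wd u w ^ 2 = 1 := by linarith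
    have h3 : |wd u w| ^ 2 = 1 := by rw [sq_abs]; exact h2
    nlinarith [abs_nonneg (wd u w)]
  have hwd : ∀ (t : ℝ) (y : E 1), wd γ (t • u + ι y) = (‖γ‖ * wd u w) * y 0 := by
    intro t y
    rw [hιy, wd_add, wd_smul γ u t, wd_smul γ w]
    have h1 : wd γ u = 0 := by
      rw [hγu, wd_smul_left]
      simp only [wd]; ring
    have h2 : wd γ w = ‖γ‖ * wd u w := by
      conv_lhs => rw [hγu]
      rw [wd_smul_left]
    rw [h1, h2]
    ring
  set Y : Set (E 1) := {y | ∃ t : ℝ, t • u + ι y ∈ X} with hY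
  -- the coordinate map of the line
  have hmp : MeasurePreserving (fun y : E 1 => y 0) := by
    have h1 : MeasurePreserving (fun y : E 1 => WithLp.ofLp y) := PiLp.volume_preserving_ofLp (Fin 1)
    have h2 : MeasurePreserving (MeasurableEquiv.funUnique (Fin 1) ℝ) :=
      volume_preserving_funUnique (Fin 1) ℝ
    have h3 := h2.comp h1
    exact h3
  have hYimg : volume ((fun y : E 1 => y 0) '' Y) = volume Y := by
    have hinj : Function.Injective (fun y : E 1 => y 0) := by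
      intro a b hab
      ext i
      fin_cases i
      exact hab
    have hm : MeasurableSet ((fun y : E 1 => y 0) '' Y) :=
      (hYc.image (by fun_prop)).isClosed.measurableSet
    have := hmp.measure_preimage hm.nullMeasurableSet
    rw [preimage_image_eq _ hinj] at this
    exact this.symm
  have himg : wd γ '' X = (‖γ‖ * wd u w) • ((fun y : E 1 => y 0) '' Y) := by
    ext z
    constructor
    · rintro ⟨x, hx, rfl⟩
      obtain ⟨⟨t, y⟩, hty⟩ := hs x
      change t • u + ι y = x at hty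
      refine ⟨y 0, ⟨y, ⟨t, by rw [hty]; exact hx⟩, rfl⟩, ?_⟩
      rw [← hty, hwd]
      rfl
    · rintro ⟨_, ⟨y, ⟨t, ht⟩, rfl⟩, rfl⟩
      refine ⟨_, ht, ?_⟩
      rw [hwd]
      rfl
  have hvol : volume (wd γ '' X) = ENNReal.ofReal ‖γ‖ * volume Y := by
    rw [himg, Measure.addHaar_smul, hYimg]
    congr 1
    simp only [Module.finrank_self, pow_one]
    rw [abs_mul, hc1, mul_one, abs_norm]
  unfold V ell
  rw [key, hvol, ENNReal.toReal_add hX.measure_lt_top.ne
    (ENNReal.mul_ne_top ENNReal.ofReal_ne_top hYc.measure_lt_top.ne)]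

theorem ell_Icc (γ : E 2) (X : Set (E 2)) (hc : Convex ℝ X) (hX : IsCompact X) (hne : X.Nonempty) :
    ∃ a b : ℝ, a ≤ b ∧ wd γ '' X = Icc a b := by
  have h1 : IsConnected (wd γ '' X) :=
    ⟨hne.image _, (hc.isPreconnected.image _ (continuous_wd γ).continuousOn)⟩
  have h2 := eq_Icc_of_connected_compact h1 (hX.image (continuous_wd γ))
  refine ⟨_, _, ?_, h2⟩
  have h3 := h1.nonempty
  rw [h2] at h3
  exact nonempty_Icc.1 h3

theorem ell_add (γ : E 2) (X Z : Set (E 2)) (hcX : Convex ℝ X) (hX : IsCompact X)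
    (hneX : X.Nonempty) (hcZ : Convex ℝ Z) (hZ : IsCompact Z) (hneZ : Z.Nonempty) :
    ell γ (X + Z) = ell γ X + ell γ Z := by
  obtain ⟨a, b, hab, h1⟩ := ell_Icc γ X hcX hX hneX
  obtain ⟨c, d, hcd, h2⟩ := ell_Icc γ Z hcZ hZ hneZ
  have h3 : wd γ '' (X + Z) = Icc (a + c) (b + d) := by
    have h4 : wd γ '' (X + Z) = wd γ '' X + wd γ '' Z := by
      ext z
      constructor
      · rintro ⟨_, ⟨x, hx, y, hy, rfl⟩, rfl⟩
        exact ⟨_, ⟨x, hx, rfl⟩, _, ⟨y, hy, rfl⟩, (wd_add γ x y).symm⟩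
      · rintro ⟨_, ⟨x, hx, rfl⟩, _, ⟨y, hy, rfl⟩, rfl⟩
        exact ⟨_, ⟨x, hx, y, hy, rfl⟩, wd_add γ x y⟩
    rw [h4, h1, h2, Icc_add_Icc hab hcd]
  unfold ell
  rw [h3, h1, h2, Real.volume_Icc, Real.volume_Icc, Real.volume_Icc, ENNReal.toReal_ofReal,
    ENNReal.toReal_ofReal, ENNReal.toReal_ofReal] <;> linarith

theorem ell_seg (γ δ : E 2) : ell γ (segment ℝ 0 δ) = |wd γ δ| := by
  have h1 : wd γ '' segment ℝ 0 δ = uIcc 0 (wd γ δ) := by
    have h2 : segment ℝ (0 : E 2) δ = (fun s : ℝ => s • δ) '' Icc 0 1 := by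
      rw [segment_eq_image]; simp
    rw [h2, image_image]
    simp only [wd_smul]
    have h3 : (fun s : ℝ => s * wd γ δ) '' Icc 0 1 = segment ℝ (0 : ℝ) (wd γ δ) := by
      rw [segment_eq_image]; simp
    rw [h3, segment_eq_uIcc]
  unfold ell
  rw [h1, Real.volume_interval]
  simp

theorem ell_disc (γ : E 2) (r : ℝ) (hr : 0 ≤ r) :
    ell γ (closedBall 0 r) = 2 * r * ‖γ‖ := by
  have h1 : wd γ '' closedBall 0 r = Icc (-(r * ‖γ‖)) (r * ‖γ‖) := by
    ext z
    constructor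
    · rintro ⟨x, hx, rfl⟩
      rw [mem_closedBall_zero_iff] at hx
      have h2 := wd_sq γ x
      have h3 : wd γ x ^ 2 ≤ (r * ‖γ‖) ^ 2 := by
        rw [h2, mul_pow]
        have : ‖x‖ ^ 2 ≤ r ^ 2 := pow_le_pow_left₀ (norm_nonneg _) hx 2
        nlinarith [sq_nonneg ⟪γ, x⟫, sq_nonneg ‖γ‖]
      exact abs_le.1 (abs_le_of_sq_le_sq h3 (by positivity))
    · rintro ⟨h2, h3⟩
      by_cases hγ : ‖γ‖ = 0
      · rw [hγ] at h2 h3
        refine ⟨0, by simpa using hr, ?_⟩
        simp only [wd]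
        simp
        linarith
      · have hpos : 0 < ‖γ‖ := lt_of_le_of_ne (norm_nonneg _) (Ne.symm hγ)
        have hnsq : ‖γ‖ ^ 2 = γ 0 ^ 2 + γ 1 ^ 2 := by
          simp [EuclideanSpace.norm_sq_eq, Fin.sum_univ_two]
        refine ⟨(z / ‖γ‖ ^ 2) • !₂[-(γ 1), γ 0], ?_, ?_⟩
        · rw [mem_closedBall_zero_iff, norm_smul]
          have h4 : ‖(!₂[-(γ 1), γ 0] : E 2)‖ = ‖γ‖ := by
            rw [EuclideanSpace.norm_eq, EuclideanSpace.norm_eq]
            congr 1
            simp [Fin.sum_univ_two]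
            ring
          rw [h4, Real.norm_eq_abs, abs_div, abs_of_nonneg (sq_nonneg ‖γ‖)]
          have h5 : |z| ≤ r * ‖γ‖ := abs_le.2 ⟨h2, h3⟩
          calc |z| / ‖γ‖ ^ 2 * ‖γ‖ = |z| / ‖γ‖ := by field_simp
            _ ≤ r * ‖γ‖ / ‖γ‖ := by gcongr
            _ = r := by field_simp
        · rw [wd_smul]
          have h6 : wd γ (!₂[-(γ 1), γ 0] : E 2) = ‖γ‖ ^ 2 := by
            rw [hnsq]
            simp [wd]
            ring
          rw [h6]
          field_simp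
  unfold ell
  rw [h1, Real.volume_Icc, ENNReal.toReal_ofReal]
  · ring
  · have := mul_nonneg hr (norm_nonneg γ)
    linarith

theorem seg_compact (γ : E 2) : IsCompact (segment ℝ (0 : E 2) γ) := by
  rw [segment_eq_image]
  exact isCompact_Icc.image (by fun_prop)

theorem seg_nonempty (γ : E 2) : (segment ℝ (0 : E 2) γ).Nonempty := ⟨0, left_mem_segment _ _ _⟩

theorem area_disc (r : ℝ) (hr : 0 ≤ r) : V (closedBall (0 : E 2) r) = Real.pi * r ^ 2 := by
  unfold V
  rw [EuclideanSpace.volume_closedBall_fin_two]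
  rw [ENNReal.toReal_mul, ENNReal.toReal_pow, ENNReal.toReal_ofReal hr]
  simp [mul_comm, Real.pi_nonneg]

/-- area of a disc plus three segments -/
theorem area3 (γ₁ γ₂ γ₃ : E 2) (r : ℝ) (hr : 0 ≤ r) :
    V (closedBall (0 : E 2) r + segment ℝ 0 γ₁ + segment ℝ 0 γ₂ + segment ℝ 0 γ₃) =
      (|wd γ₂ γ₁| + |wd γ₃ γ₁| + |wd γ₃ γ₂|) + 2 * r * (‖γ₁‖ + ‖γ₂‖ + ‖γ₃‖) + Real.pi * r ^ 2 := by
  have hD : IsCompact (closedBall (0 : E 2) r) := isCompact_closedBall _ _
  have hDc : Convex ℝ (closedBall (0 : E 2) r) := convex_closedBall _ _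
  have hDn : (closedBall (0 : E 2) r).Nonempty := nonempty_closedBall.2 hr
  rw [sweep2 _ ((hDc.add (convex_segment _ _)).add (convex_segment _ _))
      ((hD.add (seg_compact _)).add (seg_compact _)),
    sweep2 _ (hDc.add (convex_segment _ _)) (hD.add (seg_compact _)), sweep2 _ hDc hD,
    ell_add _ _ _ (hDc.add (convex_segment _ _)) (hD.add (seg_compact _))
      (hDn.add (seg_nonempty _)) (convex_segment _ _) (seg_compact _) (seg_nonempty _),
    ell_add _ _ _ hDc hD hDn (convex_segment _ _) (seg_compact _) (seg_nonempty _),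
    ell_add _ _ _ hDc hD hDn (convex_segment _ _) (seg_compact _) (seg_nonempty _)]
  rw [ell_seg, ell_seg, ell_seg, ell_disc _ _ hr, ell_disc _ _ hr, ell_disc _ _ hr, area_disc _ hr]
  ring

end Pool.Agent.V11187.Zono
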