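import Mathlib
import Pool.Agent.V11187.Zono

set_option autoImplicit false

/-! Projections of the cube and their parallel bodies. -/

open MeasureTheory Metric Set Filter Topology
open scoped Pointwise ENNReal RealInnerProductSpace

namespace Pool.Agent.V11187.Zono

open Pool.Agent.Helper873.PBody (E V exists_coord)

/-- the unit cube -/
def Cube : Set (E 3) := {x | ∀ i, 0 ≤ x i ∧ x i ≤ 1}

/-- the body covered by the three edges -/
theorem cube_comb (x : E 3) :
    x = x 0 • EuclideanSpace.single 0 (1 : ℝ) + x 1 • EuclideanSpace.single 1 (1 : ℝ) +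
      x 2 • EuclideanSpace.single 2 (1 : ℝ) := by
  ext i
  fin_cases i <;> simp

theorem cube_convex : Convex ℝ Cube := by
  intro x hx y hy a b ha hb hab i
  have h1 := hx i
  have h2 := hy i
  simp only [PiLp.add_apply, PiLp.smul_apply, smul_eq_mul]
  constructor
  · have := mul_nonneg ha h1.1
    have := mul_nonneg hb h2.1
    linarith
  · have := mul_le_mul_of_nonneg_left h1.2 ha
    have := mul_le_mul_of_nonneg_left h2.2 hb
    linarith

theorem cube_closed : IsClosed Cube := by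
  have : Cube = ⋂ i : Fin 3, {x : E 3 | 0 ≤ x i ∧ x i ≤ 1} := by
    ext x; simp [Cube]
  rw [this]
  apply isClosed_iInter
  intro i
  have hc : Continuous (fun x : E 3 => x i) := by fun_prop
  exact (isClosed_le continuous_const hc).inter (isClosed_le hc continuous_const)

theorem cube_compact : IsCompact Cube := by
  apply Metric.isCompact_of_isClosed_isBounded cube_closed
  rw [isBounded_iff_forall_norm_le]
  refine ⟨2, fun x hx => ?_⟩
  have h : ‖x‖ ^ 2 ≤ 2 ^ 2 := by
    rw [EuclideanSpace.norm_sq_eq, Fin.sum_univ_three]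
    simp only [Real.norm_eq_abs, sq_abs]
    have h0 := hx 0
    have h1 := hx 1
    have h2 := hx 2
    nlinarith
  exact le_of_sq_le_sq h (by norm_num)

section proj

variable (u : E 3) (ι : E 2 →ₗᵢ[ℝ] E 3)

/-- planar coordinates of the projection -/
noncomputable def q (x : E 3) : E 2 :=
  !₂[⟪ι (EuclideanSpace.single 0 1), x⟫, ⟪ι (EuclideanSpace.single 1 1), x⟫]

theorem q_add (x y : E 3) : q ι (x + y) = q ι x + q ι y := by
  ext i; fin_cases i <;> simp [q, inner_add_right]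

theorem q_smul (c : ℝ) (x : E 3) : q ι (c • x) = c • q ι x := by
  ext i; fin_cases i <;> simp [q, inner_smul_right]

variable {u ι}

theorem q_coord (hι : ∀ y, ⟪u, ι y⟫ = 0) (t : ℝ) (y : E 2) : q ι (t • u + ι y) = y := by
  have h1 : ∀ z, ⟪ι z, u⟫ = 0 := fun z => by rw [real_inner_comm]; exact hι z
  ext i
  fin_cases i
  · simp [q, inner_add_right, inner_smul_right, h1, EuclideanSpace.inner_single_left]
  · simp [q, inner_add_right, inner_smul_right, h1, EuclideanSpace.inner_single_left]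

theorem inner_coord (hu : ‖u‖ = 1) (hι : ∀ y, ⟪u, ι y⟫ = 0) (t : ℝ) (y : E 2) :
    ⟪u, t • u + ι y⟫ = t := by
  rw [inner_add_right, inner_smul_right, hι, real_inner_self_eq_norm_sq, hu]
  simp

theorem decomp (hu : ‖u‖ = 1) (hι : ∀ y, ⟪u, ι y⟫ = 0)
    (hs : Function.Surjective (fun p : ℝ × E 2 => p.1 • u + ι p.2)) (x : E 3) :
    x = ⟪u, x⟫ • u + ι (q ι x) := by
  obtain ⟨⟨t, y⟩, rfl⟩ := hs x
  simp only
  rw [inner_coord hu hι, q_coord hι]

theorem inner_q (hu : ‖u‖ = 1) (hι : ∀ y, ⟪u, ι y⟫ = 0)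
    (hs : Function.Surjective (fun p : ℝ × E 2 => p.1 • u + ι p.2)) (x y : E 3) :
    ⟪q ι x, q ι y⟫ = ⟪x, y⟫ - ⟪u, x⟫ * ⟪u, y⟫ := by
  have h1 : ∀ z, ⟪ι z, u⟫ = 0 := fun z => by rw [real_inner_comm]; exact hι z
  have h2 : ⟪x, y⟫ = ⟪⟪u, x⟫ • u + ι (q ι x), ⟪u, y⟫ • u + ι (q ι y)⟫ := by
    rw [← decomp hu hι hs x, ← decomp hu hι hs y]
  rw [h2, inner_add_left, inner_add_right, inner_add_right, inner_smul_left, inner_smul_right,
    inner_smul_left, inner_smul_right, hι, h1, ι.inner_map_map, real_inner_self_eq_norm_sq, hu]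
  simp

/-- the planar projection -/
def Yset (u : E 3) (ι : E 2 →ₗᵢ[ℝ] E 3) : Set (E 2) := {y | ∃ t : ℝ, t • u + ι y ∈ Cube}

theorem Yset_eq_image (hu : ‖u‖ = 1) (hι : ∀ y, ⟪u, ι y⟫ = 0)
    (hs : Function.Surjective (fun p : ℝ × E 2 => p.1 • u + ι p.2)) :
    Yset u ι = q ι '' Cube := by
  ext y
  constructor
  · rintro ⟨t, ht⟩
    exact ⟨_, ht, q_coord hι t y⟩
  · rintro ⟨x, hx, rfl⟩
    refine ⟨⟪u, x⟫, ?_⟩
    rw [← decomp hu hι hs x]
    exact hx

theorem seg_mem (γ : E 2) (s : ℝ) (h0 : 0 ≤ s) (h1 : s ≤ 1) : s • γ ∈ segment ℝ (0 : E 2) γ := by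
  rw [segment_eq_image]
  exact ⟨s, ⟨h0, h1⟩, by simp⟩

theorem q_image (ι : E 2 →ₗᵢ[ℝ] E 3) : q ι '' Cube = segment ℝ 0 (q ι (EuclideanSpace.single 0 1)) +
    segment ℝ 0 (q ι (EuclideanSpace.single 1 1)) +
    segment ℝ 0 (q ι (EuclideanSpace.single 2 1)) := by
  ext y
  constructor
  · rintro ⟨x, hx, rfl⟩
    have h := cube_comb x
    rw [h, q_add, q_add, q_smul, q_smul, q_smul]
    exact add_mem_add (add_mem_add (seg_mem _ _ (hx 0).1 (hx 0).2) (seg_mem _ _ (hx 1).1 (hx 1).2))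
      (seg_mem _ _ (hx 2).1 (hx 2).2)
  · rintro ⟨_, ⟨a, ha, b, hb, rfl⟩, c, hc, rfl⟩
    rw [segment_eq_image] at ha hb hc
    obtain ⟨s, ⟨hs0, hs1⟩, rfl⟩ := ha
    obtain ⟨t, ⟨ht0, ht1⟩, rfl⟩ := hb
    obtain ⟨r, ⟨hr0, hr1⟩, rfl⟩ := hc
    refine ⟨s • EuclideanSpace.single 0 (1 : ℝ) + t • EuclideanSpace.single 1 (1 : ℝ) +
      r • EuclideanSpace.single 2 (1 : ℝ), ?_, ?_⟩
    · intro i
      fin_cases i
      · simp [hs0, hs1]
      · simp [ht0, ht1]
      · simp [hr0, hr1]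
    · simp only
      rw [q_add, q_add, q_smul, q_smul, q_smul]
      simp

/-- the sum of absolute coordinates -/
noncomputable def sA (u : E 3) : ℝ := |u 0| + |u 1| + |u 2|

/-- half the perimeter of the projection -/
noncomputable def sV (u : E 3) : ℝ :=
  √(1 - u 0 ^ 2) + √(1 - u 1 ^ 2) + √(1 - u 2 ^ 2)

theorem norm_q (hu : ‖u‖ = 1) (hι : ∀ y, ⟪u, ι y⟫ = 0)
    (hs : Function.Surjective (fun p : ℝ × E 2 => p.1 • u + ι p.2)) (i : Fin 3) :
    ‖q ι (EuclideanSpace.single i 1)‖ = √(1 - u i ^ 2) := by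
  have h : ‖q ι (EuclideanSpace.single i 1)‖ ^ 2 = 1 - u i ^ 2 := by
    rw [← real_inner_self_eq_norm_sq, inner_q hu hι hs]
    simp [EuclideanSpace.inner_single_right]
    ring
  rw [← h, Real.sqrt_sq (norm_nonneg _)]

theorem abs_wd_q (hu : ‖u‖ = 1) (hι : ∀ y, ⟪u, ι y⟫ = 0)
    (hs : Function.Surjective (fun p : ℝ × E 2 => p.1 • u + ι p.2)) (i j k : Fin 3)
    (hij : i ≠ j) (hsum : u i ^ 2 + u j ^ 2 + u k ^ 2 = 1) :
    |wd (q ι (EuclideanSpace.single i 1)) (q ι (EuclideanSpace.single j 1))| = |u k| := by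
  rw [← sq_eq_sq₀ (abs_nonneg _) (abs_nonneg _), sq_abs, sq_abs, wd_sq,
    ← real_inner_self_eq_norm_sq, ← real_inner_self_eq_norm_sq, inner_q hu hι hs,
    inner_q hu hι hs, inner_q hu hι hs]
  simp [EuclideanSpace.inner_single_right, hij.symm]
  nlinarith

theorem unit_sum (hu : ‖u‖ = 1) : u 0 ^ 2 + u 1 ^ 2 + u 2 ^ 2 = 1 := by
  have h : ‖u‖ ^ 2 = 1 := by rw [hu]; norm_num
  rw [EuclideanSpace.norm_sq_eq, Fin.sum_univ_three] at h
  simpa only [Real.norm_eq_abs, sq_abs] using h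

/-- area of the projection plus a disc -/
theorem area_Y (hu : ‖u‖ = 1) (hι : ∀ y, ⟪u, ι y⟫ = 0)
    (hs : Function.Surjective (fun p : ℝ × E 2 => p.1 • u + ι p.2)) (r : ℝ) (hr : 0 ≤ r) :
    V (closedBall (0 : E 2) r + Yset u ι) = sA u + 2 * r * sV u + Real.pi * r ^ 2 := by
  rw [Yset_eq_image hu hι hs, q_image, ← add_assoc, ← add_assoc, area3 _ _ _ r hr,
    abs_wd_q hu hι hs 1 0 2 (by decide) (by linarith [unit_sum hu]),
    abs_wd_q hu hι hs 2 0 1 (by decide) (by linarith [unit_sum hu]),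
    abs_wd_q hu hι hs 2 1 0 (by decide) (by linarith [unit_sum hu]),
    norm_q hu hι hs, norm_q hu hι hs, norm_q hu hι hs]
  unfold sA sV
  ring

theorem Yset_compact : IsCompact (q ι '' Cube) := by
  apply cube_compact.image
  unfold q
  have h1 : Continuous fun x : E 3 => ⟪ι (EuclideanSpace.single 0 1), x⟫ := by fun_prop
  have h2 : Continuous fun x : E 3 => ⟪ι (EuclideanSpace.single 1 1), x⟫ := by fun_prop
  have h3 : Continuous fun x : E 3 => (![⟪ι (EuclideanSpace.single 0 1), x⟫,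
      ⟪ι (EuclideanSpace.single 1 1), x⟫] : Fin 2 → ℝ) := by
    apply continuous_pi
    intro i
    fin_cases i
    · exact h1
    · exact h2
  exact (PiLp.continuous_toLp 2 _).comp h3

theorem integral_sqrt (t : ℝ) (ht : 0 ≤ t) :
    ∫ s in (-t)..t, √(t ^ 2 - s ^ 2) = Real.pi / 2 * t ^ 2 := by
  have h := intervalIntegral.smul_integral_comp_mul_left (a := (-1 : ℝ)) (b := 1)
    (fun s : ℝ => √(t ^ 2 - s ^ 2)) t
  rw [mul_neg, mul_one] at h
  rw [← h]
  have h2 : ∀ x : ℝ, √(t ^ 2 - (t * x) ^ 2) = t * √(1 - x ^ 2) := by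
    intro x
    have : t ^ 2 - (t * x) ^ 2 = t ^ 2 * (1 - x ^ 2) := by ring
    rw [this, Real.sqrt_mul (sq_nonneg t), Real.sqrt_sq ht]
  simp only [h2, intervalIntegral.integral_const_mul, integral_sqrt_one_sub_sq, smul_eq_mul]
  ring

/-- volume of the parallel body of the projection -/
theorem vol_parallel (hu : ‖u‖ = 1) (t : ℝ) (ht : 0 ≤ t) :
    V ((fun x : E 3 => x - (inner ℝ u x) • u) '' Cube + closedBall (0 : E 3) t) =
      2 * t * sA u + Real.pi * t ^ 2 * sV u + 4 / 3 * Real.pi * t ^ 3 := by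
  obtain ⟨ι, hι, hΨ, hs⟩ := exists_coord u hu
  set M : Set (E 3) := (fun x : E 3 => x - (inner ℝ u x) • u) '' Cube + closedBall (0 : E 3) t
    with hM
  have hMc : IsCompact M := (cube_compact.image (by fun_prop)).add (isCompact_closedBall _ _)
  have hMm : MeasurableSet M := hMc.isClosed.measurableSet
  have hYc : IsCompact (Yset u ι) := by
    rw [Yset_eq_image hu hι hs]; exact Yset_compact
  have hproj : ∀ x, x - (inner ℝ u x) • u = ι (q ι x) := by
    intro x
    conv_lhs => rw [decomp hu hι hs x]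
    rw [inner_coord hu hι]
    abel
  have hnorm : ∀ (s : ℝ) (y : E 2), ‖s • u + ι y‖ ^ 2 = s ^ 2 + ‖y‖ ^ 2 := by
    intro s y
    rw [norm_add_sq_real, norm_smul, hu, inner_smul_left, hι, ι.norm_map]
    simp
  have hmem : ∀ (s : ℝ) (y : E 2), s • u + ι y ∈ M ↔
      (s ∈ Icc (-t) t ∧ y ∈ closedBall (0 : E 2) √(t ^ 2 - s ^ 2) + Yset u ι) := by
    intro s y
    rw [Yset_eq_image hu hι hs]
    constructor
    · rintro ⟨_, ⟨x, hx, rfl⟩, b, hb, hxb⟩
      simp only [hproj] at hxb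
      have hb2 : b = s • u + ι (y - q ι x) := by
        rw [map_sub, eq_sub_of_add_eq' hxb]
        abel
      rw [mem_closedBall_zero_iff] at hb
      have h1 : s ^ 2 + ‖y - q ι x‖ ^ 2 ≤ t ^ 2 := by
        rw [← hnorm, ← hb2]
        exact pow_le_pow_left₀ (norm_nonneg _) hb 2
      refine ⟨?_, ?_⟩
      · exact abs_le.1 (abs_le_of_sq_le_sq (by nlinarith [sq_nonneg ‖y - q ι x‖]) ht)
      · refine ⟨y - q ι x, ?_, _, ⟨x, hx, rfl⟩, by simp⟩
        rw [mem_closedBall_zero_iff]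
        apply Real.le_sqrt_of_sq_le
        linarith
    · rintro ⟨hst, z, hz, _, ⟨x, hx, rfl⟩, rfl⟩
      rw [mem_closedBall_zero_iff] at hz
      refine ⟨_, ⟨x, hx, rfl⟩, s • u + ι z, ?_, ?_⟩
      · rw [mem_closedBall_zero_iff]
        apply le_of_sq_le_sq _ ht
        rw [hnorm]
        have hst2 : 0 ≤ t ^ 2 - s ^ 2 := by nlinarith [hst.1, hst.2]
        have := pow_le_pow_left₀ (norm_nonneg z) hz 2
        rw [Real.sq_sqrt hst2] at this
        linarith
      · simp only [hproj, map_add]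
        abel
  have hA0 : 0 ≤ sA u := by unfold sA; positivity
  have hV0 : 0 ≤ sV u := by unfold sV; positivity
  have hvol : volume M = ∫⁻ s in Icc (-t) t,
      ENNReal.ofReal (sA u + 2 * √(t ^ 2 - s ^ 2) * sV u + Real.pi * √(t ^ 2 - s ^ 2) ^ 2) := by
    rw [← hΨ.measure_preimage hMm.nullMeasurableSet, Measure.volume_eq_prod,
      Measure.prod_apply (hΨ.measurable hMm), ← lintegral_indicator measurableSet_Icc]
    apply lintegral_congr
    intro s
    by_cases hs2 : s ∈ Icc (-t) t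
    · rw [indicator_of_mem hs2]
      have h1 : Prod.mk s ⁻¹' ((fun p : ℝ × E 2 => p.1 • u + ι p.2) ⁻¹' M) =
          closedBall (0 : E 2) √(t ^ 2 - s ^ 2) + Yset u ι := by
        ext y
        simp only [mem_preimage]
        rw [hmem]
        simp [hs2.1, hs2.2]
      rw [h1, ← area_Y hu hι hs _ (Real.sqrt_nonneg _)]
      unfold V
      rw [ENNReal.ofReal_toReal]
      exact ((isCompact_closedBall _ _).add hYc).measure_lt_top.ne
    · rw [indicator_of_notMem hs2]
      have h1 : Prod.mk s ⁻¹' ((fun p : ℝ × E 2 => p.1 • u + ι p.2) ⁻¹' M) = ∅ := by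
        ext y
        simp only [mem_preimage]
        rw [hmem]
        simp only [hs2, false_and, mem_empty_iff_false]
      rw [h1, measure_empty]
  have hcont : Continuous fun s : ℝ =>
      (sA u + 2 * √(t ^ 2 - s ^ 2) * sV u + Real.pi * √(t ^ 2 - s ^ 2) ^ 2) := by fun_prop
  unfold V
  rw [hvol, ← ofReal_integral_eq_lintegral_ofReal (hcont.integrableOn_Icc)
    (Filter.Eventually.of_forall fun s => by positivity), ENNReal.toReal_ofReal
    (integral_nonneg fun s => by positivity), integral_Icc_eq_integral_Ioc,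
    ← intervalIntegral.integral_of_le (by linarith)]
  have hcongr : ∫ s in (-t)..t, (sA u + 2 * √(t ^ 2 - s ^ 2) * sV u +
      Real.pi * √(t ^ 2 - s ^ 2) ^ 2) = ∫ s in (-t)..t, (sA u + (2 * sV u) * √(t ^ 2 - s ^ 2) +
      Real.pi * (t ^ 2 - s ^ 2)) := by
    apply intervalIntegral.integral_congr
    intro s hs2
    rw [uIcc_of_le (by linarith)] at hs2
    have hst2 : 0 ≤ t ^ 2 - s ^ 2 := by nlinarith [hs2.1, hs2.2]
    simp only
    rw [Real.sq_sqrt hst2]
    ring
  rw [hcongr, intervalIntegral.integral_add, intervalIntegral.integral_add,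
    intervalIntegral.integral_const_mul, intervalIntegral.integral_const_mul, integral_sqrt t ht,
    intervalIntegral.integral_sub]
  · simp only [intervalIntegral.integral_const, integral_pow, smul_eq_mul]
    ring
  all_goals exact Continuous.intervalIntegrable (by fun_prop) _ _

/-- volume swept by the unit segment -/
theorem vol_swept (hu : ‖u‖ = 1) :
    V (Cube + segment ℝ (0 : E 3) u) = V Cube + sA u := by
  obtain ⟨ι, hι, hΨ, hs⟩ := exists_coord u hu
  obtain ⟨hYc, key⟩ := sweepY Cube cube_convex cube_compact u hu 1 zero_le_one ι hι hΨ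
  have h0 := area_Y hu hι hs 0 le_rfl
  simp only [closedBall_zero, singleton_add] at h0
  rw [one_smul] at key
  have h1 : V (Yset u ι) = sA u := by
    simpa using h0
  unfold V at *
  rw [key, ENNReal.toReal_add cube_compact.measure_lt_top.ne
    (ENNReal.mul_ne_top ENNReal.ofReal_ne_top hYc.measure_lt_top.ne), ENNReal.ofReal_one, one_mul]
  congr 1

end proj

end Pool.Agent.V11187.Zono
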