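import Mathlib
import Pool.Agent.V11187.ZonoCube

set_option autoImplicit false

/-! The cube against its projections. -/

open MeasureTheory Metric Set Filter Topology
open scoped Pointwise ENNReal RealInnerProductSpace

namespace Pool.Agent.V11187.Zono

open Pool.Agent.Helper873.PBody (E V exists_coord)

/-- coordinate box -/
def Bx (a b : Fin 3 → ℝ) : Set (E 3) := {x | ∀ i, a i ≤ x i ∧ x i ≤ b i}

theorem Bx_eq (a b : Fin 3 → ℝ) : Bx a b = (fun x : E 3 => WithLp.ofLp x) ⁻¹' (Icc a b) := by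
  ext x
  simp [Bx, Pi.le_def, forall_and]

theorem meas_Bx (a b : Fin 3 → ℝ) : MeasurableSet (Bx a b) := by
  rw [Bx_eq]
  exact (PiLp.volume_preserving_ofLp (Fin 3)).measurable measurableSet_Icc

theorem vol_Bx (a b : Fin 3 → ℝ) (h : ∀ i, a i ≤ b i) :
    volume (Bx a b) = ENNReal.ofReal (∏ i, (b i - a i)) := by
  rw [Bx_eq, (PiLp.volume_preserving_ofLp (Fin 3)).measure_preimage
    measurableSet_Icc.nullMeasurableSet, Real.volume_Icc_pi,
    ENNReal.ofReal_prod_of_nonneg (fun i _ => sub_nonneg.2 (h i))]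

theorem cube_eq : Cube = Bx (fun _ => 0) (fun _ => 1) := rfl

theorem vol_cube : volume Cube = 1 := by
  rw [cube_eq, vol_Bx _ _ (fun _ => zero_le_one)]
  simp

theorem coord_le (x : E 3) (i : Fin 3) : |x i| ≤ ‖x‖ := by
  have h : x i ^ 2 ≤ ‖x‖ ^ 2 := by
    rw [EuclideanSpace.norm_sq_eq]
    have := Finset.single_le_sum (f := fun j => ‖x j‖ ^ 2) (fun j _ => sq_nonneg _)
      (Finset.mem_univ i)
    simpa only [Real.norm_eq_abs, sq_abs] using this
  exact abs_le_of_sq_le_sq h (norm_nonneg x)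

theorem upper_sub (t : ℝ) : Cube + closedBall (0 : E 3) t ⊆
    Bx (fun _ => -t) (fun _ => 1 + t) := by
  rintro _ ⟨x, hx, b, hb, rfl⟩ i
  rw [mem_closedBall_zero_iff] at hb
  have h1 := abs_le.1 ((coord_le b i).trans hb)
  have h2 := hx i
  simp only [PiLp.add_apply]
  constructor <;> linarith

/-- the slab thickened in the coordinate `i` -/
noncomputable def Bi (t : ℝ) (i : Fin 3) : Set (E 3) :=
  Bx (fun j => if j = i then -t else 0) (fun j => if j = i then 1 + t else 1)

theorem lower_sub (t : ℝ) (ht : 0 ≤ t) (i : Fin 3) : Bi t i ⊆ Cube + closedBall (0 : E 3) t := by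
  intro x hx
  set c : ℝ := max 0 (min 1 (x i)) with hc
  have hi := hx i
  simp only [if_true] at hi
  have hc0 : 0 ≤ c := le_max_left _ _
  have hc1 : c ≤ 1 := max_le zero_le_one (min_le_left _ _)
  have hd : |x i - c| ≤ t := by
    rw [abs_le]
    rcases le_total (x i) 0 with h | h
    · have : c = 0 := by rw [hc]; exact max_eq_left ((min_le_right _ _).trans h)
      rw [this]; constructor <;> linarith [hi.1]
    · rcases le_total (x i) 1 with h' | h'
      · have : c = x i := by rw [hc, min_eq_right h', max_eq_right h]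
        rw [this]; constructor <;> linarith
      · have : c = 1 := by rw [hc, min_eq_left h', max_eq_right zero_le_one]
        rw [this]; constructor <;> linarith [hi.2]
  refine ⟨x - (x i - c) • EuclideanSpace.single i (1 : ℝ), ?_,
    (x i - c) • EuclideanSpace.single i (1 : ℝ), ?_, by simp⟩
  · intro j
    by_cases hj : j = i
    · subst hj
      simp [hc0, hc1]
    · have h2 := hx j
      simp only [hj, if_false] at h2
      simpa [hj] using h2
  · rw [mem_closedBall_zero_iff, norm_smul]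
    simpa using hd

theorem vol_Bi (t : ℝ) (ht : 0 ≤ t) (i : Fin 3) :
    volume (Bi t i) = ENNReal.ofReal (1 + 2 * t) := by
  unfold Bi
  rw [vol_Bx]
  · congr 1
    fin_cases i <;> simp [Fin.prod_univ_three] <;> ring
  · intro j
    by_cases hj : j = i
    · simp [hj]; linarith
    · simp [hj]

theorem cube_sub_Bi (t : ℝ) (ht : 0 ≤ t) (i : Fin 3) : Cube ⊆ Bi t i := by
  intro x hx j
  have h := hx j
  by_cases hj : j = i
  · simp only [hj, if_true]
    rw [hj] at h
    constructor <;> linarith [h.1, h.2]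
  · simp only [hj, if_false]
    exact h

theorem Bi_inter (t : ℝ) (ht : 0 ≤ t) (i j : Fin 3) (hij : i ≠ j) : Bi t i ∩ Bi t j = Cube := by
  apply Subset.antisymm
  · rintro x ⟨h1, h2⟩ k
    by_cases hk : k = i
    · have := h2 k
      have hkj : k ≠ j := by rw [hk]; exact hij
      simpa [hkj] using this
    · have := h1 k
      simpa [hk] using this
  · exact subset_inter (cube_sub_Bi t ht i) (cube_sub_Bi t ht j)

theorem lower_vol (t : ℝ) (ht : 0 ≤ t) : 1 + 6 * t ≤ V (Cube + closedBall (0 : E 3) t) := by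
  have hm : ∀ i, MeasurableSet (Bi t i) := fun i => meas_Bx _ _
  have hfin : ∀ i, volume (Bi t i) ≠ ⊤ := fun i => by
    rw [vol_Bi t ht]; exact ENNReal.ofReal_ne_top
  have hr : ∀ i, (volume (Bi t i)).toReal = 1 + 2 * t := fun i => by
    rw [vol_Bi t ht, ENNReal.toReal_ofReal (by linarith)]
  have h1 := measure_union_add_inter (μ := volume) (Bi t 0) (hm 1)
  rw [Bi_inter t ht 0 1 (by decide), vol_cube] at h1
  have h2 := measure_union_add_inter (μ := volume) (Bi t 0 ∪ Bi t 1) (hm 2)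
  have h3 : (Bi t 0 ∪ Bi t 1) ∩ Bi t 2 = Cube := by
    rw [union_inter_distrib_right, Bi_inter t ht 0 2 (by decide), Bi_inter t ht 1 2 (by decide),
      union_self]
  rw [h3, vol_cube] at h2
  have hf1 : volume (Bi t 0 ∪ Bi t 1) ≠ ⊤ :=
    ((measure_union_le _ _).trans_lt (ENNReal.add_lt_top.2 ⟨(hfin 0).lt_top, (hfin 1).lt_top⟩)).ne
  have hf2 : volume (Bi t 0 ∪ Bi t 1 ∪ Bi t 2) ≠ ⊤ :=
    ((measure_union_le _ _).trans_lt (ENNReal.add_lt_top.2 ⟨hf1.lt_top, (hfin 2).lt_top⟩)).ne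
  have e1 := congrArg ENNReal.toReal h1
  have e2 := congrArg ENNReal.toReal h2
  rw [ENNReal.toReal_add hf1 ENNReal.one_ne_top, ENNReal.toReal_add (hfin 0) (hfin 1), hr, hr] at e1
  rw [ENNReal.toReal_add hf2 ENNReal.one_ne_top, ENNReal.toReal_add hf1 (hfin 2), hr] at e2
  simp only [ENNReal.toReal_one] at e1 e2
  have hsub : Bi t 0 ∪ Bi t 1 ∪ Bi t 2 ⊆ Cube + closedBall (0 : E 3) t :=
    union_subset (union_subset (lower_sub t ht 0) (lower_sub t ht 1)) (lower_sub t ht 2)
  have hc : IsCompact (Cube + closedBall (0 : E 3) t) :=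
    cube_compact.add (isCompact_closedBall _ _)
  have := ENNReal.toReal_mono (hc.measure_lt_top (μ := volume)).ne (measure_mono hsub)
  unfold V
  linarith

theorem upper_vol (t : ℝ) (ht : 0 ≤ t) : V (Cube + closedBall (0 : E 3) t) ≤ (1 + 2 * t) ^ 3 := by
  have h := measure_mono (μ := volume) (upper_sub t)
  rw [vol_Bx _ _ (fun _ => by linarith)] at h
  have h2 := ENNReal.toReal_mono ENNReal.ofReal_ne_top h
  unfold V
  refine h2.trans (le_of_eq ?_)
  rw [ENNReal.toReal_ofReal (Finset.prod_nonneg fun _ _ => by linarith)]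
  simp
  ring

theorem surface_limit : Tendsto (fun t : ℝ =>
    ((volume (Cube + closedBall (0 : E 3) t)).toReal - (volume Cube).toReal) / (2 * t))
    (𝓝[>] 0) (𝓝 3) := by
  have hl : Tendsto (fun _ : ℝ => (3 : ℝ)) (𝓝[>] 0) (𝓝 3) := tendsto_const_nhds
  have hu : Tendsto (fun t : ℝ => 3 + 6 * t + 4 * t ^ 2) (𝓝[>] 0) (𝓝 3) := by
    have : Continuous fun t : ℝ => 3 + 6 * t + 4 * t ^ 2 := by fun_prop
    have h := this.tendsto 0
    simp only [mul_zero, add_zero, ne_eq, OfNat.ofNat_ne_zero, not_false_eq_true, zero_pow] at h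
    exact h.mono_left nhdsWithin_le_nhds
  refine tendsto_of_tendsto_of_tendsto_of_le_of_le' hl hu ?_ ?_
  · filter_upwards [self_mem_nhdsWithin] with t ht
    have ht0 : 0 < t := ht
    rw [le_div_iff₀ (by linarith), vol_cube]
    have := lower_vol t ht0.le
    unfold V at this
    simp only [ENNReal.toReal_one]
    linarith
  · filter_upwards [self_mem_nhdsWithin] with t ht
    have ht0 : 0 < t := ht
    rw [div_le_iff₀ (by linarith), vol_cube]
    have := upper_vol t ht0.le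
    unfold V at this
    simp only [ENNReal.toReal_one]
    nlinarith

theorem width_limit (u : E 3) (hu : ‖u‖ = 1) : Tendsto (fun t : ℝ =>
    ((volume ((fun x : E 3 => x - (inner ℝ u x) • u) '' Cube + closedBall (0 : E 3) t)).toReal
      - 2 * t * ((volume (Cube + segment ℝ (0 : E 3) u)).toReal - (volume Cube).toReal))
      / (Real.pi * t ^ 2)) (𝓝[>] 0) (𝓝 (sV u)) := by
  have h0 : Tendsto (fun t : ℝ => sV u + 4 / 3 * t) (𝓝[>] 0) (𝓝 (sV u)) := by
    have : Continuous fun t : ℝ => sV u + 4 / 3 * t := by fun_prop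
    have h := this.tendsto 0
    simp only [mul_zero, add_zero] at h
    exact h.mono_left nhdsWithin_le_nhds
  refine h0.congr' ?_
  filter_upwards [self_mem_nhdsWithin] with t ht
  have ht0 : 0 < t := ht
  have h1 := vol_parallel hu t ht0.le
  have h2 := vol_swept hu
  unfold V at h1 h2
  rw [h1, h2]
  have hpi := Real.pi_pos
  field_simp
  ring

theorem one_le_sA {u : E 3} (hu : ‖u‖ = 1) : 1 ≤ sA u := by
  have h := unit_sum hu
  have h0 : 0 ≤ sA u := by unfold sA; positivity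
  have : 1 ≤ sA u ^ 2 := by
    unfold sA
    have a0 := abs_nonneg (u 0)
    have a1 := abs_nonneg (u 1)
    have a2 := abs_nonneg (u 2)
    have e0 := sq_abs (u 0)
    have e1 := sq_abs (u 1)
    have e2 := sq_abs (u 2)
    nlinarith [mul_nonneg a0 a1, mul_nonneg a0 a2, mul_nonneg a1 a2]
  nlinarith

theorem sq_le_mul {a : ℝ} (ha : 0 ≤ a) (h : a < 0.96) : a ^ 2 ≤ 0.96 * a := by nlinarith

theorem small_of_big {a p : ℝ} (ha : 0.96 ≤ a) (hp : p ^ 2 = 1 - a ^ 2) : p ≤ 0.3 := by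
  by_contra hcon
  push Not at hcon
  nlinarith

theorem le_one_of {a p : ℝ} (hp : p ^ 2 = 1 - a ^ 2) : p ≤ 1 := by
  by_contra hcon
  push Not at hcon
  nlinarith [sq_nonneg a]

theorem real_ineq (a b c p q r : ℝ) (ha : 0 ≤ a) (hb : 0 ≤ b) (hc : 0 ≤ c)
    (hp0 : 0 ≤ p) (hq0 : 0 ≤ q) (hr0 : 0 ≤ r) (h : a ^ 2 + b ^ 2 + c ^ 2 = 1)
    (h1 : 1 ≤ a + b + c)
    (hp : p ^ 2 = 1 - a ^ 2) (hq : q ^ 2 = 1 - b ^ 2) (hr : r ^ 2 = 1 - c ^ 2) :
    (p + q + r) ^ 2 ≤ 5.8 * (a + b + c) := by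
  have hpqr : (p + q + r) ^ 2 ≤ 6 := by
    nlinarith [sq_nonneg (p - q), sq_nonneg (p - r), sq_nonneg (q - r)]
  by_cases hs : 1.0345 ≤ a + b + c
  · linarith
  push Not at hs
  have hbig : 0.96 ≤ a ∨ 0.96 ≤ b ∨ 0.96 ≤ c := by
    by_contra hcon
    push Not at hcon
    obtain ⟨c0, c1, c2⟩ := hcon
    have f0 := sq_le_mul ha c0
    have f1 := sq_le_mul hb c1
    have f2 := sq_le_mul hc c2
    linarith
  have p1 := le_one_of hp
  have q1 := le_one_of hq
  have r1 := le_one_of hr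
  have key : p + q + r ≤ 2.3 := by
    rcases hbig with c | c | c
    · have := small_of_big c hp
      linarith
    · have := small_of_big c hq
      linarith
    · have := small_of_big c hr
      linarith
  have h3 : 0 ≤ p + q + r := by positivity
  have h4 : (p + q + r) ^ 2 ≤ 2.3 ^ 2 := pow_le_pow_left₀ h3 key 2
  norm_num at h4 ⊢
  linarith

/-- the planar isoperimetric inequality for the hexagons -/
theorem main_ineq {u : E 3} (hu : ‖u‖ = 1) : sV u ^ 2 ≤ 5.8 * sA u := by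
  have h := unit_sum hu
  have b0 : 0 ≤ 1 - u 0 ^ 2 := by nlinarith [sq_nonneg (u 1), sq_nonneg (u 2)]
  have b1 : 0 ≤ 1 - u 1 ^ 2 := by nlinarith [sq_nonneg (u 0), sq_nonneg (u 2)]
  have b2 : 0 ≤ 1 - u 2 ^ 2 := by nlinarith [sq_nonneg (u 0), sq_nonneg (u 1)]
  exact real_ineq _ _ _ _ _ _ (abs_nonneg _) (abs_nonneg _) (abs_nonneg _) (Real.sqrt_nonneg _)
    (Real.sqrt_nonneg _) (Real.sqrt_nonneg _) (by simpa only [sq_abs] using h) (one_le_sA hu)
    (by rw [Real.sq_sqrt b0, sq_abs]) (by rw [Real.sq_sqrt b1, sq_abs])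
    (by rw [Real.sq_sqrt b2, sq_abs])

theorem sV_pos {u : E 3} (hu : ‖u‖ = 1) : 0 < sV u := by
  have h := unit_sum hu
  have b0 : 0 ≤ 1 - u 0 ^ 2 := by nlinarith [sq_nonneg (u 1), sq_nonneg (u 2)]
  have b1 : 0 ≤ 1 - u 1 ^ 2 := by nlinarith [sq_nonneg (u 0), sq_nonneg (u 2)]
  have b2 : 0 ≤ 1 - u 2 ^ 2 := by nlinarith [sq_nonneg (u 0), sq_nonneg (u 1)]
  have r0 := Real.sq_sqrt b0
  have r1 := Real.sq_sqrt b1
  have r2 := Real.sq_sqrt b2
  have n0 := Real.sqrt_nonneg (1 - u 0 ^ 2)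
  have n1 := Real.sqrt_nonneg (1 - u 1 ^ 2)
  have n2 := Real.sqrt_nonneg (1 - u 2 ^ 2)
  unfold sV
  by_contra hcon
  push Not at hcon
  have z0 : √(1 - u 0 ^ 2) = 0 := by linarith
  have z1 : √(1 - u 1 ^ 2) = 0 := by linarith
  have z2 : √(1 - u 2 ^ 2) = 0 := by linarith
  rw [z0] at r0
  rw [z1] at r1
  rw [z2] at r2
  nlinarith

theorem cube_interior : (interior Cube).Nonempty := by
  have h : closedBall (!₂[1/2, 1/2, 1/2] : E 3) (1 / 2) ⊆ Cube := by
    intro x hx i
    rw [mem_closedBall, dist_eq_norm] at hx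
    have h1 := (coord_le (x - !₂[1/2, 1/2, 1/2]) i).trans hx
    have h2 : (x - !₂[1/2, 1/2, 1/2] : E 3) i = x i - 1 / 2 := by
      fin_cases i <;> simp
    rw [h2, abs_le] at h1
    constructor <;> linarith [h1.1, h1.2]
  exact ⟨_, interior_mono h (ball_subset_interior_closedBall (mem_ball_self (by norm_num)))⟩

end Pool.Agent.V11187.Zono
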