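import Mathlib

set_option autoImplicit false

/-! A continuous positively homogeneous function on `R^3` whose values at every three coplanar unit
vectors with pairwise angles `120` degrees add up to zero is linear. -/

open MeasureTheory Metric Set Filter Topology
open scoped Pointwise ENNReal RealInnerProductSpace

namespace Pool.Agent.V11187.Rotor

abbrev E3 := EuclideanSpace ℝ (Fin 3)

/-! ### a one-variable Cauchy equation -/

theorem cauchy_half (g : ℝ → ℝ) (hg : Continuous g)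
    (hadd : ∀ x y : ℝ, |x| ≤ 1 / 2 → |y| ≤ 1 / 2 → g (x + y) = g x + g y) (h1 : g (1 / 2) = 0) :
    ∀ t : ℝ, |t| ≤ 1 / 2 → g t = 0 := by
  obtain ⟨t0, ht0, hmax⟩ := (isCompact_Icc (a := (-(1 / 2) : ℝ)) (b := 1 / 2)).exists_isMaxOn
    ⟨0, by norm_num⟩ (hg.abs.continuousOn)
  have hM : ∀ t, |t| ≤ 1 / 2 → |g t| ≤ |g t0| := fun t ht => hmax (abs_le.1 ht)
  have hodd : ∀ t, |t| ≤ 1 / 2 → g (-t) = - g t := by
    intro t ht
    have h0 : g 0 = 0 := by
      have := hadd 0 0 (by norm_num) (by norm_num)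
      rw [add_zero] at this
      linarith
    have := hadd t (-t) ht (by rwa [abs_neg])
    rw [add_neg_cancel, h0] at this
    linarith
  -- doubling
  have hdouble : ∀ t, |t| ≤ 1 / 4 → |g t| = |g t0| → g t0 = 0 := by
    intro t ht he
    have h2 := hadd t t (by linarith) (by linarith)
    have h3 : |t + t| ≤ 1 / 2 := by
      have := abs_add_le t t
      linarith
    have h4 := hM (t + t) h3
    rw [h2, ← two_mul, abs_mul, abs_two, he] at h4
    have := abs_nonneg (g t0)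
    have h5 : |g t0| = 0 := by linarith
    exact abs_eq_zero.1 h5
  have hz : g t0 = 0 := by
    have ht0' : |t0| ≤ 1 / 2 := abs_le.2 ht0
    by_cases hs : |t0| ≤ 1 / 4
    · exact hdouble t0 hs rfl
    · push Not at hs
      rcases le_total 0 t0 with h | h
      · rw [abs_of_nonneg h] at hs ht0'
        have h6 := hadd (1 / 2 - t0) t0 (by rw [abs_le]; constructor <;> linarith)
          (by rw [abs_of_nonneg h]; exact ht0')
        rw [sub_add_cancel, h1] at h6
        refine hdouble (1 / 2 - t0) (by rw [abs_le]; constructor <;> linarith) ?_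
        rw [show g (1 / 2 - t0) = - g t0 by linarith, abs_neg]
      · rw [abs_of_nonpos h] at hs ht0'
        have h6 := hadd (1 / 2 - (-t0)) (-t0) (by rw [abs_le]; constructor <;> linarith)
          (by rw [abs_neg, abs_of_nonpos h]; exact ht0')
        rw [sub_add_cancel, h1, hodd t0 (by rw [abs_of_nonpos h]; exact ht0')] at h6
        refine hdouble (1 / 2 - (-t0)) (by rw [abs_le]; constructor <;> linarith) ?_
        rw [show g (1 / 2 - (-t0)) = g t0 by linarith]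
  intro t ht
  have := hM t ht
  rw [hz, abs_zero] at this
  exact abs_eq_zero.1 (le_antisymm this (abs_nonneg _))

/-- the functional equation of the zonal means -/
theorem cauchy_disc (φ : ℝ → ℝ) (hφ : Continuous φ)
    (h : ∀ a b : ℝ, a ^ 2 + b ^ 2 ≤ 1 →
      φ a + φ (-(1 / 2) * a + √3 / 2 * b) + φ (-(1 / 2) * a - √3 / 2 * b) = 0) :
    ∀ t : ℝ, |t| ≤ 1 → φ t = t * φ 1 := by
  have h3 : (√3) ^ 2 = 3 := Real.sq_sqrt (by norm_num)
  have h3pos : 0 < √3 := Real.sqrt_pos.2 (by norm_num)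
  -- halving
  have hhalf : ∀ a, |a| ≤ 1 → φ a = -2 * φ (-(a / 2)) := by
    intro a ha
    have ha2 : a ^ 2 ≤ 1 := by
      have := sq_le_sq.2 (show |a| ≤ |(1 : ℝ)| by simpa using ha)
      simpa using this
    have := h a 0 (by simpa using ha2)
    simp only [mul_zero, add_zero, sub_zero] at this
    rw [show -(1 / 2) * a = -(a / 2) by ring] at this
    linarith
  have hodd1 : ∀ x, |x| ≤ 1 / 2 → φ (-x) = - φ x := by
    intro x hx
    have hx2 : x ^ 2 ≤ 1 / 4 := by
      have := sq_le_sq.2 (show |x| ≤ |(1 / 2 : ℝ)| by rw [abs_of_pos (by norm_num : (0 : ℝ) < 1 / 2)]; exact hx)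
      linarith
    have h0 : φ 0 = 0 := by
      have := h 0 0 (by norm_num)
      simp only [mul_zero, add_zero, sub_zero] at this
      linarith
    have := h 0 (2 * x / √3) (by
      rw [div_pow, h3]
      nlinarith)
    rw [h0] at this
    have e1 : -(1 / 2) * 0 + √3 / 2 * (2 * x / √3) = x := by field_simp; ring
    have e2 : -(1 / 2) * 0 - √3 / 2 * (2 * x / √3) = -x := by field_simp; ring
    rw [e1, e2] at this
    linarith
  have hdbl : ∀ a, |a| ≤ 1 → φ a = 2 * φ (a / 2) := by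
    intro a ha
    rw [hhalf a ha, hodd1 (a / 2) (by rw [abs_div, abs_two]; linarith)]
    ring
  have hodd : ∀ x, |x| ≤ 1 → φ (-x) = - φ x := by
    intro x hx
    rw [hdbl (-x) (by rwa [abs_neg]), hdbl x hx, neg_div,
      hodd1 (x / 2) (by rw [abs_div, abs_two]; linarith)]
    ring
  have hadd : ∀ x y : ℝ, |x| ≤ 1 / 2 → |y| ≤ 1 / 2 → φ (x + y) = φ x + φ y := by
    intro x y hx hy
    obtain ⟨hx1, hx2⟩ := abs_le.1 hx
    obtain ⟨hy1, hy2⟩ := abs_le.1 hy
    have := h (-(x + y)) ((x - y) / √3) (by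
      rw [div_pow, h3]
      nlinarith [mul_nonneg (sub_nonneg.2 hx2) (sub_nonneg.2 hy2),
        mul_nonneg (sub_nonneg.2 hx2) (by linarith : (0 : ℝ) ≤ x + 1 / 2),
        mul_nonneg (sub_nonneg.2 hy2) (by linarith : (0 : ℝ) ≤ y + 1 / 2),
        mul_nonneg (by linarith : (0 : ℝ) ≤ x + 1 / 2) (by linarith : (0 : ℝ) ≤ y + 1 / 2)])
    have e1 : -(1 / 2) * -(x + y) + √3 / 2 * ((x - y) / √3) = x := by field_simp; ring
    have e2 : -(1 / 2) * -(x + y) - √3 / 2 * ((x - y) / √3) = y := by field_simp; ring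
    rw [e1, e2, hodd (x + y) (by rw [abs_le]; constructor <;> linarith)] at this
    linarith
  have hlin : ∀ t : ℝ, |t| ≤ 1 / 2 → φ t = t * φ 1 := by
    intro t ht
    have key := cauchy_half (fun t => φ t - t * φ 1) (by fun_prop) (fun x y hx hy => by
      show φ (x + y) - (x + y) * φ 1 = (φ x - x * φ 1) + (φ y - y * φ 1)
      rw [hadd x y hx hy]; ring) (by
      show φ (1 / 2) - 1 / 2 * φ 1 = 0
      have := hdbl 1 (by norm_num)
      linarith) t ht
    have key2 : φ t - t * φ 1 = 0 := key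
    linarith
  intro t ht
  rw [hdbl t ht, hlin (t / 2) (by rw [abs_div, abs_two]; linarith)]
  ring

/-! ### rotations about an axis -/

section rot

variable (b : OrthonormalBasis (Fin 3) ℝ E3)

theorem bb (i j : Fin 3) : ⟪b i, b j⟫ = if i = j then 1 else 0 := by
  simpa using (orthonormal_iff_ite.1 b.orthonormal) i j

theorem norm_sq_coord (x : E3) : ‖x‖ ^ 2 = ⟪b 0, x⟫ ^ 2 + ⟪b 1, x⟫ ^ 2 + ⟪b 2, x⟫ ^ 2 := by
  have := b.sum_sq_norm_inner_right x
  rw [Fin.sum_univ_three] at this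
  rw [← this]
  simp only [Real.norm_eq_abs, sq_abs]

/-- rotation about `b 2`, with cosine `c` and sine `s` -/
noncomputable def rotL (c s : ℝ) : E3 →ₗ[ℝ] E3 where
  toFun x := (c * ⟪b 0, x⟫ - s * ⟪b 1, x⟫) • b 0 + (s * ⟪b 0, x⟫ + c * ⟪b 1, x⟫) • b 1 +
    ⟪b 2, x⟫ • b 2
  map_add' x y := by
    simp only [inner_add_right]; module
  map_smul' r x := by
    simp only [inner_smul_right, RingHom.id_apply]; module

theorem rotL_apply (c s : ℝ) (x : E3) : rotL b c s x =
    (c * ⟪b 0, x⟫ - s * ⟪b 1, x⟫) • b 0 + (s * ⟪b 0, x⟫ + c * ⟪b 1, x⟫) • b 1 + ⟪b 2, x⟫ • b 2 := rfl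

theorem rotL_coord (c s : ℝ) (x : E3) :
    ⟪b 0, rotL b c s x⟫ = c * ⟪b 0, x⟫ - s * ⟪b 1, x⟫ ∧
    ⟪b 1, rotL b c s x⟫ = s * ⟪b 0, x⟫ + c * ⟪b 1, x⟫ ∧
    ⟪b 2, rotL b c s x⟫ = ⟪b 2, x⟫ := by
  rw [rotL_apply]
  refine ⟨?_, ?_, ?_⟩ <;> simp [inner_add_right, inner_smul_right, bb]

/-- the rotation as an isometry -/
noncomputable def rotI (c s : ℝ) (h : c ^ 2 + s ^ 2 = 1) : E3 ≃ₗᵢ[ℝ] E3 :=
  LinearIsometry.toLinearIsometryEquiv
    { toLinearMap := rotL b c s
      norm_map' := fun x => by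
        obtain ⟨h0, h1, h2⟩ := rotL_coord b c s x
        have e : ‖rotL b c s x‖ ^ 2 = ‖x‖ ^ 2 := by
          rw [norm_sq_coord b, norm_sq_coord b x, h0, h1, h2]
          linear_combination (⟪b 0, x⟫ ^ 2 + ⟪b 1, x⟫ ^ 2) * h
        exact (pow_left_inj₀ (norm_nonneg _) (norm_nonneg _) (two_ne_zero)).1 e } rfl

theorem rotI_apply (c s : ℝ) (h : c ^ 2 + s ^ 2 = 1) (x : E3) : rotI b c s h x = rotL b c s x := rfl

/-- mean over the rotations about `b 2` (times `2 pi`) -/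
noncomputable def zon (f : E3 → ℝ) (x : E3) : ℝ :=
  ∫ ψ in (0 : ℝ)..(2 * Real.pi), f (rotL b (Real.cos ψ) (Real.sin ψ) x)

/-- mean over a parallel circle of the unit sphere (times `2 pi`) -/
noncomputable def circ (f : E3 → ℝ) (t : ℝ) : ℝ :=
  ∫ ψ in (0 : ℝ)..(2 * Real.pi),
    f ((√(1 - t ^ 2) * Real.cos ψ) • b 0 + (√(1 - t ^ 2) * Real.sin ψ) • b 1 + t • b 2)

theorem circ_continuous (f : E3 → ℝ) (hf : Continuous f) : Continuous (circ b f) := by
  unfold circ
  apply intervalIntegral.continuous_parametric_intervalIntegral_of_continuous'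
  apply hf.comp
  fun_prop

theorem circ_one (f : E3 → ℝ) : circ b f 1 = 2 * Real.pi * f (b 2) := by
  unfold circ
  simp

theorem zon_eq_circ (f : E3 → ℝ) (x : E3) (hx : ‖x‖ = 1) : zon b f x = circ b f ⟪b 2, x⟫ := by
  obtain ⟨δ, h0, h1⟩ : ∃ δ : ℝ, ⟪b 0, x⟫ = √(1 - ⟪b 2, x⟫ ^ 2) * Real.cos δ ∧
      ⟪b 1, x⟫ = √(1 - ⟪b 2, x⟫ ^ 2) * Real.sin δ := by
    have hn := norm_sq_coord b x
    rw [hx] at hn
    set z : ℂ := ⟨⟪b 0, x⟫, ⟪b 1, x⟫⟩ with hz
    have hz1 : ‖z‖ = √(1 - ⟪b 2, x⟫ ^ 2) := by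
      rw [Complex.norm_def, Complex.normSq_apply]
      congr 1
      simp only [hz]
      linarith
    refine ⟨z.arg, ?_, ?_⟩
    · rw [← hz1, Complex.norm_mul_cos_arg]
    · rw [← hz1, Complex.norm_mul_sin_arg]
  unfold zon circ
  set g : ℝ → ℝ := fun ψ => f ((√(1 - ⟪b 2, x⟫ ^ 2) * Real.cos ψ) • b 0 +
    (√(1 - ⟪b 2, x⟫ ^ 2) * Real.sin ψ) • b 1 + ⟪b 2, x⟫ • b 2) with hg
  have hper : Function.Periodic g (2 * Real.pi) := by
    intro ψ
    simp only [hg, Real.cos_add_two_pi, Real.sin_add_two_pi]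
  have e1 : ∀ ψ : ℝ, f (rotL b (Real.cos ψ) (Real.sin ψ) x) = g (ψ + δ) := by
    intro ψ
    simp only [hg, rotL_apply, Real.cos_add, Real.sin_add]
    rw [h0, h1]
    congr 1
    congr 2
    · congr 1; ring
    · congr 1; ring
  simp only [e1]
  rw [intervalIntegral.integral_comp_add_right (f := g), zero_add]
  have h2 := hper.intervalIntegral_add_eq δ 0
  rw [zero_add] at h2
  rw [add_comm (2 * Real.pi) δ, h2]

end rot

end Pool.Agent.V11187.Rotor
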