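import Pool.Agent.V11187.RotorLin

set_option autoImplicit false

/-! Support functions of compact sets and rotations taking an orthonormal pair to another. -/

open MeasureTheory Metric Set Filter Topology
open scoped Pointwise ENNReal RealInnerProductSpace

namespace Pool.Agent.V11187.Rotor

/-- support function -/
noncomputable def hs (K : Set E3) (y : E3) : ℝ := sSup ((fun x => ⟪y, x⟫) '' K)

section supp

variable {K : Set E3} (hK : IsCompact K) (hne : K.Nonempty)

include hK in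
theorem bdd (y : E3) : BddAbove ((fun x => ⟪y, x⟫) '' K) :=
  (hK.image (by fun_prop)).bddAbove

include hK in
theorem le_hs (y x : E3) (hx : x ∈ K) : ⟪y, x⟫ ≤ hs K y :=
  le_csSup (bdd hK y) ⟨x, hx, rfl⟩

include hK hne in
theorem hs_attained (y : E3) : ∃ x ∈ K, hs K y = ⟪y, x⟫ := by
  obtain ⟨x, hx, he⟩ := (hK.image (f := fun x => ⟪y, x⟫) (by fun_prop)).sSup_mem (hne.image _)
  exact ⟨x, hx, he.symm⟩

include hK hne in
theorem hs_eq (y x : E3) (hx : x ∈ K) (h : ∀ z ∈ K, ⟪y, z⟫ ≤ ⟪y, x⟫) : hs K y = ⟪y, x⟫ := by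
  obtain ⟨z, hz, he⟩ := hs_attained hK hne y
  exact le_antisymm (he ▸ h z hz) (le_hs hK y x hx)

include hK hne in
theorem hs_smul (c : ℝ) (y : E3) (hc : 0 ≤ c) : hs K (c • y) = c * hs K y := by
  obtain ⟨x, hx, he⟩ := hs_attained hK hne y
  rw [hs_eq hK hne (c • y) x hx, he, inner_smul_left]
  · rfl
  · intro z hz
    rw [inner_smul_left, inner_smul_left]
    exact mul_le_mul_of_nonneg_left (he ▸ le_hs hK y z hz) hc

include hK hne in
theorem hs_continuous : Continuous (hs K) := by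
  obtain ⟨R, hR⟩ := hK.isBounded.exists_norm_le
  have key : ∀ y z : E3, hs K y - hs K z ≤ max R 0 * ‖y - z‖ := by
    intro y z
    obtain ⟨x, hx, he⟩ := hs_attained hK hne y
    have h1 := le_hs hK z x hx
    rw [he]
    calc ⟪y, x⟫ - hs K z ≤ ⟪y, x⟫ - ⟪z, x⟫ := by linarith
      _ = ⟪y - z, x⟫ := by rw [inner_sub_left]
      _ ≤ ‖y - z‖ * ‖x‖ := real_inner_le_norm _ _
      _ ≤ ‖y - z‖ * max R 0 := mul_le_mul_of_nonneg_left ((hR x hx).trans (le_max_left _ _))
          (norm_nonneg _)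
      _ = max R 0 * ‖y - z‖ := mul_comm _ _
  have : LipschitzWith (Real.toNNReal (max R 0)) (hs K) := by
    apply LipschitzWith.of_dist_le_mul
    intro y z
    rw [Real.coe_toNNReal _ (le_max_right _ _), Real.dist_eq, dist_eq_norm, abs_le]
    constructor
    · have := key z y
      rw [norm_sub_rev] at this
      linarith
    · exact key y z
  exact this.continuous

end supp

/-- a rotation taking one orthonormal pair to another -/
theorem exists_rotation (u w n m : E3) (hu : ‖u‖ = 1) (hw : ‖w‖ = 1) (huw : ⟪u, w⟫ = 0)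
    (hn : ‖n‖ = 1) (hm : ‖m‖ = 1) (hnm : ⟪n, m⟫ = 0) :
    ∃ ρ : E3 ≃ₗᵢ[ℝ] E3, LinearMap.det (ρ.toLinearEquiv : E3 →ₗ[ℝ] E3) = 1 ∧ ρ u = n ∧ ρ w = m := by
  have ext : ∀ p q : E3, ‖p‖ = 1 → ‖q‖ = 1 → ⟪p, q⟫ = 0 →
      ∃ b : OrthonormalBasis (Fin 3) ℝ E3, b 0 = p ∧ b 1 = q := by
    intro p q hp hq hpq
    obtain ⟨b, hb⟩ := Orthonormal.exists_orthonormalBasis_extension_of_card_eq (𝕜 := ℝ) (E := E3)
      (ι := Fin 3) (by simp) (v := ![p, q, 0]) (s := {0, 1}) (by
        rw [orthonormal_iff_ite]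
        rintro ⟨i, hi⟩ ⟨j, hj⟩
        simp only [mem_insert_iff, mem_singleton_iff] at hi hj
        rcases hi with rfl | rfl <;> rcases hj with rfl | rfl <;>
          simp [hp, hq, hpq, real_inner_comm p q])
    exact ⟨b, by simpa using hb 0 (by simp), by simpa using hb 1 (by simp)⟩
  obtain ⟨b, hb0, hb1⟩ := ext u w hu hw huw
  obtain ⟨c, hc0, hc1⟩ := ext n m hn hm hnm
  set ρ : E3 ≃ₗᵢ[ℝ] E3 := b.equiv c (Equiv.refl _) with hρ
  have hρu : ρ u = n := by rw [← hb0, ← hc0, hρ, OrthonormalBasis.equiv_apply_basis]; rfl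
  have hρw : ρ w = m := by rw [← hb1, ← hc1, hρ, OrthonormalBasis.equiv_apply_basis]; rfl
  have hdet : |LinearMap.det (ρ.toLinearEquiv : E3 →ₗ[ℝ] E3)| = 1 := by
    rw [← LinearMap.normDet_eq_abs_det]
    exact ρ.toLinearIsometry.normDet_eq_one
  rcases abs_eq (by norm_num : (0 : ℝ) ≤ 1) |>.1 hdet with h1 | h1
  · exact ⟨ρ, h1, hρu, hρw⟩
  · set σ : E3 ≃ₗᵢ[ℝ] E3 := (Submodule.span ℝ {c 2})ᗮ.reflection with hσ
    have hfix : ∀ x : E3, ⟪c 2, x⟫ = 0 → σ x = x := by
      intro x hx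
      rw [hσ]
      exact Submodule.reflection_mem_subspace_eq_self
        (Submodule.mem_orthogonal_singleton_iff_inner_right.2 hx)
    have hdσ : LinearMap.det (σ.toLinearEquiv : E3 →ₗ[ℝ] E3) = -1 := by
      have := Submodule.det_reflection (K := (Submodule.span ℝ {c 2})ᗮ)
      rw [Submodule.orthogonal_orthogonal] at this
      rw [hσ]
      have hc2 : c 2 ≠ 0 := by
        intro h0
        have := c.norm_eq_one 2
        rw [h0, norm_zero] at this
        exact zero_ne_one this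
      have hfr : Module.finrank ℝ (Submodule.span ℝ {c 2}) = 1 := finrank_span_singleton hc2
      rw [hfr, pow_one] at this
      exact this
    refine ⟨ρ.trans σ, ?_, ?_, ?_⟩
    · have : ((ρ.trans σ).toLinearEquiv : E3 →ₗ[ℝ] E3) =
          (σ.toLinearEquiv : E3 →ₗ[ℝ] E3) ∘ₗ (ρ.toLinearEquiv : E3 →ₗ[ℝ] E3) := rfl
      rw [this, LinearMap.det_comp, h1, hdσ]; norm_num
    · rw [LinearIsometryEquiv.trans_apply, hρu]
      apply hfix
      rw [← hc0, bb]; simp
    · rw [LinearIsometryEquiv.trans_apply, hρw]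
      apply hfix
      rw [← hc1, bb]; simp

/-- a compact convex set all of whose circumscribed regular triangular prisms have the same size is
a ball -/
theorem ball_of_const (K : Set E3) (hK : IsCompact K) (hne : K.Nonempty) (hconv : Convex ℝ K)
    (n m : E3) (hn : ‖n‖ = 1) (hm : ‖m‖ = 1) (hnm : ⟪n, m⟫ = 0) (r : ℝ) (hr : 0 < r)
    (h : ∀ ρ : E3 ≃ₗᵢ[ℝ] E3, LinearMap.det (ρ.toLinearEquiv : E3 →ₗ[ℝ] E3) = 1 →
      hs K (ρ.symm n) + hs K (ρ.symm (-(1 / 2 : ℝ) • n + (√3 / 2) • m)) +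
        hs K (ρ.symm (-(1 / 2 : ℝ) • n - (√3 / 2) • m)) = 3 * r) :
    ∃ a : E3, K = closedBall a r := by
  set f : E3 → ℝ := fun x => hs K x - r * ‖x‖ with hf
  have hfc : Continuous f := (hs_continuous hK hne).sub (by fun_prop)
  have hfh : ∀ (c : ℝ) (x : E3), 0 ≤ c → f (c • x) = c * f x := by
    intro c x hc
    simp only [hf, hs_smul hK hne c x hc, norm_smul, Real.norm_of_nonneg hc]
    ring
  have hft : Triples f := by
    intro u w hu hw huw
    obtain ⟨ρ, hρ, hρu, hρw⟩ := exists_rotation u w n m hu hw huw hn hm hnm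
    have h1 := h ρ hρ
    rw [← hρu, ← hρw] at h1
    simp only [← map_smul, ← map_add, ← map_sub, LinearIsometryEquiv.symm_apply_apply] at h1
    have hs3 : (1 / 2 : ℝ) ^ 2 + (√3 / 2) ^ 2 = 1 := by
      rw [div_pow, div_pow, sq3]; norm_num
    have e1 : ‖-(1 / 2 : ℝ) • u + (√3 / 2) • w‖ = 1 :=
      norm_combo u w hu hw huw _ _ (by rw [neg_sq]; exact hs3)
    have e2 : ‖-(1 / 2 : ℝ) • u - (√3 / 2) • w‖ = 1 := by
      have := norm_combo u w hu hw huw (-(1 / 2)) (-(√3 / 2)) (by rw [neg_sq, neg_sq]; exact hs3)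
      rwa [neg_smul (√3 / 2) w, ← sub_eq_add_neg] at this
    simp only [hf, hu, e1, e2]
    linarith
  obtain ⟨a, ha⟩ := linear_of_triples f hfc hfh hft
  have hh : ∀ x, hs K x = ⟪a, x⟫ + r * ‖x‖ := by
    intro x
    have := ha x
    simp only [hf] at this
    linarith
  refine ⟨a, Subset.antisymm ?_ ?_⟩
  · intro x hx
    rw [mem_closedBall, dist_eq_norm]
    have h1 := le_hs hK (x - a) x hx
    rw [hh] at h1
    have h2 : ⟪x - a, x⟫ - ⟪a, x - a⟫ = ‖x - a‖ ^ 2 := by
      rw [← real_inner_self_eq_norm_sq, inner_sub_right (x - a) x a, real_inner_comm a (x - a)]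
    by_contra h3
    push Not at h3
    nlinarith [norm_nonneg (x - a)]
  · intro x hx
    by_contra hxK
    obtain ⟨g, c, h1, h2⟩ := geometric_hahn_banach_closed_point hconv hK.isClosed hxK
    obtain ⟨y, hy⟩ := (InnerProductSpace.toDual ℝ E3).surjective g
    have hg : ∀ z, g z = ⟪y, z⟫ := by intro z; rw [← hy]; rfl
    obtain ⟨z, hz, he⟩ := hs_attained hK hne y
    have h3 := h1 z hz
    rw [hg, ← he, hh] at h3
    rw [hg] at h2
    rw [mem_closedBall, dist_eq_norm] at hx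
    have h4 := real_inner_le_norm y (x - a)
    rw [inner_sub_right, real_inner_comm a y] at h4
    nlinarith [norm_nonneg y]

end Pool.Agent.V11187.Rotor
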