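import Pool.Agent.V11187.RotorAvg

set_option autoImplicit false

/-! A continuous positively homogeneous function on `R^3` whose values at every three coplanar unit
vectors with pairwise angles `120` degrees add up to zero is linear. -/

open MeasureTheory Metric Set Filter Topology
open scoped Pointwise ENNReal RealInnerProductSpace

namespace Pool.Agent.V11187.Rotor

/-- the hypothesis on triples -/
def Triples (f : E3 → ℝ) : Prop := ∀ u w : E3, ‖u‖ = 1 → ‖w‖ = 1 → ⟪u, w⟫ = 0 →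
  f u + f (-(1 / 2 : ℝ) • u + (√3 / 2) • w) + f (-(1 / 2 : ℝ) • u - (√3 / 2) • w) = 0

theorem sq3 : (√3) ^ 2 = 3 := Real.sq_sqrt (by norm_num)

theorem norm_combo (u w : E3) (hu : ‖u‖ = 1) (hw : ‖w‖ = 1) (h : ⟪u, w⟫ = 0) (p q : ℝ)
    (hpq : p ^ 2 + q ^ 2 = 1) : ‖p • u + q • w‖ = 1 := by
  have e : ‖p • u + q • w‖ ^ 2 = 1 := by
    rw [← real_inner_self_eq_norm_sq]
    simp only [inner_add_left, inner_add_right, inner_smul_left, inner_smul_right,
      real_inner_self_eq_norm_sq, real_inner_comm u w, hu, hw, h]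
    simp
    linarith
  have h0 := norm_nonneg (p • u + q • w)
  nlinarith

section

variable (b : OrthonormalBasis (Fin 3) ℝ E3) (f : E3 → ℝ)

theorem rotL_continuous : Continuous (fun p : ℝ × E3 => rotL b (Real.cos p.1) (Real.sin p.1) p.2) := by
  simp only [rotL_apply]
  fun_prop

theorem zon_triples (hf : Continuous f) (h : Triples f) (u w : E3) (hu : ‖u‖ = 1) (hw : ‖w‖ = 1)
    (huw : ⟪u, w⟫ = 0) : zon b f u + zon b f (-(1 / 2 : ℝ) • u + (√3 / 2) • w) +
      zon b f (-(1 / 2 : ℝ) • u - (√3 / 2) • w) = 0 := by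
  have hc : ∀ x : E3, IntervalIntegrable (fun ψ : ℝ => f (rotL b (Real.cos ψ) (Real.sin ψ) x))
      volume 0 (2 * Real.pi) := fun x =>
    (hf.comp ((rotL_continuous b).comp (continuous_id.prodMk continuous_const))).intervalIntegrable _ _
  have e1 := intervalIntegral.integral_add (hc u) (hc (-(1 / 2 : ℝ) • u + (√3 / 2) • w))
  have e2 := intervalIntegral.integral_add ((hc u).add (hc (-(1 / 2 : ℝ) • u + (√3 / 2) • w)))
    (hc (-(1 / 2 : ℝ) • u - (√3 / 2) • w))
  have e3 : ∫ ψ in (0 : ℝ)..(2 * Real.pi), (f (rotL b (Real.cos ψ) (Real.sin ψ) u) +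
      f (rotL b (Real.cos ψ) (Real.sin ψ) (-(1 / 2 : ℝ) • u + (√3 / 2) • w))) +
      f (rotL b (Real.cos ψ) (Real.sin ψ) (-(1 / 2 : ℝ) • u - (√3 / 2) • w)) = 0 := by
    rw [intervalIntegral.integral_congr (g := fun _ => (0 : ℝ))]
    · simp
    · intro ψ _
      have hcs : (Real.cos ψ) ^ 2 + (Real.sin ψ) ^ 2 = 1 := Real.cos_sq_add_sin_sq ψ
      have := h (rotI b _ _ hcs u) (rotI b _ _ hcs w) (by simpa using hu) (by simpa using hw)
        (by simpa using huw)
      simp only [← map_smul, ← map_add, ← map_sub] at this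
      simpa only [rotI_apply] using this
  unfold zon
  rw [← e1]
  exact e2.symm.trans e3

theorem circ_triples (hf : Continuous f) (h : Triples f) (a c : ℝ) (hac : a ^ 2 + c ^ 2 ≤ 1) :
    circ b f a + circ b f (-(1 / 2) * a + √3 / 2 * c) + circ b f (-(1 / 2) * a - √3 / 2 * c) = 0 := by
  obtain ⟨u, w, hu, hw, huw, hua, hwc⟩ : ∃ u w : E3, ‖u‖ = 1 ∧ ‖w‖ = 1 ∧ ⟪u, w⟫ = 0 ∧
      ⟪b 2, u⟫ = a ∧ ⟪b 2, w⟫ = c := by
    have key : ∀ x0 x1 x2 y0 y1 y2 : ℝ, x0 ^ 2 + x1 ^ 2 + x2 ^ 2 = 1 → y0 ^ 2 + y1 ^ 2 + y2 ^ 2 = 1 →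
        x0 * y0 + x1 * y1 + x2 * y2 = 0 → x2 = a → y2 = c → ∃ u w : E3, ‖u‖ = 1 ∧ ‖w‖ = 1 ∧
        ⟪u, w⟫ = 0 ∧ ⟪b 2, u⟫ = a ∧ ⟪b 2, w⟫ = c := by
      intro x0 x1 x2 y0 y1 y2 hx hy hxy h2 h3
      refine ⟨x0 • b 0 + x1 • b 1 + x2 • b 2, y0 • b 0 + y1 • b 1 + y2 • b 2, ?_, ?_, ?_, ?_, ?_⟩
      · have e : ‖x0 • b 0 + x1 • b 1 + x2 • b 2‖ ^ 2 = 1 := by
          rw [norm_sq_coord b]
          simp only [inner_add_right, inner_smul_right, bb]
          simpa using hx
        have h0 := norm_nonneg (x0 • b 0 + x1 • b 1 + x2 • b 2)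
        nlinarith
      · have e : ‖y0 • b 0 + y1 • b 1 + y2 • b 2‖ ^ 2 = 1 := by
          rw [norm_sq_coord b]
          simp only [inner_add_right, inner_smul_right, bb]
          simpa using hy
        have h0 := norm_nonneg (y0 • b 0 + y1 • b 1 + y2 • b 2)
        nlinarith
      · simp only [inner_add_right, inner_add_left, inner_smul_right, inner_smul_left, bb]
        simp
        linarith
      · simp only [inner_add_right, inner_smul_right, bb]
        simpa using h2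
      · simp only [inner_add_right, inner_smul_right, bb]
        simpa using h3
    by_cases ha : a ^ 2 < 1
    · have hp : 0 < 1 - a ^ 2 := by linarith
      have hq : 0 ≤ 1 - a ^ 2 - c ^ 2 := by linarith
      have hp1 : (√(1 - a ^ 2)) ^ 2 = 1 - a ^ 2 := Real.sq_sqrt hp.le
      have hq1 : (√(1 - a ^ 2 - c ^ 2)) ^ 2 = 1 - a ^ 2 - c ^ 2 := Real.sq_sqrt hq
      have hp0 : √(1 - a ^ 2) ≠ 0 := (Real.sqrt_pos.2 hp).ne'
      refine key (√(1 - a ^ 2)) 0 a (-(a * c) / √(1 - a ^ 2)) (√(1 - a ^ 2 - c ^ 2) / √(1 - a ^ 2)) c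
        ?_ ?_ ?_ rfl rfl
      · rw [hp1]; ring
      · rw [div_pow, div_pow, hp1, hq1]
        field_simp
        ring
      · field_simp
        ring
    · have ha1 : a ^ 2 = 1 := by nlinarith [sq_nonneg c]
      have hc0 : c = 0 := by nlinarith [sq_nonneg c]
      exact key 0 0 a 1 0 0 (by rw [ha1]; ring) (by ring) (by ring) rfl hc0.symm
  have h1 := zon_triples b f hf h u w hu hw huw
  have hn : ∀ σ : ℝ, σ ^ 2 = 1 → ‖(-(1 / 2 : ℝ)) • u + (σ * (√3 / 2)) • w‖ = 1 := by
    intro σ hσ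
    apply norm_combo u w hu hw huw
    rw [mul_pow, div_pow, sq3, hσ]; norm_num
  have hn1 := hn 1 (by norm_num)
  have hn2 := hn (-1) (by norm_num)
  rw [one_mul] at hn1
  rw [neg_one_mul, neg_smul (√3 / 2) w, ← sub_eq_add_neg] at hn2
  rw [zon_eq_circ b f _ hu, zon_eq_circ b f _ hn1, zon_eq_circ b f _ hn2] at h1
  simpa only [inner_add_right, inner_sub_right, inner_smul_right, hua, hwc] using h1

variable (hom : ∀ (c : ℝ) (x : E3), 0 ≤ c → f (c • x) = c * f x)

include hom in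
theorem zon_eq (hf : Continuous f) (h : Triples f) (x : E3) :
    zon b f x = 2 * Real.pi * (⟪b 2, x⟫ * f (b 2)) := by
  have hu : ∀ y : E3, ‖y‖ = 1 → zon b f y = 2 * Real.pi * (⟪b 2, y⟫ * f (b 2)) := by
    intro y hy
    rw [zon_eq_circ b f y hy, cauchy_disc (circ b f) (circ_continuous b f hf)
      (circ_triples b f hf h) ⟪b 2, y⟫ ?_, circ_one]
    · ring
    · have := abs_real_inner_le_norm (b 2) y
      simpa [hy] using this
  by_cases hx : x = 0
  · subst hx
    have h0 : f 0 = 0 := by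
      have := hom 0 0 le_rfl
      simpa using this
    simp [zon, h0]
  · have hn : 0 < ‖x‖ := norm_pos_iff.2 hx
    have e : x = ‖x‖ • (‖x‖⁻¹ • x) := by
      rw [smul_smul, mul_inv_cancel₀ hn.ne', one_smul]
    have hz : ∀ y : E3, zon b f (‖x‖ • y) = ‖x‖ * zon b f y := by
      intro y
      unfold zon
      rw [← intervalIntegral.integral_const_mul]
      apply intervalIntegral.integral_congr
      intro ψ _
      show f (rotL b _ _ (‖x‖ • y)) = _
      rw [map_smul, hom _ _ hn.le]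
    conv_lhs => rw [e]
    rw [hz, hu _ (by rw [norm_smul, norm_inv, norm_norm, inv_mul_cancel₀ hn.ne']), inner_smul_right]
    field_simp

/-- the first moment of `f` over the ball, in direction `b 2` -/
theorem moment_eq (hom : ∀ (c : ℝ) (x : E3), 0 ≤ c → f (c • x) = c * f x) (hf : Continuous f)
    (h : Triples f) :
    ∫ x in closedBall (0 : E3) 1, f x * ⟪b 2, x⟫ =
      f (b 2) * ∫ x in closedBall (0 : E3) 1, ⟪b 2, x⟫ ^ 2 := by
  set B : Set E3 := closedBall (0 : E3) 1 with hB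
  have h1 : ∀ ψ : ℝ, ∫ x in B, f (rotL b (Real.cos ψ) (Real.sin ψ) x) * ⟪b 2, x⟫ =
      ∫ x in B, f x * ⟪b 2, x⟫ := by
    intro ψ
    have hcs : (Real.cos ψ) ^ 2 + (Real.sin ψ) ^ 2 = 1 := Real.cos_sq_add_sin_sq ψ
    set R := rotI b _ _ hcs with hR
    have hmp : MeasurePreserving R volume volume := R.measurePreserving
    have := hmp.setIntegral_preimage_emb R.toHomeomorph.measurableEmbedding
      (fun x => f x * ⟪b 2, x⟫) B
    have hpre : R ⁻¹' B = B := by
      ext x; simp [hB]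
    rw [hpre] at this
    rw [← this]
    congr 1
    ext x
    rw [hR, rotI_apply, (rotL_coord b _ _ x).2.2]
  have h2 : ∫ ψ in (0 : ℝ)..(2 * Real.pi), ∫ x in B,
      f (rotL b (Real.cos ψ) (Real.sin ψ) x) * ⟪b 2, x⟫ =
      ∫ x in B, ∫ ψ in (0 : ℝ)..(2 * Real.pi), f (rotL b (Real.cos ψ) (Real.sin ψ) x) * ⟪b 2, x⟫ := by
    apply intervalIntegral_integral_swap
    have hcont : Continuous (Function.uncurry fun (ψ : ℝ) (x : E3) =>
        f (rotL b (Real.cos ψ) (Real.sin ψ) x) * ⟪b 2, x⟫) := by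
      apply (hf.comp (rotL_continuous b)).mul
      fun_prop
    rw [Measure.prod_restrict]
    apply (hcont.continuousOn.integrableOn_compact (μ := volume.prod volume)
      (isCompact_uIcc.prod (isCompact_closedBall (0 : E3) 1))).mono_set
    exact prod_mono uIoc_subset_uIcc Subset.rfl
  simp only [h1] at h2
  have h3 : ∀ x : E3, ∫ ψ in (0 : ℝ)..(2 * Real.pi),
      f (rotL b (Real.cos ψ) (Real.sin ψ) x) * ⟪b 2, x⟫ =
      (2 * Real.pi * f (b 2)) * ⟪b 2, x⟫ ^ 2 := by
    intro x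
    rw [intervalIntegral.integral_mul_const]
    have := zon_eq b f hom hf h x
    unfold zon at this
    rw [this]
    ring
  simp only [h3] at h2
  rw [intervalIntegral.integral_const, integral_const_mul, smul_eq_mul, sub_zero] at h2
  have hpi : (2 * Real.pi) ≠ 0 := by positivity
  apply mul_left_cancel₀ hpi
  rw [h2]
  ring

end

theorem sqmoment_pos (z : E3) (hz : ‖z‖ = 1) : 0 < ∫ x in closedBall (0 : E3) 1, ⟪z, x⟫ ^ 2 := by
  have hc : Continuous fun x : E3 => ⟪z, x⟫ ^ 2 := by fun_prop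
  rw [setIntegral_pos_iff_support_of_nonneg_ae (Eventually.of_forall fun x => sq_nonneg _)
    (hc.continuousOn.integrableOn_compact (isCompact_closedBall (0 : E3) 1))]
  have hsub : ball ((1 / 2 : ℝ) • z) (1 / 4) ⊆ Function.support (fun x : E3 => ⟪z, x⟫ ^ 2) ∩
      closedBall (0 : E3) 1 := by
    intro x hx
    rw [mem_ball, dist_eq_norm] at hx
    have h1 : ⟪z, x⟫ = 1 / 2 + ⟪z, x - (1 / 2 : ℝ) • z⟫ := by
      rw [inner_sub_right, inner_smul_right, real_inner_self_eq_norm_sq, hz]; ring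
    have h2 := abs_real_inner_le_norm z (x - (1 / 2 : ℝ) • z)
    rw [hz, one_mul] at h2
    have h3 := (abs_le.1 h2).1
    constructor
    · rw [Function.mem_support]
      have : 0 < ⟪z, x⟫ := by linarith
      positivity
    · rw [mem_closedBall, dist_zero_right]
      have h4 : x = (x - (1 / 2 : ℝ) • z) + (1 / 2 : ℝ) • z := by abel
      rw [h4]
      refine (norm_add_le _ _).trans ?_
      rw [norm_smul, hz]
      norm_num
      linarith
  exact (measure_ball_pos volume _ (by norm_num)).trans_le (measure_mono hsub)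

theorem sqmoment_eq (z z' : E3) (hz : ‖z‖ = ‖z'‖) : ∫ x in closedBall (0 : E3) 1, ⟪z, x⟫ ^ 2 =
    ∫ x in closedBall (0 : E3) 1, ⟪z', x⟫ ^ 2 := by
  set R : E3 ≃ₗᵢ[ℝ] E3 := (Submodule.span ℝ {z - z'})ᗮ.reflection with hR
  have hRz : R z = z' := Submodule.reflection_sub hz
  have hmp : MeasurePreserving R volume volume := R.measurePreserving
  have := hmp.setIntegral_preimage_emb R.toHomeomorph.measurableEmbedding
    (fun x => ⟪z', x⟫ ^ 2) (closedBall (0 : E3) 1)
  have hpre : R ⁻¹' (closedBall (0 : E3) 1) = closedBall (0 : E3) 1 := by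
    ext x; simp
  rw [hpre] at this
  rw [← this]
  congr 1
  ext x
  rw [← hRz, LinearIsometryEquiv.inner_map_map]

/-- **Main lemma**: continuous, positively homogeneous and zero sum on the regular triples implies
linear. -/
theorem linear_of_triples (f : E3 → ℝ) (hf : Continuous f)
    (hom : ∀ (c : ℝ) (x : E3), 0 ≤ c → f (c • x) = c * f x) (h : Triples f) :
    ∃ a : E3, ∀ x, f x = ⟪a, x⟫ := by
  obtain ⟨z0, hz0⟩ : ∃ z : E3, ‖z‖ = 1 := by
    exact ⟨(EuclideanSpace.basisFun (Fin 3) ℝ) 0, (EuclideanSpace.basisFun (Fin 3) ℝ).norm_eq_one 0⟩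
  set M : ℝ := ∫ x in closedBall (0 : E3) 1, ⟪z0, x⟫ ^ 2 with hM
  have hMpos : 0 < M := sqmoment_pos z0 hz0
  set A : E3 := ∫ x in closedBall (0 : E3) 1, f x • x with hA
  have hAi : ∀ z : E3, ⟪z, A⟫ = ∫ x in closedBall (0 : E3) 1, f x * ⟪z, x⟫ := by
    intro z
    rw [hA, ← integral_inner]
    · simp only [inner_smul_right]
    · exact (hf.smul continuous_id).continuousOn.integrableOn_compact
        (isCompact_closedBall (0 : E3) 1)
  have hunit : ∀ z : E3, ‖z‖ = 1 → f z = ⟪M⁻¹ • A, z⟫ := by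
    intro z hz
    obtain ⟨b, hb⟩ := Orthonormal.exists_orthonormalBasis_extension_of_card_eq (𝕜 := ℝ) (E := E3)
      (ι := Fin 3) (by simp) (v := fun _ => z) (s := {2}) (by
        rw [orthonormal_iff_ite]
        rintro ⟨i, hi⟩ ⟨j, hj⟩
        simp only [mem_singleton_iff] at hi hj
        subst hi; subst hj
        simp [hz])
    have hb2 : b 2 = z := hb 2 rfl
    have hm := moment_eq b f hom hf h
    rw [hb2, ← hAi z, sqmoment_eq z z0 (by rw [hz, hz0]), ← hM] at hm
    rw [inner_smul_left, real_inner_comm, hm]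
    simp
    field_simp
  refine ⟨M⁻¹ • A, fun x => ?_⟩
  by_cases hx : x = 0
  · subst hx
    have := hom 0 0 le_rfl
    simpa using this
  · have hn : 0 < ‖x‖ := norm_pos_iff.2 hx
    have e : x = ‖x‖ • (‖x‖⁻¹ • x) := by
      rw [smul_smul, mul_inv_cancel₀ hn.ne', one_smul]
    conv_lhs => rw [e]
    rw [hom _ _ hn.le, hunit _ (by rw [norm_smul, norm_inv, norm_norm, inv_mul_cancel₀ hn.ne']),
      inner_smul_right]
    field_simp

end Pool.Agent.V11187.Rotor
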